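import Mathlib
import Pool.Agent.H80.W.Zones

set_option autoImplicit false
open Finset

/-! # Zones: a rectangle of tiles without a half row

`SlR Z x0 x1 y0 y1 xs r` : `Z` is the tile rectangle `[x0, x1) × [y0, y1)` without the tiles `(x, r)`, `xs ≤ x`.
`SlR.zf`, `SlR.zv` : the complement is connected for closed and for open paths. -/

namespace Pool.Agent.H62.W

open Pool.Agent.H75.Perc Pool.Agent.H75.TwoArm Pool.Agent.H75.Four Pool.Agent.H69.Q1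
open Pool.Agent.Q1 Pool.Agent.H43.Q1 Pool.Agent.H39.Q1
open H80.W (TR ZF ZV OutF OutV tr_conn)

/-- `Z` is the tile rectangle `[x0, x1) × [y0, y1)` without the tiles `(x, r)`, `xs ≤ x` -/
def SlR (Z : Finset (ℤ × ℤ)) (x0 x1 y0 y1 xs r : ℤ) : Prop :=
  ∀ e : ℤ × ℤ, (e.1 + e.2) % 2 = 1 →
    (e ∈ Z ↔ (2 * x0 + 1 ≤ e.1 + e.2 ∧ e.1 + e.2 ≤ 2 * x1 - 1 ∧ 2 * y0 + 1 ≤ e.2 - e.1 ∧
      e.2 - e.1 ≤ 2 * y1 - 1) ∧ ¬ (e.2 - e.1 = 2 * r + 1 ∧ 2 * xs + 1 ≤ e.1 + e.2))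

/-- a rectangle as a finite set of labels -/
lemma exists_TR (x0 x1 y0 y1 : ℤ) : ∃ Z : Finset (ℤ × ℤ), TR Z x0 x1 y0 y1 ∧ ∀ e ∈ Z, (e.1 + e.2) % 2 = 1 := by
  classical
  refine ⟨(Icc (-(|x0| + |x1| + |y0| + |y1|) - 2) (|x0| + |x1| + |y0| + |y1| + 2) ×ˢ
    Icc (-(|x0| + |x1| + |y0| + |y1|) - 2) (|x0| + |x1| + |y0| + |y1| + 2)).filter fun e =>
    (e.1 + e.2) % 2 = 1 ∧ 2 * x0 + 1 ≤ e.1 + e.2 ∧ e.1 + e.2 ≤ 2 * x1 - 1 ∧ 2 * y0 + 1 ≤ e.2 - e.1 ∧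
      e.2 - e.1 ≤ 2 * y1 - 1, ?_, ?_⟩
  · intro e he
    rw [mem_filter, mem_product, mem_Icc, mem_Icc]
    constructor
    · exact fun h => h.2.2
    · intro h
      have a1 := abs_le.1 (le_refl |x0|)
      have a2 := abs_le.1 (le_refl |x1|)
      have a3 := abs_le.1 (le_refl |y0|)
      have a4 := abs_le.1 (le_refl |y1|)
      refine ⟨?_, he, h⟩
      omega
  · intro e he
    exact (mem_filter.1 he).2.1

section conn

variable {Z : Finset (ℤ × ℤ)} {R : ℤ × ℤ → ℤ × ℤ → Prop} {o : ℤ × ℤ}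

/-- two neighbouring tiles of a row have a common point of each kind -/
lemma row_next {a y e : ℤ × ℤ} (h1 : IsUnit4 (y - a)) (h2 : a + y - o = e) :
    (∃ z, IsUnit4 (z - a) ∧ a + z - o = e + (1, 1)) ∨ ∃ z, IsUnit4 (z - y) ∧ y + z - o = e + (1, 1) := by
  subst h2
  obtain ⟨a1, a2⟩ := a
  obtain ⟨y1, y2⟩ := y
  obtain ⟨o1, o2⟩ := o
  unfold IsUnit4 at h1 ⊢
  simp only [Prod.mk_sub_mk, Prod.mk_add_mk, Prod.mk.injEq] at h1 ⊢
  rcases h1 with h1 | h1 | h1 | h1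
  · right
    refine ⟨(a1 + 1, a2 + 1), ?_, ?_⟩
    · simp only [Prod.mk_sub_mk, Prod.mk.injEq]; omega
    · simp only [Prod.mk_sub_mk, Prod.mk_add_mk, Prod.mk.injEq]; omega
  · right
    refine ⟨(a1 + 1, a2 + 1), ?_, ?_⟩
    · simp only [Prod.mk_sub_mk, Prod.mk.injEq]; omega
    · simp only [Prod.mk_sub_mk, Prod.mk_add_mk, Prod.mk.injEq]; omega
  · left
    refine ⟨(a1, a2 + 1), ?_, ?_⟩
    · simp only [Prod.mk_sub_mk, Prod.mk.injEq]; omega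
    · simp only [Prod.mk_sub_mk, Prod.mk_add_mk, Prod.mk.injEq]; omega
  · left
    refine ⟨(a1 + 1, a2), ?_, ?_⟩
    · simp only [Prod.mk_sub_mk, Prod.mk.injEq]; omega
    · simp only [Prod.mk_sub_mk, Prod.mk_add_mk, Prod.mk.injEq]; omega

/-- the complement is connected -/
lemma sl_conn {x0 x1 y0 y1 xs r : ℤ} (hT : SlR Z x0 x1 y0 y1 xs r) (ho : (o.1 + o.2) % 2 = 0)
    (tr : ∀ a b c, R a b → R b c → R a c) (rf : ∀ a, R a a) (sy : ∀ a b, R a b → R b a)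
    (st : ∀ a b, IsUnit4 (b - a) → a + b - o ∉ Z → R a b) {v v' : ℤ × ℤ}
    (hv : ∃ y, IsUnit4 (y - v) ∧ v + y - o ∉ Z) (hv' : ∃ y, IsUnit4 (y - v') ∧ v' + y - o ∉ Z) :
    R v v' := by
  obtain ⟨Z0, h0, h0o⟩ := exists_TR x0 x1 y0 y1
  have hodd : ∀ v y : ℤ × ℤ, IsUnit4 (y - v) → ((v + y - o).1 + (v + y - o).2) % 2 = 1 := by
    intro v y hy
    obtain ⟨d, hd, rfl⟩ : ∃ d : ℤ × ℤ, IsUnit4 d ∧ y = v + d := ⟨y - v, hy, by abel⟩
    simp only [Prod.fst_add, Prod.snd_add, Prod.fst_sub, Prod.snd_sub]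
    rcases hd with rfl | rfl | rfl | rfl <;> simp only [] <;> omega
  have sub : ∀ e, (e.1 + e.2) % 2 = 1 → e ∉ Z0 → e ∉ Z := by
    intro e he h1 h2
    exact h1 ((h0 e he).2 ((hT e he).1 h2).1)
  have st0 : ∀ a b, IsUnit4 (b - a) → a + b - o ∉ Z0 → R a b := fun a b h1 h2 =>
    st a b h1 (sub _ (hodd a b h1) h2)
  have c0 : ∀ {v v' : ℤ × ℤ}, (∃ y, IsUnit4 (y - v) ∧ v + y - o ∉ Z0) →
      (∃ y, IsUnit4 (y - v') ∧ v' + y - o ∉ Z0) → R v v' := fun h1 h2 =>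
    tr_conn h0 h0o ho tr rf sy st0 h1 h2
  -- a point off the rectangle
  obtain ⟨c, hc⟩ : ∃ c : ℤ × ℤ, ∃ y, IsUnit4 (y - c) ∧ c + y - o ∉ Z0 := by
    refine ⟨(|x0| + |o.1| + |x1| + 1 + |o.2|, 0), (|x0| + |o.1| + |x1| + 1 + |o.2| + 1, 0), ?_, ?_⟩
    · unfold IsUnit4; left; ext <;> simp
    · intro h
      have h1 := (h0 _ (h0o _ h)).1 h
      simp only [Prod.fst_add, Prod.snd_add, Prod.fst_sub, Prod.snd_sub] at h1
      have a1 := abs_le.1 (le_refl |x0|)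
      have a2 := abs_le.1 (le_refl |x1|)
      have a3 := abs_le.1 (le_refl |o.1|)
      have a4 := abs_le.1 (le_refl |o.2|)
      have a5 := abs_nonneg x0
      omega
  -- along the row
  have key : ∀ (k : ℕ) (e : ℤ × ℤ), (e.1 + e.2) % 2 = 1 → e.2 - e.1 = 2 * r + 1 → 2 * xs + 1 ≤ e.1 + e.2 →
      2 * x1 + 1 - (e.1 + e.2) ≤ k → ∀ a y, IsUnit4 (y - a) → a + y - o = e → R a c := by
    intro k
    induction k with
    | zero =>
      intro e he h1 h2 h3 a y h4 h5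
      refine c0 ⟨y, h4, ?_⟩ hc
      intro h6
      have h7 := (h0 _ (h0o _ h6)).1 h6
      rw [h5] at h7
      have := h7.2.1
      push_cast at h3
      omega
    | succ k ih =>
      intro e he h1 h2 h3 a y h4 h5
      have hay : R a y := st a y h4 (by
        rw [h5]
        intro h6
        exact ((hT e he).1 h6).2 ⟨h1, h2⟩)
      have e1 : ((e + (1, 1)).1 + (e + (1, 1)).2) % 2 = 1 := by
        simp only [Prod.fst_add, Prod.snd_add]; omega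
      have e2 : (e + (1, 1)).2 - (e + (1, 1)).1 = 2 * r + 1 := by
        simp only [Prod.fst_add, Prod.snd_add]; omega
      have e3 : 2 * xs + 1 ≤ (e + (1, 1)).1 + (e + (1, 1)).2 := by
        simp only [Prod.fst_add, Prod.snd_add]; omega
      have e4 : 2 * x1 + 1 - ((e + (1, 1)).1 + (e + (1, 1)).2) ≤ k := by
        simp only [Prod.fst_add, Prod.snd_add]
        push_cast at h3
        omega
      rcases row_next h4 h5 with ⟨z, z1, z2⟩ | ⟨z, z1, z2⟩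
      · exact ih _ e1 e2 e3 e4 a z z1 z2
      · exact tr _ _ _ hay (ih _ e1 e2 e3 e4 y z z1 z2)
  have all : ∀ v : ℤ × ℤ, (∃ y, IsUnit4 (y - v) ∧ v + y - o ∉ Z) → R v c := by
    rintro v ⟨y, h1, h2⟩
    have ho' := hodd v y h1
    by_cases h3 : v + y - o ∈ Z0
    · have h4 := (h0 _ ho').1 h3
      have h5 : (v + y - o).2 - (v + y - o).1 = 2 * r + 1 ∧ 2 * xs + 1 ≤ (v + y - o).1 + (v + y - o).2 := by
        by_contra h6
        exact h2 ((hT _ ho').2 ⟨h4, h6⟩)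
      exact key (2 * x1 + 1 - ((v + y - o).1 + (v + y - o).2)).toNat _ ho' h5.1 h5.2 (by
        rw [Int.toNat_eq_max]; exact le_max_left _ _) v y h1 rfl
    · exact c0 ⟨y, h1, h3⟩ hc
  exact tr _ _ _ (all v hv) (sy _ _ (all v' hv'))

end conn

variable {Z : Finset (ℤ × ℤ)} {x0 x1 y0 y1 xs r : ℤ}

theorem SlR.zf (hT : SlR Z x0 x1 y0 y1 xs r) : ZF Z := by
  intro a b ha hb
  exact sl_conn (R := DCo Z) (o := (1, 1)) hT (by norm_num) (fun _ _ _ => DCo.trans)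
    (fun a => DCo.refl _ a) (fun _ _ => DCo.symm) (fun _ _ h1 h2 => DCo.step h1 h2) ha hb

theorem SlR.zv (hT : SlR Z x0 x1 y0 y1 xs r) : ZV Z := by
  classical
  intro a b ha hb
  refine sl_conn (R := fun a b => ∃ N, Co N a b ∧ Disjoint N Z) (o := (0, 0)) hT (by norm_num)
    ?_ (fun a => ⟨∅, Co.refl _ _, disjoint_empty_left _⟩)
    (fun a b ⟨N, h1, h2⟩ => ⟨N, h1.symm, h2⟩) ?_ ?_ ?_
  · rintro a b c ⟨N, h1, h2⟩ ⟨N', h3, h4⟩
    refine ⟨N ∪ N', (h1.mono subset_union_left).trans (h3.mono subset_union_right), ?_⟩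
    rw [disjoint_union_left]
    exact ⟨h2, h4⟩
  · intro a b h1 h2
    refine ⟨{a + b}, Relation.ReflTransGen.single ⟨h1, mem_singleton_self _⟩, ?_⟩
    rw [disjoint_singleton_left]
    rwa [show ((0, 0) : ℤ × ℤ) = 0 from rfl, sub_zero] at h2
  · obtain ⟨y, h1, h2⟩ := ha
    exact ⟨y, h1, by rwa [show ((0, 0) : ℤ × ℤ) = 0 from rfl, sub_zero]⟩
  · obtain ⟨y, h1, h2⟩ := hb
    exact ⟨y, h1, by rwa [show ((0, 0) : ℤ × ℤ) = 0 from rfl, sub_zero]⟩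

end Pool.Agent.H62.W
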