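import Mathlib
import Pool.Agent.H62.W.Slit
import Pool.Agent.H92.W.PatSG
import Pool.Agent.H54.W.RoomBox
import Pool.Agent.H49.W.CapF
import Pool.Agent.H42.W.TogP
import Pool.Agent.H14.W.PTog

set_option autoImplicit false
open Finset

/-! # The functional of a world with a deleted half row

`PhiG Λ D X Ψ w = Ψ (i j ↦ X i and X j are joined in SG Λ D w)`. If the labels of `Λ` off `D` are a zone `Z` whose
complement is connected, and the ends `X` are not inside `Z`, it is a functional of the link pattern of `Z`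
(`patF_G`), hence `leaf_G`, `tog_G`, `boxF_G`. `ZS X1 X2 Y1 Y2 x0 r` : the zone of the rectangle
`[X1, X2) × [Y1, Y2)` of tiles without the half row `r`, `x0 ≤ x`; `Phi` : its functional. -/

namespace Pool.Agent.H62.W

open Pool.Agent.H75.Perc Pool.Agent.H75.TwoArm Pool.Agent.H13.W Pool.Agent.H33.Q1
open Pool.Agent.H92.W (Outer Same patInv_SG)
open Pool.Agent.H54.W (Zb mem_Zb CD NE lah lab_eW_lt)
open Pool.Agent.H21.W (DR mem_DR)
open Pool.Agent.H49.W (Leaf leaf_pat)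
open H80.W (ZF ZV Entry Pat PatF pat_inter)

section gen

variable {ι β : Type*} {Λ D : Set (ℤ × ℤ)} {Z E W M : Finset (ℤ × ℤ)} {X : ι → ℤ × ℤ}
  {Ψ : (ι → ι → Prop) → β} {w w' : Finset (ℤ × ℤ)}

/-- **The functional.** -/
def PhiG (Λ D : Set (ℤ × ℤ)) (X : ι → ℤ × ℤ) (Ψ : (ι → ι → Prop) → β) (w : Finset (ℤ × ℤ)) : β :=
  Ψ fun i j => (SG Λ D w).Reachable (X i) (X j)

/-- the zone of the world -/
structure ZoneG (Λ D : Set (ℤ × ℤ)) (X : ι → ℤ × ℤ) (Z : Finset (ℤ × ℤ)) : Prop where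
  mem : ∀ e, e ∈ Z ↔ e ∈ Λ ∧ e ∉ D
  zf : ZF Z
  zv : ZV Z
  out : ∀ i, Outer Z (X i)

lemma ZoneG.congr (h : ZoneG Λ D X Z) (hw : w ∩ Z = w' ∩ Z) : PhiG Λ D X Ψ w = PhiG Λ D X Ψ w' := by
  unfold PhiG
  rw [SG_congr (D' := D) (w' := w') (fun _ _ => Iff.rfl) fun e h1 h2 => ?_]
  have h3 : e ∈ Z := (h.mem e).2 ⟨h1, h2⟩
  have h4 := Finset.ext_iff.1 hw e
  rw [mem_inter, mem_inter] at h4
  tauto

lemma ZoneG.inter (h : ZoneG Λ D X Z) : PhiG Λ D X Ψ (w ∩ Z) = PhiG Λ D X Ψ w :=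
  h.congr (by rw [inter_assoc, inter_self])

/-- **It is a functional of the link pattern of the zone.** -/
theorem ZoneG.patF (h : ZoneG Λ D X Z) (Ψ : (ι → ι → Prop) → β) :
    PatF Z {c | Entry Z c} (PhiG Λ D X Ψ) where
  zf := h.zf
  zv := h.zv
  entry := fun _ hc => hc
  pat := fun w hw w' hw' hp => by
    have k := patInv_SG X (fun e he => (h.mem e).1 he) h.out w w'
      (fun e he => ⟨fun h1 => absurd (hw h1) he, fun h1 => absurd (hw' h1) he⟩)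
      (fun c hc d => hp c hc d)
    exact congrArg Ψ k

lemma ZoneG.pat' (h : ZoneG Λ D X Z) {G G' : Finset (ℤ × ℤ)}
    (hp : ∀ c ∈ {c | Entry Z c}, ∀ d, Pat Z G c d ↔ Pat Z G' c d) :
    PhiG Λ D X Ψ G = PhiG Λ D X Ψ G' := by
  rw [← h.inter (w := G), ← h.inter (w := G')]
  refine (h.patF Ψ).pat _ inter_subset_right _ inter_subset_right fun c hc d => ?_
  rw [pat_inter, pat_inter]
  exact hp c hc d

/-- **Dangling labels are not seen.** -/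
theorem ZoneG.leaf {Ψ : (ι → ι → Prop) → ℂ} (h : ZoneG Λ D X Z) {o : Bool} {v : ℤ × ℤ}
    (hV : o = true → ∀ y, IsUnit4 (y - v) → v + y ∈ Z)
    (hW : o = false → ∀ y, IsUnit4 (y - v) → v + y - (1, 1) ∈ Z) : Leaf (PhiG Λ D X Ψ) o v :=
  leaf_pat (Z := Z) (Lg := {c | Entry Z c}) (fun _ hc => hc) (fun _ _ hp => h.pat' hp) hV hW

/-- **Toggles.** -/
theorem ZoneG.tog {Ψ : (ι → ι → Prop) → ℂ} (h : ZoneG Λ D X Z) (E W : Finset (ℤ × ℤ)) :
    Pool.Agent.H42.W.Tog E W Z (fun w => PhiG Λ D X Ψ (w ∪ W)) :=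
  (Pool.Agent.H42.W.Tog.ofPatF (h.patF Ψ)).congr fun _ _ => h.inter

/-- **Boxes.** -/
theorem ZoneG.boxF (h : ZoneG Λ D X Z) (hM : M ⊆ Z) : Pool.Agent.H14.W.BoxF Z M (PhiG Λ D X Ψ) :=
  Pool.Agent.H14.W.BoxF.of_pat (h.patF Ψ) hM

lemma phiG_le {Ψ : (ι → ι → Prop) → ℂ} {K : ℝ} (hΨ : ∀ r, ‖Ψ r‖ ≤ K) (w : Finset (ℤ × ℤ)) :
    ‖PhiG Λ D X Ψ w‖ ≤ K := hΨ _

end gen

/-! ### The rectangle without a half row -/

section box

variable {X1 X2 Y1 Y2 x0 r x y : ℤ}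

open Classical in
/-- labels of the rectangle without the half row -/
noncomputable def ZS (X1 X2 Y1 Y2 x0 r : ℤ) : Finset (ℤ × ℤ) :=
  ((Ico X1 X2 ×ˢ Ico Y1 Y2).filter fun t => ¬ (t.2 = r ∧ x0 ≤ t.1)).image lt

lemma mem_ZS : lt (x, y) ∈ ZS X1 X2 Y1 Y2 x0 r ↔
    (X1 ≤ x ∧ x < X2 ∧ Y1 ≤ y ∧ y < Y2) ∧ ¬ (y = r ∧ x0 ≤ x) := by
  classical
  unfold ZS
  rw [mem_image]
  constructor
  · rintro ⟨t, h1, h2⟩
    have := lt_inj h2
    subst this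
    rw [mem_filter, mem_product, mem_Ico, mem_Ico] at h1
    simp only at h1
    tauto
  · intro h
    refine ⟨(x, y), ?_, rfl⟩
    rw [mem_filter, mem_product, mem_Ico, mem_Ico]
    simp only
    tauto

lemma odd_ZS {e : ℤ × ℤ} (h : e ∈ ZS X1 X2 Y1 Y2 x0 r) : (e.1 + e.2) % 2 = 1 := by
  classical
  unfold ZS at h
  obtain ⟨t, -, rfl⟩ := mem_image.1 h
  exact lt_odd _

lemma slR_ZS : SlR (ZS X1 X2 Y1 Y2 x0 r) X1 X2 Y1 Y2 x0 r := by
  intro e he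
  obtain ⟨x, y, rfl⟩ := Pool.Agent.H74.R45.exists_lt he
  rw [mem_ZS]
  unfold lt
  simp only
  constructor <;> intro h <;> refine ⟨?_, ?_⟩ <;> omega

lemma mem_ZS_iff (e : ℤ × ℤ) : e ∈ ZS X1 X2 Y1 Y2 x0 r ↔ e ∈ Zb X1 X2 Y1 Y2 ∧ e ∉ DR x0 r := by
  constructor
  · intro h
    obtain ⟨x, y, rfl⟩ := Pool.Agent.H74.R45.exists_lt (odd_ZS h)
    rw [mem_ZS] at h
    rw [mem_Zb, mem_DR]
    exact h
  · rintro ⟨⟨t, h1, rfl⟩, h2⟩
    obtain ⟨x, y⟩ := t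
    rw [mem_DR] at h2
    rw [mem_ZS]
    exact ⟨h1, h2⟩

/-- the zone of the box -/
theorem zoneG_box {ι : Type*} {X : ι → ℤ × ℤ} (hX : ∀ i, Outer (ZS X1 X2 Y1 Y2 x0 r) (X i)) :
    ZoneG (Zb X1 X2 Y1 Y2) (DR x0 r) X (ZS X1 X2 Y1 Y2 x0 r) where
  mem := mem_ZS_iff
  zf := slR_ZS.zf
  zv := slR_ZS.zv
  out := hX

/-- vertical sides with a tile outside of the zone -/
lemma outer_eW (h : lt (x - 1, y) ∉ ZS X1 X2 Y1 Y2 x0 r ∨ lt (x, y) ∉ ZS X1 X2 Y1 Y2 x0 r) :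
    Outer (ZS X1 X2 Y1 Y2 x0 r) (eW (lt (x, y))) := by
  unfold Outer
  rcases lab_eW_lt x y with ⟨h1, h2⟩ | ⟨h1, h2⟩ <;> rw [h1, h2] <;> tauto

/-- the ends at the sides of the box and the end of the string -/
lemma outer_be (C : CD) (n : ℤ) (c0 : Bool) (a : NE) :
    Outer (ZS X1 X2 Y1 Y2 x0 r) (C.be n c0 x0 r X1 X2 a) := by
  have key : ∀ (z : ℤ) (t : Bool), z = X1 ∨ z = X2 → ∀ y,
      Outer (ZS X1 X2 Y1 Y2 x0 r) (lah z y t) := by
    intro z t hz y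
    unfold lah
    split_ifs
    · refine outer_eW ?_
      rw [mem_ZS, mem_ZS]
      rcases hz with rfl | rfl
      · left; omega
      · right; omega
    · refine outer_eW ?_
      rw [mem_ZS, mem_ZS]
      rcases hz with rfl | rfl
      · left; omega
      · right; omega
  cases a
  · refine outer_eW (Or.inr ?_)
    rw [mem_ZS]
    omega
  · exact key _ _ (Or.inl rfl) _
  · exact key _ _ (Or.inr rfl) _
  · exact key _ _ (Or.inr rfl) _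

/-- **The functional of the box**, the ends are all the names which exist -/
noncomputable def Phi {β : Type*} (C : CD) (n : ℤ) (c0 : Bool) (x0 r X1 X2 Y1 Y2 : ℤ) (Ψ : (NE → NE → Prop) → β)
    (w : Finset (ℤ × ℤ)) : β :=
  PhiG (Zb X1 X2 Y1 Y2) (DR x0 r) (C.be n c0 x0 r X1 X2) Ψ w

theorem zone_Phi (C : CD) (n : ℤ) (c0 : Bool) :
    ZoneG (Zb X1 X2 Y1 Y2) (DR x0 r) (C.be n c0 x0 r X1 X2) (ZS X1 X2 Y1 Y2 x0 r) :=
  zoneG_box fun a => outer_be C n c0 a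

end box

end Pool.Agent.H62.W
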