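import Pool.Agent.H62.W.TotB
import Pool.Agent.H42.W.Loc
import Pool.Agent.H15.W.C.Fine

set_option autoImplicit false
open Finset

/-! # The totals of chapter C as means over the natural window

`TotV_VF` : the total of the functional `VF F` is the mean of `F` over the labels and the ties. `totN` : weight `1/4`
on the ties of `T`, all the other ties tied: the mean over the natural window with the layer tiles at the tie
points of `T` fair, all the other tiles have their natural colours. -/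

namespace Pool.Agent.H62.W

open Pool.Agent.H75.Perc Pool.Agent.H75.TwoArm Pool.Agent.Q1 Pool.Agent.H33.Q1
open Pool.Agent.H69.Q1 Pool.Agent.H13.Q1 Pool.Agent.H39.Q1
open Pool.Agent.H54.W (Win Out)
open Pool.Agent.H42.Sp (Sd Ix kt rt kt_odd rt_even kt_Tg rt_Tg cap_of)
open Pool.Agent.H13.R45 (ev gp ev_true ev_false Tg)
open Pool.Agent.H74.R45 (exists_lt)
open Pool.Agent.H72.W.N
open Pool.Agent.H49.W (Leaf)
open Pool.Agent.H42.W (VF)
open Pool.Agent.H15.W (TotV Tot0V)
open Pool.Agent.H20.Q1 (Eh)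
open Pool.Agent.Q1.M6e (Ec_opn Ec_det)

section gen

variable {ι : Type*} [DecidableEq ι] {Bb B TT : Finset (ℤ × ℤ)} {fm : ℤ × ℤ → ι} {co : ι → Bool}
  {s q : ℤ × ℤ → ℂ} {F : Finset (ℤ × ℤ) → ℂ}

/-- **The total is a mean over the labels and the ties.** -/
theorem TotV_VF (hB : B ⊆ Bb) (hd : Disjoint Bb TT) (h1 : ∀ e ∈ Bb, q e = 1 / 2)
    (h2 : ∀ e ∈ TT, q e = if co (fm e) = true then 1 - s e else s e) :
    TotV (VF F Bb B TT fm co) B TT s = Ec q (Bb ∪ TT) F := by
  rw [Ec_union q hd, Ec_congr_q (q := q) (q' := fun _ => (1 / 2 : ℂ)) h1, Ec_split _ hB]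
  unfold TotV
  refine Ec_congr fun ω _ => ?_
  unfold VF
  have e1 : Ec (fun e => 1 - s e) TT (fun P => Ec (fun _ => (1 / 2 : ℂ)) (Bb \ B) (fun ω' =>
      F (ω ∪ ω' ∪ opn TT fm co P))) = Ec (fun _ => (1 / 2 : ℂ)) (Bb \ B) (fun ω' =>
      Ec (fun e => 1 - s e) TT (fun P => F (ω ∪ ω' ∪ opn TT fm co P))) := Ec_swap _ _ _ _ _
  refine e1.trans (Ec_congr fun ω' _ => ?_)
  exact Ec_opn h2 (fun A => F (ω ∪ ω' ∪ A))

/-- everything tied -/
theorem Tot0V_VF : Tot0V (VF F Bb B TT fm co) B TT = TotV (VF F Bb B TT fm co) B TT (fun _ => 0) := by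
  unfold Tot0V TotV
  refine Ec_congr fun ω _ => ?_
  have e1 : Ec (fun _ => (1 - 0 : ℂ)) TT (VF F Bb B TT fm co ω) = VF F Bb B TT fm co ω TT :=
    Ec_det (Finset.Subset.refl _) (fun _ _ => by ring) (fun e he hn => absurd he hn) _
  exact e1.symm

end gen

section nat

variable {ι : Type*} [DecidableEq ι] {D : Win} {p : Bool} {O : OutB D} {T : Finset Ix}
  {S B TT : Finset (ℤ × ℤ)} {fm : ℤ × ℤ → ι} {co : ι → Bool} {s : ℤ × ℤ → ℂ}
  {Φ : Finset (ℤ × ℤ) → ℂ}

open Classical in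
/-- the other ties in the tied state: the open ones -/
noncomputable def OT (D : Win) (p : Bool) (TT : Finset (ℤ × ℤ)) : Finset (ℤ × ℤ) :=
  (TA D p \ TT).filter fun e => natc D p (tt e).1 (tt e).2 = true

/-- the functional with the other ties tied -/
noncomputable def FTT (Φ : Finset (ℤ × ℤ) → ℂ) {D : Win} (O : OutB D) (p : Bool)
    (S TT : Finset (ℤ × ℤ)) : Finset (ℤ × ℤ) → ℂ := fun w => Φ (w ∪ OT D p TT ∪ WA O p S)

/-- a tie is the kept tile of a tie point -/
lemma mem_TA_CA {e : ℤ × ℤ} : e ∈ TA D p ↔ ∃ k, CA D p k ∧ lt (kt k) = e := by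
  constructor
  · intro he
    obtain ⟨u, v, s, c, rfl, h⟩ := exists_tie he
    exact ⟨(s, gt s c (u, v)), h.2.1, by rw [kt_gt h.odd]⟩
  · rintro ⟨k, h, rfl⟩
    obtain ⟨s, c, h'⟩ := KA_iff.1 ⟨k, h, rfl⟩
    exact mem_TA.2 ⟨s, c, h'⟩

/-- colour of a tie -/
lemma CA.natc_kt {k : Ix} (h : CA D p k) : natc D p (kt k).1 (kt k).2 = !ev k.2 := by
  have h1 := CA.col_kt h
  cases he : ev k.2
  · rw [ev_false] at he
    rw [Bool.not_false]
    exact h1.1 he
  · rw [ev_true] at he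
    rw [Bool.not_true]
    by_contra h2
    rw [Bool.not_eq_false] at h2
    have h3 : (k.2.1 + k.2.2) % 2 = 1 := h1.2 h2
    rw [he] at h3
    exact absurd h3 (by norm_num)

/-- **The natural totals.** -/
theorem totN (hT : ∀ k ∈ T, CA D p k) (hTT : ∀ k ∈ T, lt (kt k) ∈ TT) (hTA : TT ⊆ TA D p)
    (hS : S ⊆ FR D p) (hB : B ⊆ EN D p)
    (hco : ∀ k, CA D p k → lt (kt k) ∈ TT → co (fm (lt (kt k))) = !ev k.2)
    (hF : ∀ k, CA D p k → Leaf Φ (ev k.2) (gp k.2))
    (s1 : ∀ k ∈ T, s (lt (kt k)) = 1 / 4)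
    (s0 : ∀ k, CA D p k → k ∉ T → lt (kt k) ∈ TT → s (lt (kt k)) = 0) :
    TotV (VF (FTT Φ O p S TT) (EN D p) B TT fm co) B TT s =
      Ec (fun _ => (1 / 2 : ℂ)) (ET D p T) (fun ω => Φ (ω ∪ WT O p T S)) := by
  classical
  have hNA : Disjoint (EN D p) (TA D p) := by
    rw [disjoint_left]
    intro e h1 h2
    obtain ⟨k, hk, rfl⟩ := mem_TA_CA.1 h2
    exact (CA.kt_ly hk).out (mem_EN.1 h1)
  -- the weights
  set q : ℤ × ℤ → ℂ := fun e => if e ∈ TT then (if co (fm e) = true then 1 - s e else s e)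
    else if e ∈ TA D p then (if natc D p (tt e).1 (tt e).2 = true then 1 else 0) else 1 / 2 with hq
  have q1 : ∀ e ∈ EN D p, q e = 1 / 2 := by
    intro e he
    have h1 : e ∉ TA D p := fun h => disjoint_left.1 hNA he h
    have h2 : e ∉ TT := fun h => h1 (hTA h)
    rw [hq]
    simp only
    rw [if_neg h2, if_neg h1]
  have hd : Disjoint (EN D p) TT := disjoint_of_subset_right hTA hNA
  rw [TotV_VF (q := q) hB hd q1 (fun e he => by rw [hq]; simp only; rw [if_pos he])]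
  have key := totA (O := O) (F := Φ) (q := fun _ => (1 / 2 : ℂ)) (q' := q) hT hS hF q1
    (fun k hk => ?_) (fun k hk hkT => ?_)
  · rw [← key]
    have e1 : EA D p = (EN D p ∪ TT) ∪ (TA D p \ TT) := by
      unfold EA
      rw [union_assoc, union_sdiff_of_subset hTA]
    have hd2 : Disjoint (EN D p ∪ TT) (TA D p \ TT) := by
      rw [disjoint_union_left]
      exact ⟨disjoint_of_subset_right sdiff_subset hNA, disjoint_sdiff⟩
    rw [e1, Ec_union q hd2]
    refine Ec_congr fun ω _ => ?_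
    rw [Ec_det (O := OT D p TT) (filter_subset _ _)]
    · rfl
    · intro e he
      obtain ⟨h1, h2⟩ := mem_filter.1 he
      obtain ⟨h3, h4⟩ := mem_sdiff.1 h1
      rw [hq]
      simp only
      rw [if_neg h4, if_pos h3, if_pos h2]
    · intro e he hn
      obtain ⟨h3, h4⟩ := mem_sdiff.1 he
      have h5 : ¬ natc D p (tt e).1 (tt e).2 = true := fun h => hn (mem_filter.2 ⟨he, h⟩)
      rw [hq]
      simp only
      rw [if_neg h4, if_pos h3, if_neg h5]
  · have hc := hco k (hT k hk) (hTT k hk)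
    rw [hq]
    simp only
    rw [if_pos (hTT k hk), hc, s1 k hk]
    cases ev k.2
    · simp [mg]; norm_num
    · simp [mg]; norm_num
  · rw [hq]
    simp only
    by_cases hin : lt (kt k) ∈ TT
    · rw [if_pos hin, hco k hk hin, s0 k hk hkT hin]
      cases ev k.2 <;> simp
    · rw [if_neg hin, if_pos (mem_TA_CA.2 ⟨k, hk, rfl⟩), tt_lt, CA.natc_kt hk]
      cases ev k.2 <;> simp

end nat

end Pool.Agent.H62.W
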