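import Mathlib
import Pool.Agent.H92.W.PatSG
import Pool.Agent.H13.W.Move
import Pool.Agent.H45.W.Sym

set_option autoImplicit false
open Finset

/-! # A deleted row can be removed: the strand graph

`K` : tiles of the plane, the tiles of `K` in the row `r` are deleted (`D`). `A` : the removed picture, the tiles
above the row `r` are moved one row down with flipped state. `RemW.reach` : the strand graphs of `K` and of
`A` have the same links. `reach_removed` : two worlds which agree off `K` and have the same link pattern in the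
removed picture have the same reachability relation between the sides which are not inside `K`. -/

namespace Pool.Agent.H62.W

open Pool.Agent.H75.Perc Pool.Agent.H75.TwoArm Pool.Agent.H13.W
open Pool.Agent.H92.W (Outer Same reach_of_same reach_iff_of_same)
open Pool.Agent.H45.W (dn_up up_dn)

/-- height of a side or of a tile -/
def ht (c : ℤ × ℤ) : ℤ := c.2 - c.1

lemma ht_up (c : ℤ × ℤ) : ht (up c) = ht c + 2 := by unfold ht up; simp only; ring
lemma ht_dn (c : ℤ × ℤ) : ht (dn c) = ht c - 2 := by unfold ht dn; simp only; ring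
lemma ht_eS (e : ℤ × ℤ) : ht (eS e) = ht e - 1 := by unfold ht eS; simp only; ring
lemma ht_eN (e : ℤ × ℤ) : ht (eN e) = ht e + 1 := by unfold ht eN; simp only; ring
lemma ht_eW (e : ℤ × ℤ) : ht (eW e) = ht e := by unfold ht eW; simp only
lemma ht_eE (e : ℤ × ℤ) : ht (eE e) = ht e := by unfold ht eE; simp only; ring

lemma ht_sd {e c : ℤ × ℤ} (h : Sd e c) : ht e - 1 ≤ ht c ∧ ht c ≤ ht e + 1 := by
  rcases h with rfl | rfl | rfl | rfl
  · rw [ht_eW]; omega
  · rw [ht_eE]; omega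
  · rw [ht_eS]; omega
  · rw [ht_eN]; omega

lemma sd_eN {e c : ℤ × ℤ} (h : Sd e c) (h1 : ht c = ht e + 1) : c = eN e := by
  rcases h with rfl | rfl | rfl | rfl
  · rw [ht_eW] at h1; omega
  · rw [ht_eE] at h1; omega
  · rw [ht_eS] at h1; omega
  · rfl

lemma sd_eS {e c : ℤ × ℤ} (h : Sd e c) (h1 : ht c = ht e - 1) : c = eS e := by
  rcases h with rfl | rfl | rfl | rfl
  · rw [ht_eW] at h1; omega
  · rw [ht_eE] at h1; omega
  · rfl
  · rw [ht_eN] at h1; omega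

lemma eS_up (e : ℤ × ℤ) : eS (up e) = eN e := by unfold eS up eN; simp
lemma up_eS' (e : ℤ × ℤ) : up (eS e) = eN e := up_eS e
lemma up_eN (e : ℤ × ℤ) : up (eN e) = eN (up e) := by unfold eN up; simp
lemma dn_eN' (e : ℤ × ℤ) : dn (eN e) = eS e := Pool.Agent.H45.W.dn_eN e

lemma odd_lab' (c : ℤ × ℤ) : ((lab c).1 + (lab c).2) % 2 = 1 := Pool.Agent.H69.Q1.odd_lab c

lemma odd_plab' (c : ℤ × ℤ) : ((plab c).1 + (plab c).2) % 2 = 1 := by
  have := odd_lab' (nxO c)
  have h2 : plab (nxO c) = lab c := Pool.Agent.H92.W.plab_nxO c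
  obtain ⟨a, b⟩ := c
  unfold plab
  rcases Int.emod_two_eq_zero_or_one a with h | h <;> rcases Int.emod_two_eq_zero_or_one b with h' | h' <;>
    simp [h, h'] <;> omega

lemma ht_lab (c : ℤ × ℤ) : ht c - 1 ≤ ht (lab c) ∧ ht (lab c) ≤ ht c + 1 := by
  have := ht_sd (side_cases c (Or.inl rfl) : Sd (lab c) c)
  omega

lemma ht_plab (c : ℤ × ℤ) : ht c - 1 ≤ ht (plab c) ∧ ht (plab c) ≤ ht c + 1 := by
  have := ht_sd (side_cases c (Or.inr rfl) : Sd (plab c) c)
  omega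

lemma ht_odd {e : ℤ × ℤ} (h : (e.1 + e.2) % 2 = 1) : ht e % 2 = 1 := by unfold ht; omega

lemma dn_lab (c : ℤ × ℤ) : lab (dn c) = dn (plab c) := by
  have h := up_plab (dn c)
  rw [up_dn] at h
  rw [h, dn_up]

lemma dn_plab (c : ℤ × ℤ) : plab (dn c) = dn (lab c) := by
  have h := up_lab (dn c)
  rw [up_dn] at h
  rw [h, dn_up]

/-- `c'` is a side of the plane over the side `c` of the removed picture -/
def Lft (r : ℤ) (c c' : ℤ × ℤ) : Prop := (c' = c ∧ ht c ≤ 2 * r) ∨ (c' = up c ∧ 2 * r ≤ ht c)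

lemma Lft.unique {r : ℤ} {c d c' : ℤ × ℤ} (h : Lft r c c') (h' : Lft r d c') : c = d := by
  rcases h with ⟨rfl, h1⟩ | ⟨rfl, h1⟩ <;> rcases h' with ⟨h2, h3⟩ | ⟨h2, h3⟩
  · exact h2
  · rw [h2, ht_up] at h1; omega
  · rw [← h2, ht_up] at h3; omega
  · exact up_inj h2

/-- **The tiles `K` with the deleted row `r` and the removed picture `A`.** -/
structure RemW (r : ℤ) (K D : Set (ℤ × ℤ)) (w : Finset (ℤ × ℤ)) (A : Set (ℤ × ℤ)) (u : Finset (ℤ × ℤ)) :
    Prop where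
  odd : ∀ e ∈ K, (e.1 + e.2) % 2 = 1
  oddA : ∀ e ∈ A, (e.1 + e.2) % 2 = 1
  lo : ∀ e ∈ K, ht e < 2 * r + 1 → e ∈ A ∧ e ∉ D ∧ (e ∈ w ↔ e ∈ u)
  mid : ∀ e ∈ K, ht e = 2 * r + 1 → e ∈ D
  hi : ∀ e ∈ K, 2 * r + 1 < ht e → dn e ∈ A ∧ e ∉ D ∧ (e ∈ w ↔ dn e ∉ u)
  lo' : ∀ e ∈ A, ht e < 2 * r + 1 → e ∈ K
  hi' : ∀ e ∈ A, 2 * r + 1 ≤ ht e → up e ∈ K
  mS : ∀ e ∈ A, ht e = 2 * r + 1 → e ∈ K
  mN : ∀ e ∈ A, ht e = 2 * r - 1 → up e ∈ K

variable {r : ℤ} {Λ K D A : Set (ℤ × ℤ)} {w w' u u' : Finset (ℤ × ℤ)}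

namespace RemW

/-- the two lifts of a side in the middle are joined -/
lemma join (h : RemW r K D w A u) {e : ℤ × ℤ} (he : e ∈ K) (h1 : ht e = 2 * r + 1) :
    (SG K D w).Adj (eS e) (up (eS e)) :=
  ⟨e, he, Or.inl ⟨h.mid e he h1, h.odd e he, Or.inl ⟨rfl, up_eS e⟩⟩⟩

lemma sim1 (h : RemW r K D w A u) {c d c' : ℤ × ℤ} (ha : (SG A ∅ u).Adj c d) (hL : Lft r c c') :
    ∃ d', Lft r d d' ∧ (SG K D w).Reachable c' d' := by
  obtain ⟨e, he, hT⟩ := ha
  have hc := hT.sd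
  have hd := hT.sd'
  have bc := ht_sd hc
  have bd := ht_sd hd
  have ho := ht_odd (h.oddA e he)
  by_cases hr : ht e < 2 * r + 1
  · have heK := h.lo' e he hr
    obtain ⟨-, k2, k3⟩ := h.lo e heK hr
    have hadj : (SG K D w).Adj c d := ⟨e, heK, (TJ_congr (D := D) (D' := ∅) (w := w) (w' := u)
      ⟨fun h => absurd h k2, fun h => absurd h (Set.notMem_empty _)⟩ fun _ => k3).2 hT⟩
    refine ⟨d, Or.inl ⟨rfl, by omega⟩, ?_⟩
    rcases hL with ⟨rfl, -⟩ | ⟨rfl, h2⟩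
    · exact hadj.reachable
    · have h3 : ht c = 2 * r := by omega
      have h4 : c = eN e := sd_eN hc (by omega)
      have h5 := h.mN e he (by omega)
      have h6 := h.join h5 (by rw [ht_up]; omega)
      rw [eS_up, ← h4] at h6
      exact h6.symm.reachable.trans hadj.reachable
  · have hr' : 2 * r + 1 ≤ ht e := by omega
    have heK := h.hi' e he hr'
    obtain ⟨-, k2, k3⟩ := h.hi (up e) heK (by rw [ht_up]; omega)
    rw [dn_up] at k3
    have hadj : (SG K D w).Adj (up c) (up d) :=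
      ⟨up e, heK, hT.up (Set.notMem_empty _) k2 k3⟩
    refine ⟨up d, Or.inr ⟨rfl, by omega⟩, ?_⟩
    rcases hL with ⟨rfl, h2⟩ | ⟨rfl, -⟩
    · have h3 : ht c' = 2 * r := by omega
      have h4 : c' = eS e := sd_eS hc (by omega)
      have h5 := h.mS e he (by omega)
      have h6 := h.join h5 (by omega)
      rw [← h4] at h6
      exact h6.reachable.trans hadj.reachable
    · exact hadj.reachable

lemma sim2 (h : RemW r K D w A u) {c' d' c : ℤ × ℤ} (ha : (SG K D w).Adj c' d') (hL : Lft r c c') :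
    ∃ d, Lft r d d' ∧ (SG A ∅ u).Reachable c d := by
  obtain ⟨e, he, hT⟩ := ha
  have hc := hT.sd
  have hd := hT.sd'
  have bc := ht_sd hc
  have bd := ht_sd hd
  have ho := ht_odd (h.odd e he)
  rcases lt_trichotomy (ht e) (2 * r + 1) with hr | hr | hr
  · obtain ⟨k1, k2, k3⟩ := h.lo e he hr
    have hcc : c = c' := by
      rcases hL with ⟨h1, -⟩ | ⟨h1, h2⟩
      · exact h1.symm
      · rw [h1, ht_up] at bc; omega
    subst hcc
    refine ⟨d', Or.inl ⟨rfl, by omega⟩, SimpleGraph.Adj.reachable ⟨e, k1, ?_⟩⟩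
    exact (TJ_congr (D := D) (D' := ∅) (w := w) (w' := u)
      ⟨fun h => absurd h k2, fun h => absurd h (Set.notMem_empty _)⟩ fun _ => k3).1 hT
  · have hD := h.mid e he hr
    rcases hT with ⟨-, -, ⟨rfl, rfl⟩ | ⟨rfl, rfl⟩⟩ | ⟨hn, -⟩
    · rw [ht_eS] at bc
      have hcc : c = eS e := by
        rcases hL with ⟨h1, -⟩ | ⟨h1, h2⟩
        · exact h1.symm
        · have h3 : ht (eS e) = ht c + 2 := by rw [h1, ht_up]
          rw [ht_eS] at h3; omega
      subst hcc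
      exact ⟨eS e, Or.inr ⟨(up_eS e).symm, by rw [ht_eS]; omega⟩, SimpleGraph.Reachable.refl _⟩
    · have hcc : c = eS e := by
        rcases hL with ⟨h1, h2⟩ | ⟨h1, -⟩
        · rw [← h1, ht_eN] at h2; omega
        · apply up_inj
          rw [← h1, up_eS]
      subst hcc
      exact ⟨eS e, Or.inl ⟨rfl, by rw [ht_eS]; omega⟩, SimpleGraph.Reachable.refl _⟩
    · exact absurd hD hn
  · obtain ⟨k1, k2, k3⟩ := h.hi e he hr
    have hcc : c = dn c' := by
      rcases hL with ⟨h1, h2⟩ | ⟨h1, -⟩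
      · rw [← h1] at h2; omega
      · rw [h1, dn_up]
    subst hcc
    refine ⟨dn d', Or.inr ⟨(up_dn d').symm, by rw [ht_dn]; omega⟩, SimpleGraph.Adj.reachable ⟨dn e, k1, ?_⟩⟩
    exact Pool.Agent.H45.W.TJ.dn k2 (Set.notMem_empty _) (by tauto) hT

/-- a side which is joined to another one has a base -/
lemma exists_base (h : RemW r K D w A u) {a b : ℤ × ℤ} (hab : (SG K D w).Reachable a b) (hne : a ≠ b) :
    (∃ c, Lft r c a) ∧ ∃ e ∈ K, Sd e a := by
  obtain ⟨p⟩ := hab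
  cases p with
  | nil => exact absurd rfl hne
  | cons ha _ =>
    obtain ⟨e, he, hT⟩ := ha
    have hc := hT.sd
    have bc := ht_sd hc
    have ho := ht_odd (h.odd e he)
    refine ⟨?_, e, he, hc⟩
    rcases lt_trichotomy (ht e) (2 * r + 1) with hr | hr | hr
    · exact ⟨a, Or.inl ⟨rfl, by omega⟩⟩
    · rcases hT with ⟨-, -, ⟨rfl, rfl⟩ | ⟨rfl, rfl⟩⟩ | ⟨hn, -⟩
      · exact ⟨eS e, Or.inl ⟨rfl, by rw [ht_eS]; omega⟩⟩
      · exact ⟨eS e, Or.inr ⟨(up_eS e).symm, by rw [ht_eS]; omega⟩⟩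
      · exact absurd (h.mid e he hr) hn
    · exact ⟨dn a, Or.inr ⟨(up_dn a).symm, by rw [ht_dn]; omega⟩⟩

/-- sides at the boundary of `K` are over sides at the boundary of `A` -/
lemma outer_base (h : RemW r K D w A u) {a c : ℤ × ℤ} (hL : Lft r c a) (ha : lab a ∉ K ∨ plab a ∉ K)
    (h0 : ht a ≠ 2 * r) (h2 : ht a ≠ 2 * r + 2) : lab c ∉ A ∨ plab c ∉ A := by
  have l1 := ht_lab a
  have l2 := ht_plab a
  have o1 := ht_odd (odd_lab' a)
  have o2 := ht_odd (odd_plab' a)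
  rcases hL with ⟨rfl, h1⟩ | ⟨rfl, h1⟩
  · rcases ha with ha | ha
    · exact Or.inl fun hA => ha (h.lo' _ hA (by omega))
    · exact Or.inr fun hA => ha (h.lo' _ hA (by omega))
  · rw [ht_up] at h0 h2 l1 l2
    rw [up_lab] at ha l1 o1
    rw [up_plab] at ha l2 o2
    rw [ht_up] at l1 l2 o1 o2
    rcases ha with ha | ha
    · exact Or.inr fun hA => ha (h.hi' _ hA (by omega))
    · exact Or.inl fun hA => ha (h.hi' _ hA (by omega))

/-- **The links of `K` only depend on the links of the removed picture.** -/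
theorem reach {Z : Finset (ℤ × ℤ)} (h : RemW r K D w Z u) (h' : RemW r K D w' Z u') (hs : Same Z u u')
    (hb : ∀ e ∈ K, ∀ a, Sd e a → (ht a = 2 * r ∨ ht a = 2 * r + 2) → lab a ∈ K ∧ plab a ∈ K)
    {a b : ℤ × ℤ} (ha : lab a ∉ K ∨ plab a ∉ K) (hb' : lab b ∉ K ∨ plab b ∉ K)
    (hab : (SG K D w).Reachable a b) : (SG K D w').Reachable a b := by
  by_cases hne : a = b
  · rw [hne]
  obtain ⟨⟨c, hc⟩, e, he, hea⟩ := h.exists_base hab hne
  obtain ⟨⟨d, hd⟩, e', he', heb⟩ := h.exists_base hab.symm (Ne.symm hne)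
  have na : ht a ≠ 2 * r ∧ ht a ≠ 2 * r + 2 := by
    constructor
    · intro h1
      have := hb e he a hea (Or.inl h1)
      tauto
    · intro h1
      have := hb e he a hea (Or.inr h1)
      tauto
  have nb : ht b ≠ 2 * r ∧ ht b ≠ 2 * r + 2 := by
    constructor
    · intro h1
      have := hb e' he' b heb (Or.inl h1)
      tauto
    · intro h1
      have := hb e' he' b heb (Or.inr h1)
      tauto
  obtain ⟨d1, h1, h2⟩ := sim (R := fun x' x => Lft r x x') (fun _ _ _ k1 k2 => h.sim2 k1 k2) hab hc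
  have e1 : d1 = d := Lft.unique h1 hd
  subst e1
  have oc := h.outer_base hc ha na.1 na.2
  have od := h.outer_base hd hb' nb.1 nb.2
  have h3 : (SG (Z : Set (ℤ × ℤ)) ∅ u').Reachable c d1 :=
    reach_of_same (Λ := (Z : Set (ℤ × ℤ))) (D := ∅) (Z := Z) (fun e he => ⟨he, Set.notMem_empty _⟩)
      (fun e h1 h2 => absurd h1 h2) hs oc od h2
  obtain ⟨b1, h4, h5⟩ := sim (R := Lft r) (fun _ _ _ k1 k2 => h'.sim1 k1 k2) h3 hc
  have e2 : b1 = b := by
    rcases h4 with ⟨e3, h6⟩ | ⟨e3, h6⟩ <;> rcases hd with ⟨e4, h7⟩ | ⟨e4, h7⟩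
    · rw [e3, e4]
    · exfalso
      have : ht b = ht d1 + 2 := by rw [e4, ht_up]
      omega
    · exfalso
      have : ht b = ht d1 := by rw [e4]
      omega
    · rw [e3, e4]
  rw [← e2]
  exact h5

end RemW

/-! ### Gluing -/

/-- two graphs which have the same links in a part `Gi` and the same edges outside -/
lemma glue_reach {α : Type*} {G1 G2 Go Gi : SimpleGraph α} {B : Set α}
    (h1 : ∀ a b, G1.Adj a b → Go.Adj a b ∨ Gi.Adj a b) (h2 : ∀ a b, Go.Adj a b → G2.Adj a b)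
    (hB : ∀ a b, Go.Adj a b → a ∈ B ∧ b ∈ B)
    (hI : ∀ a ∈ B, ∀ b ∈ B, Gi.Reachable a b → G2.Reachable a b) {x y : α} (hx : x ∈ B) (hy : y ∈ B)
    (h : G1.Reachable x y) : G2.Reachable x y := by
  have key : ∀ (a b : α) (p : G1.Walk a b), (∃ c ∈ B, G2.Reachable x c ∧ Gi.Reachable c a) →
      ∃ c ∈ B, G2.Reachable x c ∧ Gi.Reachable c b := by
    intro a b p
    induction p with
    | nil => exact id
    | @cons a1 a2 a3 ha _ ih =>
      rintro ⟨c, hc, h3, h4⟩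
      apply ih
      rcases h1 _ _ ha with ha | ha
      · obtain ⟨b1, b2⟩ := hB _ _ ha
        refine ⟨a2, b2, ?_, SimpleGraph.Reachable.refl _⟩
        exact (h3.trans (hI c hc a1 b1 h4)).trans (h2 _ _ ha).reachable
      · exact ⟨c, hc, h3, h4.trans ha.reachable⟩
  obtain ⟨p⟩ := h
  obtain ⟨c, hc, h3, h4⟩ := key x y p ⟨x, hx, SimpleGraph.Reachable.refl _, SimpleGraph.Reachable.refl _⟩
  exact h3.trans (hI c hc y hy h4)

/-- **The deleted row can be removed**: same links in the removed picture, same links of the world. -/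
theorem reach_removed {Z : Finset (ℤ × ℤ)} (hK : K ⊆ Λ) (h : RemW r K D w Z u) (h' : RemW r K D w' Z u')
    (hs : Same Z u u')
    (hb : ∀ e ∈ K, ∀ a, Sd e a → (ht a = 2 * r ∨ ht a = 2 * r + 2) → lab a ∈ K ∧ plab a ∈ K)
    (hoff : ∀ e ∈ Λ, e ∉ K → e ∉ D → (e ∈ w ↔ e ∈ w'))
    {x y : ℤ × ℤ} (hx : lab x ∉ K ∨ plab x ∉ K) (hy : lab y ∉ K ∨ plab y ∉ K)
    (hr : (SG Λ D w).Reachable x y) : (SG Λ D w').Reachable x y := by
  refine glue_reach (Go := SG (Λ \ K) D w) (Gi := SG K D w) (B := {a | lab a ∉ K ∨ plab a ∉ K})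
    ?_ ?_ ?_ ?_ hx hy hr
  · rintro a b ⟨e, he, hT⟩
    by_cases hk : e ∈ K
    · exact Or.inr ⟨e, hk, hT⟩
    · exact Or.inl ⟨e, ⟨he, hk⟩, hT⟩
  · rintro a b ⟨e, ⟨he, hk⟩, hT⟩
    exact ⟨e, he, (TJ_congr Iff.rfl fun hD => hoff e he hk hD).1 hT⟩
  · rintro a b ⟨e, ⟨-, hk⟩, hT⟩
    constructor
    · rcases hT.label with h | h
      · exact Or.inl (h ▸ hk)
      · exact Or.inr (h ▸ hk)
    · rcases hT.label' with h | h
      · exact Or.inl (h ▸ hk)
      · exact Or.inr (h ▸ hk)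
  · intro a ha b hb' hab
    have h1 := h.reach h' hs hb ha hb' hab
    refine h1.mono ?_
    rintro a b ⟨e, he, hT⟩
    exact ⟨e, hK he, hT⟩

end Pool.Agent.H62.W
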