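import Mathlib
import Pool.Agent.H62.W.DelPat
import Pool.Agent.H62.W.Phi

set_option autoImplicit false
open Finset

/-! # A deleted row can be removed: functionals

`Z` : labels of the removed picture, `pl r e` : the label of the plane of `e` (one row higher above the row `r`),
`rmF r Z u` : the open labels of the plane for the open labels `u` of the removed picture (flipped above the row `r`).
`RemZ.phi` : a functional of the world only sees the link pattern of `u`; `RemZ.patF`, `RemZ.leaf` : means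
over the other labels, arbitrary weights. `Ec_rm` : change of variables. -/

namespace Pool.Agent.H62.W

open Pool.Agent.H75.Perc Pool.Agent.H75.TwoArm Pool.Agent.H13.W Pool.Agent.H33.Q1 Pool.Agent.Q1
open Pool.Agent.H92.W (Outer Same)
open Pool.Agent.H45.W (dn_up up_dn)
open Pool.Agent.H54.W (Zb mem_Zb CD NE)
open Pool.Agent.H21.W (DR mem_DR)
open Pool.Agent.H49.W (Leaf leaf_pat)
open H80.W (ZF ZV Entry Pat PatF pat_inter)

variable {r : ℤ} {Λ D : Set (ℤ × ℤ)} {Z E W u u' w w' V : Finset (ℤ × ℤ)} {e : ℤ × ℤ}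

/-- the label of the plane -/
def pl (r : ℤ) (e : ℤ × ℤ) : ℤ × ℤ := if ht e < 2 * r + 1 then e else up e

lemma pl_lo (h : ht e < 2 * r + 1) : pl r e = e := if_pos h
lemma pl_hi (h : 2 * r + 1 ≤ ht e) : pl r e = up e := if_neg (by omega)

lemma pl_inj {a b : ℤ × ℤ} (ha : (a.1 + a.2) % 2 = 1) (hb : (b.1 + b.2) % 2 = 1) (h : pl r a = pl r b) :
    a = b := by
  have oa := ht_odd ha
  have ob := ht_odd hb
  unfold pl at h
  split_ifs at h with h1 h2 h2
  · exact h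
  · rw [h, ht_up] at h1; omega
  · rw [← h, ht_up] at h2; omega
  · exact up_inj h

/-- the tile of the plane is open -/
def Sto (r : ℤ) (u : Finset (ℤ × ℤ)) (e : ℤ × ℤ) : Prop :=
  (ht e < 2 * r + 1 ∧ e ∈ u) ∨ (2 * r + 1 ≤ ht e ∧ e ∉ u)

lemma sto_lo (h : ht e < 2 * r + 1) : Sto r u e ↔ e ∈ u := by
  unfold Sto
  exact ⟨fun k => k.elim (fun k => k.2) fun k => absurd k.1 (by omega), fun k => Or.inl ⟨h, k⟩⟩

lemma sto_hi (h : 2 * r + 1 ≤ ht e) : Sto r u e ↔ e ∉ u := by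
  unfold Sto
  exact ⟨fun k => k.elim (fun k => absurd k.1 (by omega)) fun k => k.2, fun k => Or.inr ⟨h, k⟩⟩

open Classical in
/-- **The labels of the plane of a removed configuration.** -/
noncomputable def rmF (r : ℤ) (Z u : Finset (ℤ × ℤ)) : Finset (ℤ × ℤ) := (Z.filter (Sto r u)).image (pl r)

lemma mem_rmF {x : ℤ × ℤ} : x ∈ rmF r Z u ↔ ∃ e ∈ Z, Sto r u e ∧ pl r e = x := by
  classical
  unfold rmF
  rw [mem_image]
  constructor
  · rintro ⟨e, h1, h2⟩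
    rw [mem_filter] at h1
    exact ⟨e, h1.1, h1.2, h2⟩
  · rintro ⟨e, h1, h2, h3⟩
    exact ⟨e, mem_filter.2 ⟨h1, h2⟩, h3⟩

lemma pl_mem_rmF (hZ : ∀ e ∈ Z, (e.1 + e.2) % 2 = 1) (he : e ∈ Z) : pl r e ∈ rmF r Z u ↔ Sto r u e := by
  rw [mem_rmF]
  constructor
  · rintro ⟨a, h1, h2, h3⟩
    rwa [pl_inj (hZ a h1) (hZ e he) h3] at h2
  · exact fun h => ⟨e, he, h, rfl⟩

lemma rmF_sub : rmF r Z u ⊆ Z.image (pl r) := by
  intro x hx
  obtain ⟨e, h1, -, rfl⟩ := mem_rmF.1 hx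
  exact mem_image_of_mem _ h1

lemma sto_congr (h : e ∈ u ↔ e ∈ u') : Sto r u e ↔ Sto r u' e := by unfold Sto; tauto

lemma rmF_congr (h : ∀ e ∈ Z, (e ∈ u ↔ e ∈ u')) : rmF r Z u = rmF r Z u' := by
  ext x
  rw [mem_rmF, mem_rmF]
  constructor
  · rintro ⟨e, h1, h2, h3⟩
    exact ⟨e, h1, (sto_congr (h e h1)).1 h2, h3⟩
  · rintro ⟨e, h1, h2, h3⟩
    exact ⟨e, h1, (sto_congr (h e h1)).2 h2, h3⟩

lemma rmF_inter : rmF r Z (u ∩ Z) = rmF r Z u :=
  rmF_congr fun e he => by rw [mem_inter]; tauto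

/-- the tiles of the plane around the removed zone -/
def KZ (r : ℤ) (Z : Finset (ℤ × ℤ)) : Set (ℤ × ℤ) :=
  {e | (e.1 + e.2) % 2 = 1 ∧ ((ht e < 2 * r + 1 ∧ e ∈ Z) ∨ (2 * r + 1 < ht e ∧ dn e ∈ Z) ∨
    (ht e = 2 * r + 1 ∧ (e ∈ Z ∨ dn e ∈ Z)))}

/-- **The removed zone of a world with a deleted row.** -/
structure RemZ (r : ℤ) (Λ D : Set (ℤ × ℤ)) (Z : Finset (ℤ × ℤ)) : Prop where
  odd : ∀ e ∈ Z, (e.1 + e.2) % 2 = 1
  cv : ∀ e, ht e = 2 * r + 1 → (e ∈ Z ↔ dn e ∈ Z)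
  sub : ∀ e ∈ KZ r Z, e ∈ Λ
  del : ∀ e ∈ KZ r Z, (e ∈ D ↔ ht e = 2 * r + 1)

lemma odd_up {e : ℤ × ℤ} (h : (e.1 + e.2) % 2 = 1) : ((up e).1 + (up e).2) % 2 = 1 := by
  unfold up; simp only; omega

lemma odd_dn {e : ℤ × ℤ} (h : (e.1 + e.2) % 2 = 1) : ((dn e).1 + (dn e).2) % 2 = 1 := by
  unfold dn; simp only; omega

lemma pl_mem_KZ (hZ : ∀ e ∈ Z, (e.1 + e.2) % 2 = 1) (he : e ∈ Z) : pl r e ∈ KZ r Z := by
  have ho := ht_odd (hZ e he)
  by_cases h : ht e < 2 * r + 1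
  · rw [pl_lo h]
    exact ⟨hZ e he, Or.inl ⟨h, he⟩⟩
  · rw [pl_hi (by omega)]
    refine ⟨odd_up (hZ e he), Or.inr (Or.inl ⟨by rw [ht_up]; omega, ?_⟩)⟩
    rw [dn_up]
    exact he

namespace RemZ

/-- the two pictures -/
lemma remW (h : RemZ r Λ D Z) (hw : ∀ e ∈ Z, (pl r e ∈ w ↔ Sto r u e)) : RemW r (KZ r Z) D w Z u where
  odd := fun e he => he.1
  oddA := h.odd
  lo := by
    intro e he h1
    have hZ : e ∈ Z := by
      rcases he.2 with k | k | k
      · exact k.2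
      · omega
      · omega
    refine ⟨hZ, fun hD => ?_, ?_⟩
    · have := (h.del e he).1 hD
      omega
    · have := hw e hZ
      rwa [pl_lo h1, sto_lo h1] at this
  mid := fun e he h1 => (h.del e he).2 h1
  hi := by
    intro e he h1
    have ho := ht_odd he.1
    have hZ : dn e ∈ Z := by
      rcases he.2 with k | k | k
      · omega
      · exact k.2
      · omega
    refine ⟨hZ, fun hD => ?_, ?_⟩
    · have := (h.del e he).1 hD
      omega
    · have h2 : 2 * r + 1 ≤ ht (dn e) := by rw [ht_dn]; omega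
      have := hw (dn e) hZ
      rwa [pl_hi h2, sto_hi h2, up_dn] at this
  lo' := fun e he h1 => ⟨h.odd e he, Or.inl ⟨h1, he⟩⟩
  hi' := by
    intro e he h1
    have := pl_mem_KZ (r := r) h.odd he
    rwa [pl_hi h1] at this
  mS := fun e he h1 => ⟨h.odd e he, Or.inr (Or.inr ⟨h1, Or.inl he⟩)⟩
  mN := fun e he h1 => ⟨odd_up (h.odd e he), Or.inr (Or.inr ⟨by rw [ht_up]; omega, Or.inr (by
    rw [dn_up]; exact he)⟩)⟩

lemma mid_iff (h : RemZ r Λ D Z) {e : ℤ × ℤ} (h1 : ht e = 2 * r + 1) : e ∈ KZ r Z ↔ e ∈ Z := by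
  constructor
  · rintro ⟨-, k | k | k⟩
    · omega
    · omega
    · rcases k.2 with k | k
      · exact k
      · exact (h.cv e h1).2 k
  · exact fun k => ⟨h.odd e k, Or.inr (Or.inr ⟨h1, Or.inl k⟩)⟩

/-- no boundary along the deleted row -/
lemma hb (h : RemZ r Λ D Z) : ∀ e ∈ KZ r Z, ∀ a, Sd e a → (ht a = 2 * r ∨ ht a = 2 * r + 2) →
    lab a ∈ KZ r Z ∧ plab a ∈ KZ r Z := by
  intro e he a hs h1
  have ho := ht_odd he.1
  have hb := ht_sd hs
  -- the two tiles at a horizontal side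
  have two : ∀ x : ℤ × ℤ, (x.1 + x.2) % 2 = 1 → a = eN x → x ∈ KZ r Z → up x ∈ KZ r Z →
      lab a ∈ KZ r Z ∧ plab a ∈ KZ r Z := by
    intro x hx ha hx1 hx2
    have k1 : x = lab a ∨ x = plab a := of_side hx a (Or.inr (Or.inr (Or.inr ha)))
    have k2 : up x = lab a ∨ up x = plab a := of_side (odd_up hx) a (Or.inr (Or.inr (Or.inl (by
      rw [ha, eS_up]))))
    have hne : x ≠ up x := by
      intro h
      have := congrArg ht h
      rw [ht_up] at this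
      omega
    rcases k1 with k1 | k1 <;> rcases k2 with k2 | k2
    · exact absurd (k1.trans k2.symm) hne
    · exact ⟨k1 ▸ hx1, k2 ▸ hx2⟩
    · exact ⟨k2 ▸ hx2, k1 ▸ hx1⟩
    · exact absurd (k1.trans k2.symm) hne
  rcases h1 with h1 | h1
  · -- lower side of the deleted row
    have h2 : ht e = 2 * r - 1 ∨ ht e = 2 * r + 1 := by omega
    rcases h2 with h2 | h2
    · have hZ : e ∈ Z := by
        rcases he.2 with k | k | k
        · exact k.2
        · omega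
        · omega
      refine two e he.1 (sd_eN hs (by omega)) he ?_
      rw [h.mid_iff (by rw [ht_up]; omega), h.cv _ (by rw [ht_up]; omega), dn_up]
      exact hZ
    · have hZ : dn e ∈ Z := (h.cv e h2).1 ((h.mid_iff h2).1 he)
      refine two (dn e) (odd_dn he.1) ?_ ?_ ?_
      · rw [sd_eS hs (by omega), eN_dn]
      · exact ⟨odd_dn he.1, Or.inl ⟨by rw [ht_dn]; omega, hZ⟩⟩
      · rw [up_dn]; exact he
  · have h2 : ht e = 2 * r + 1 ∨ ht e = 2 * r + 3 := by omega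
    rcases h2 with h2 | h2
    · refine two e he.1 (sd_eN hs (by omega)) he ?_
      refine ⟨odd_up he.1, Or.inr (Or.inl ⟨by rw [ht_up]; omega, ?_⟩)⟩
      rw [dn_up]
      exact (h.mid_iff h2).1 he
    · have hZ : dn e ∈ Z := by
        rcases he.2 with k | k | k
        · omega
        · exact k.2
        · omega
      refine two (dn e) (odd_dn he.1) ?_ ?_ ?_
      · rw [sd_eS hs (by omega), eN_dn]
      · exact (h.mid_iff (by rw [ht_dn]; omega)).2 hZ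
      · rw [up_dn]; exact he

/-- **Same links in the removed picture, same links of the world.** -/
theorem reach (h : RemZ r Λ D Z) (hs : Same Z u u') (hw : ∀ e ∈ Z, (pl r e ∈ w ↔ Sto r u e))
    (hw' : ∀ e ∈ Z, (pl r e ∈ w' ↔ Sto r u' e)) (hoff : ∀ e, e ∉ Z.image (pl r) → (e ∈ w ↔ e ∈ w'))
    {x y : ℤ × ℤ} (hx : lab x ∉ KZ r Z ∨ plab x ∉ KZ r Z) (hy : lab y ∉ KZ r Z ∨ plab y ∉ KZ r Z) :
    (SG Λ D w).Reachable x y ↔ (SG Λ D w').Reachable x y := by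
  have key : ∀ e ∈ Λ, e ∉ KZ r Z → e ∉ D → (e ∈ w ↔ e ∈ w') := fun e _ h1 _ => hoff e fun h2 => by
    obtain ⟨a, h3, rfl⟩ := mem_image.1 h2
    exact h1 (pl_mem_KZ h.odd h3)
  exact ⟨reach_removed h.sub (h.remW hw) (h.remW hw') hs h.hb key hx hy,
    reach_removed h.sub (h.remW hw') (h.remW hw) hs.symm h.hb (fun e h1 h2 h3 => (key e h1 h2 h3).symm) hx hy⟩

variable {ι β : Type*} {X : ι → ℤ × ℤ}

/-- the ends are not inside the removed zone -/
def Out (r : ℤ) (Z : Finset (ℤ × ℤ)) (X : ι → ℤ × ℤ) : Prop := ∀ i, lab (X i) ∉ KZ r Z ∨ plab (X i) ∉ KZ r Z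

/-- **The functional only sees the links of the removed picture.** -/
theorem phi (h : RemZ r Λ D Z) (hX : Out r Z X) (Ψ : (ι → ι → Prop) → β) (hs : Same Z u u')
    (hV : Disjoint V (Z.image (pl r))) :
    PhiG Λ D X Ψ (V ∪ rmF r Z u) = PhiG Λ D X Ψ (V ∪ rmF r Z u') := by
  have hw : ∀ u, ∀ e ∈ Z, (pl r e ∈ V ∪ rmF r Z u ↔ Sto r u e) := by
    intro u e he
    rw [mem_union, pl_mem_rmF h.odd he]
    have : pl r e ∉ V := fun h1 => disjoint_left.1 hV h1 (mem_image_of_mem _ he)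
    exact ⟨fun h => h.resolve_left this, Or.inr⟩
  have hoff : ∀ e, e ∉ Z.image (pl r) → (e ∈ V ∪ rmF r Z u ↔ e ∈ V ∪ rmF r Z u') := by
    intro e he
    rw [mem_union, mem_union]
    have h1 : ∀ u, e ∉ rmF r Z u := fun u h1 => he (rmF_sub h1)
    have := h1 u
    have := h1 u'
    tauto
  unfold PhiG
  congr 1
  funext i j
  exact propext (h.reach hs (hw u) (hw u') hoff (hX i) (hX j))

/-- **The functional of the removed picture**: mean over the labels `E`, fixed open labels `V`. -/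
noncomputable def FR (r : ℤ) (Z : Finset (ℤ × ℤ)) (q : ℤ × ℤ → ℂ) (E V : Finset (ℤ × ℤ)) (Φ : Finset (ℤ × ℤ) → ℂ)
    (u : Finset (ℤ × ℤ)) : ℂ := Ec q E fun ω => Φ (ω ∪ V ∪ rmF r Z u)

theorem FR_same (h : RemZ r Λ D Z) (hX : Out r Z X) (Ψ : (ι → ι → Prop) → ℂ) {q : ℤ × ℤ → ℂ}
    (hE : Disjoint E (Z.image (pl r))) (hV : Disjoint V (Z.image (pl r))) (hs : Same Z u u') :
    FR r Z q E V (PhiG Λ D X Ψ) u = FR r Z q E V (PhiG Λ D X Ψ) u' := by
  unfold FR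
  refine Ec_congr fun ω hω => h.phi hX Ψ hs ?_
  rw [disjoint_union_left]
  exact ⟨disjoint_of_subset_left hω hE, hV⟩

/-- **The pattern theorem in 80's form.** -/
theorem patF (h : RemZ r Λ D Z) (hX : Out r Z X) (hf : ZF Z) (hv : ZV Z) (Ψ : (ι → ι → Prop) → ℂ)
    {q : ℤ × ℤ → ℂ} (hE : Disjoint E (Z.image (pl r))) (hV : Disjoint V (Z.image (pl r))) :
    PatF Z {c | Entry Z c} (FR r Z q E V (PhiG Λ D X Ψ)) where
  zf := hf
  zv := hv
  entry := fun _ hc => hc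
  pat := fun _ _ _ _ hp => h.FR_same hX Ψ hE hV fun c hc d => hp c hc d

/-- **Dangling labels are not seen.** -/
theorem leaf (h : RemZ r Λ D Z) (hX : Out r Z X) (Ψ : (ι → ι → Prop) → ℂ) {q : ℤ × ℤ → ℂ}
    (hE : Disjoint E (Z.image (pl r))) (hV : Disjoint V (Z.image (pl r))) {o : Bool} {v : ℤ × ℤ}
    (h1 : o = true → ∀ y, IsUnit4 (y - v) → v + y ∈ Z)
    (h2 : o = false → ∀ y, IsUnit4 (y - v) → v + y - (1, 1) ∈ Z) :
    Leaf (FR r Z q E V (PhiG Λ D X Ψ)) o v :=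
  leaf_pat (Z := Z) (Lg := {c | Entry Z c}) (fun _ hc => hc)
    (fun _ _ hp => h.FR_same hX Ψ hE hV fun c hc d => hp c hc d) h1 h2

end RemZ

/-! ### Change of variables -/

lemma rmF_insert_lo (he : e ∉ Z) (h : ht e < 2 * r + 1) (hu : e ∉ u) : rmF r (insert e Z) u = rmF r Z u := by
  ext x
  rw [mem_rmF, mem_rmF]
  constructor
  · rintro ⟨a, h1, h2, h3⟩
    rcases mem_insert.1 h1 with rfl | h1
    · exact absurd ((sto_lo h).1 h2) hu
    · exact ⟨a, h1, h2, h3⟩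
  · rintro ⟨a, h1, h2, h3⟩
    exact ⟨a, mem_insert_of_mem h1, h2, h3⟩

lemma rmF_insert_lo' (he : e ∉ Z) (h : ht e < 2 * r + 1) :
    rmF r (insert e Z) (insert e u) = insert e (rmF r Z u) := by
  ext x
  rw [mem_rmF, mem_insert, mem_rmF]
  have hc : ∀ a ∈ Z, (Sto r (insert e u) a ↔ Sto r u a) := fun a ha => sto_congr (by
    rw [mem_insert]
    exact ⟨fun h => h.resolve_left fun h => he (h ▸ ha), Or.inr⟩)
  constructor
  · rintro ⟨a, h1, h2, h3⟩
    rcases mem_insert.1 h1 with rfl | h1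
    · left; rw [← h3, pl_lo h]
    · exact Or.inr ⟨a, h1, (hc a h1).1 h2, h3⟩
  · rintro (rfl | ⟨a, h1, h2, h3⟩)
    · exact ⟨x, mem_insert_self _ _, (sto_lo h).2 (mem_insert_self _ _), pl_lo h⟩
    · exact ⟨a, mem_insert_of_mem h1, (hc a h1).2 h2, h3⟩

lemma rmF_insert_hi (he : e ∉ Z) (h : 2 * r + 1 ≤ ht e) (hu : e ∉ u) :
    rmF r (insert e Z) u = insert (up e) (rmF r Z u) := by
  ext x
  rw [mem_rmF, mem_insert, mem_rmF]
  constructor
  · rintro ⟨a, h1, h2, h3⟩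
    rcases mem_insert.1 h1 with rfl | h1
    · left; rw [← h3, pl_hi h]
    · exact Or.inr ⟨a, h1, h2, h3⟩
  · rintro (rfl | ⟨a, h1, h2, h3⟩)
    · exact ⟨e, mem_insert_self _ _, (sto_hi h).2 hu, pl_hi h⟩
    · exact ⟨a, mem_insert_of_mem h1, h2, h3⟩

lemma rmF_insert_hi' (he : e ∉ Z) (h : 2 * r + 1 ≤ ht e) :
    rmF r (insert e Z) (insert e u) = rmF r Z u := by
  ext x
  rw [mem_rmF, mem_rmF]
  have hc : ∀ a ∈ Z, (Sto r (insert e u) a ↔ Sto r u a) := fun a ha => sto_congr (by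
    rw [mem_insert]
    exact ⟨fun h => h.resolve_left fun h => he (h ▸ ha), Or.inr⟩)
  constructor
  · rintro ⟨a, h1, h2, h3⟩
    rcases mem_insert.1 h1 with rfl | h1
    · exact absurd (mem_insert_self _ _) ((sto_hi h).1 h2)
    · exact ⟨a, h1, (hc a h1).1 h2, h3⟩
  · rintro ⟨a, h1, h2, h3⟩
    exact ⟨a, mem_insert_of_mem h1, (hc a h1).2 h2, h3⟩

/-- **Change of variables.** -/
theorem Ec_rm0 {q q' : ℤ × ℤ → ℂ} (hZ : ∀ e ∈ Z, (e.1 + e.2) % 2 = 1)
    (h1 : ∀ e ∈ Z, ht e < 2 * r + 1 → q e = q' e) (h2 : ∀ e ∈ Z, 2 * r + 1 ≤ ht e → q (up e) = 1 - q' e)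
    (G : Finset (ℤ × ℤ) → ℂ) :
    Ec q' Z (fun ω => G (rmF r Z ω)) = Ec q (Z.image (pl r)) G := by
  induction Z using Finset.induction_on generalizing G with
  | empty =>
    have : rmF r ∅ ∅ = ∅ := by
      ext x
      rw [mem_rmF]
      simp
    simp [this]
  | insert e Z he ih =>
    have ih' := fun G => ih (fun a ha => hZ a (mem_insert_of_mem ha)) (fun a ha => h1 a (mem_insert_of_mem ha))
      (fun a ha => h2 a (mem_insert_of_mem ha)) G
    have hn : pl r e ∉ Z.image (pl r) := by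
      intro h
      obtain ⟨a, h3, h4⟩ := mem_image.1 h
      exact he (pl_inj (hZ a (mem_insert_of_mem h3)) (hZ e (mem_insert_self _ _)) h4 ▸ h3)
    have hω : ∀ ω ⊆ Z, e ∉ ω := fun ω hω h => he (hω h)
    rw [image_insert, Ec_insert _ he, Ec_insert _ hn]
    by_cases hr : ht e < 2 * r + 1
    · rw [pl_lo hr, h1 e (mem_insert_self _ _) hr]
      have e1 : Ec q' Z (fun ω => G (rmF r (insert e Z) ω)) = Ec q' Z (fun ω => G (rmF r Z ω)) :=
        Ec_congr fun ω h => by rw [rmF_insert_lo he hr (hω ω h)]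
      have e2 : Ec q' Z (fun ω => G (rmF r (insert e Z) (insert e ω))) =
          Ec q' Z (fun ω => G (insert e (rmF r Z ω))) := Ec_congr fun ω h => by rw [rmF_insert_lo' he hr]
      rw [e1, e2, ih' G, ih' fun ω => G (insert e ω)]
    · have hr' : 2 * r + 1 ≤ ht e := by omega
      rw [pl_hi hr', h2 e (mem_insert_self _ _) hr']
      have e1 : Ec q' Z (fun ω => G (rmF r (insert e Z) ω)) = Ec q' Z (fun ω => G (insert (up e) (rmF r Z ω))) :=
        Ec_congr fun ω h => by rw [rmF_insert_hi he hr' (hω ω h)]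
      have e2 : Ec q' Z (fun ω => G (rmF r (insert e Z) (insert e ω))) =
          Ec q' Z (fun ω => G (rmF r Z ω)) := Ec_congr fun ω h => by rw [rmF_insert_hi' he hr']
      rw [e1, e2, ih' G, ih' fun ω => G (insert (up e) ω)]
      ring

lemma rmF_split (hE : E ⊆ Z) {ω : Finset (ℤ × ℤ)} (hω : ω ⊆ E) (hd : Disjoint E W) :
    rmF r Z (ω ∪ W) = rmF r E ω ∪ rmF r (Z \ E) W := by
  ext x
  rw [mem_union, mem_rmF, mem_rmF, mem_rmF]
  constructor
  · rintro ⟨a, h1, h2, h3⟩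
    by_cases ha : a ∈ E
    · left
      refine ⟨a, ha, (sto_congr ?_).1 h2, h3⟩
      rw [mem_union]
      exact ⟨fun h => h.resolve_right fun h => disjoint_left.1 hd ha h, Or.inl⟩
    · right
      refine ⟨a, mem_sdiff.2 ⟨h1, ha⟩, (sto_congr ?_).1 h2, h3⟩
      rw [mem_union]
      exact ⟨fun h => h.resolve_left fun h => ha (hω h), Or.inr⟩
  · rintro (⟨a, h1, h2, h3⟩ | ⟨a, h1, h2, h3⟩)
    · refine ⟨a, hE h1, (sto_congr ?_).2 h2, h3⟩
      rw [mem_union]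
      exact ⟨fun h => h.resolve_right fun h => disjoint_left.1 hd h1 h, Or.inl⟩
    · obtain ⟨h1, h4⟩ := mem_sdiff.1 h1
      refine ⟨a, h1, (sto_congr ?_).2 h2, h3⟩
      rw [mem_union]
      exact ⟨fun h => h.resolve_left fun h => h4 (hω h), Or.inr⟩

/-- **The mean over the removed labels is the mean over the labels of the plane.** -/
theorem Ec_rm {q q' q0 : ℤ × ℤ → ℂ} {E0 : Finset (ℤ × ℤ)} (hZ : ∀ e ∈ Z, (e.1 + e.2) % 2 = 1) (hE : E ⊆ Z)
    (hd : Disjoint E W) (h1 : ∀ e ∈ E, ht e < 2 * r + 1 → q e = q' e)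
    (h2 : ∀ e ∈ E, 2 * r + 1 ≤ ht e → q (up e) = 1 - q' e) (h0 : ∀ e ∈ E0, q e = q0 e)
    (hE0 : Disjoint E0 (Z.image (pl r))) (Φ : Finset (ℤ × ℤ) → ℂ) :
    Ec q' E (fun u => RemZ.FR r Z q0 E0 V Φ (u ∪ W)) =
      Ec q (E0 ∪ E.image (pl r)) (fun ω => Φ (ω ∪ (V ∪ rmF r (Z \ E) W))) := by
  have hd0 : Disjoint E0 (E.image (pl r)) := disjoint_of_subset_right (image_subset_image hE) hE0
  rw [Ec_union q hd0]
  unfold RemZ.FR
  rw [Ec_swap, Ec_congr_q h0]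
  refine Ec_congr fun ω _ => ?_
  rw [← Ec_rm0 (r := r) (fun e he => hZ e (hE he)) h1 h2 fun A => Φ (ω ∪ A ∪ (V ∪ rmF r (Z \ E) W))]
  refine Ec_congr fun u hu => ?_
  rw [rmF_split hE hu hd]
  congr 1
  ext x
  simp only [mem_union]
  tauto

end Pool.Agent.H62.W
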