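import Mathlib
import Pool.Agent.H62.W.RmF

set_option autoImplicit false
open Finset

/-! # A deleted row can be removed: rectangles

`ZQ a b y0 y1` : the labels of the tiles `[a, b) × [y0, y1)` (removed picture: the row `r` of the plane is left out).
`remZ_box`, `out_be` : the removed zone of the box of a world with the deleted half row `r`, `x0 ≤ x`. -/

namespace Pool.Agent.H62.W

open Pool.Agent.H75.Perc Pool.Agent.H75.TwoArm Pool.Agent.H13.W Pool.Agent.H33.Q1 Pool.Agent.Q1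
open Pool.Agent.H45.W (dn_up up_dn)
open Pool.Agent.H54.W (Zb mem_Zb CD NE lah lab_eW_lt)
open Pool.Agent.H21.W (DR mem_DR)
open H80.W (ZF ZV TR)

variable {a b y0 y1 r x y X1 X2 Y1 Y2 x0 : ℤ}

/-- labels of a rectangle of tiles -/
noncomputable def ZQ (a b y0 y1 : ℤ) : Finset (ℤ × ℤ) := (Ico a b ×ˢ Ico y0 y1).image lt

lemma mem_ZQ : lt (x, y) ∈ ZQ a b y0 y1 ↔ a ≤ x ∧ x < b ∧ y0 ≤ y ∧ y < y1 := by
  unfold ZQ
  rw [mem_image]
  constructor
  · rintro ⟨t, h1, h2⟩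
    have := lt_inj h2
    subst this
    rw [mem_product, mem_Ico, mem_Ico] at h1
    simp only at h1
    tauto
  · intro h
    refine ⟨(x, y), ?_, rfl⟩
    rw [mem_product, mem_Ico, mem_Ico]
    simp only
    tauto

lemma odd_ZQ : ∀ e ∈ ZQ a b y0 y1, (e.1 + e.2) % 2 = 1 := by
  intro e he
  obtain ⟨t, -, rfl⟩ := mem_image.1 he
  exact lt_odd _

lemma tr_ZQ : TR (ZQ a b y0 y1) a b y0 y1 := by
  intro e he
  obtain ⟨x, y, rfl⟩ := Pool.Agent.H74.R45.exists_lt he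
  rw [mem_ZQ]
  unfold lt
  simp only
  omega

lemma zf_ZQ : ZF (ZQ a b y0 y1) := tr_ZQ.zf odd_ZQ
lemma zv_ZQ : ZV (ZQ a b y0 y1) := tr_ZQ.zv odd_ZQ

lemma ht_lt (x y : ℤ) : ht (lt (x, y)) = 2 * y + 1 := by unfold ht lt; simp only; ring
lemma up_lt (x y : ℤ) : up (lt (x, y)) = lt (x, y + 1) := by
  unfold up lt; simp only [Prod.mk.injEq]; constructor <;> ring
lemma dn_lt (x y : ℤ) : dn (lt (x, y)) = lt (x, y - 1) := by
  unfold dn lt; simp only [Prod.mk.injEq]; constructor <;> ring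

lemma pl_lt (r x y : ℤ) : pl r (lt (x, y)) = if y < r then lt (x, y) else lt (x, y + 1) := by
  unfold pl
  rw [ht_lt, up_lt]
  by_cases h : y < r
  · rw [if_pos h, if_pos (by omega)]
  · rw [if_neg h, if_neg (by omega)]

lemma sto_lt {u : Finset (ℤ × ℤ)} : Sto r u (lt (x, y)) ↔ (y < r ∧ lt (x, y) ∈ u) ∨ (r ≤ y ∧ lt (x, y) ∉ u) := by
  unfold Sto
  rw [ht_lt]
  constructor
  · rintro (⟨h1, h2⟩ | ⟨h1, h2⟩)
    · exact Or.inl ⟨by omega, h2⟩
    · exact Or.inr ⟨by omega, h2⟩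
  · rintro (⟨h1, h2⟩ | ⟨h1, h2⟩)
    · exact Or.inl ⟨by omega, h2⟩
    · exact Or.inr ⟨by omega, h2⟩

/-- the tiles of the plane around the removed rectangle -/
lemma mem_KZ_ZQ (h0 : y0 < r) (h1 : r < y1) : lt (x, y) ∈ KZ r (ZQ a b y0 y1) ↔
    a ≤ x ∧ x < b ∧ y0 ≤ y ∧ y < y1 + 1 := by
  unfold KZ
  simp only [Set.mem_setOf_eq, ht_lt, dn_lt, mem_ZQ]
  constructor
  · rintro ⟨-, ⟨k1, k2⟩ | ⟨k1, k2⟩ | ⟨k1, k2 | k2⟩⟩ <;> refine ⟨?_, ?_, ?_, ?_⟩ <;> omega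
  · intro k
    refine ⟨lt_odd _, ?_⟩
    rcases lt_trichotomy y r with h | h | h
    · exact Or.inl ⟨by omega, by omega⟩
    · exact Or.inr (Or.inr ⟨by omega, Or.inl (by omega)⟩)
    · exact Or.inr (Or.inl ⟨by omega, by omega⟩)

/-- **The removed zone of the box.** -/
theorem remZ_box (h0 : y0 < r) (h1 : r < y1) (hx : x0 ≤ a) (hX1 : X1 ≤ a) (hX2 : b ≤ X2) (hY1 : Y1 ≤ y0)
    (hY2 : y1 + 1 ≤ Y2) : RemZ r (Zb X1 X2 Y1 Y2) (DR x0 r) (ZQ a b y0 y1) where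
  odd := odd_ZQ
  cv := by
    intro e he
    by_cases ho : (e.1 + e.2) % 2 = 1
    · obtain ⟨x, y, rfl⟩ := Pool.Agent.H74.R45.exists_lt ho
      rw [ht_lt] at he
      rw [dn_lt, mem_ZQ, mem_ZQ]
      constructor <;> intro k <;> refine ⟨?_, ?_, ?_, ?_⟩ <;> omega
    · constructor
      · exact fun h => absurd (odd_ZQ e h) ho
      · exact fun h => absurd (by have := odd_up (odd_ZQ _ h); rwa [up_dn] at this) ho
  sub := by
    intro e he
    obtain ⟨x, y, rfl⟩ := Pool.Agent.H74.R45.exists_lt he.1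
    rw [mem_KZ_ZQ h0 h1] at he
    rw [mem_Zb]
    omega
  del := by
    intro e he
    obtain ⟨x, y, rfl⟩ := Pool.Agent.H74.R45.exists_lt he.1
    rw [mem_KZ_ZQ h0 h1] at he
    rw [mem_DR, ht_lt]
    constructor
    · intro h; omega
    · intro h; exact ⟨by omega, by omega⟩

/-- the ends at the sides of the box and the end of the string are not inside -/
lemma out_be (C : CD) (n : ℤ) (c0 : Bool) (h0 : y0 < r) (h1 : r < y1) (hx : x0 ≤ a) (hX1 : X1 ≤ a) (hX2 : b ≤ X2) :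
    RemZ.Out r (ZQ a b y0 y1) (C.be n c0 x0 r X1 X2) := by
  have side : ∀ X Y : ℤ, X ≤ a ∨ b ≤ X → lab (eW (lt (X, Y))) ∉ KZ r (ZQ a b y0 y1) ∨
      plab (eW (lt (X, Y))) ∉ KZ r (ZQ a b y0 y1) := by
    intro X Y hX
    rcases lab_eW_lt X Y with ⟨h2, h3⟩ | ⟨h2, h3⟩ <;> rw [h2, h3, mem_KZ_ZQ h0 h1, mem_KZ_ZQ h0 h1]
    · rcases hX with hX | hX
      · right; omega
      · left; omega
    · rcases hX with hX | hX
      · left; omega
      · right; omega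
  have key : ∀ (z : ℤ) (t : Bool), z = X1 ∨ z = X2 → ∀ y, lab (lah z y t) ∉ KZ r (ZQ a b y0 y1) ∨
      plab (lah z y t) ∉ KZ r (ZQ a b y0 y1) := by
    intro z t hz y
    unfold lah
    split_ifs <;> exact side _ _ (by omega)
  intro i
  cases i
  · exact side _ _ (by omega)
  · exact key _ _ (Or.inl rfl) _
  · exact key _ _ (Or.inr rfl) _
  · exact key _ _ (Or.inr rfl) _

end Pool.Agent.H62.W
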