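import Mathlib
import Pool.Agent.H62.W.RmBox
import Pool.Agent.H62.W.TotN

set_option autoImplicit false
open Finset

/-! # Totals with ties, arbitrary weights; totals of the removed picture

`tot_ties` : the total of `VF F'` (ties with the merged weights) is the mean of `F` over the labels and both tiles of
every tie. `tot_removed` : the same for the functional of the removed picture, as a mean over the labels of the
plane. -/

namespace Pool.Agent.H62.W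

open Pool.Agent.H75.Perc Pool.Agent.H75.TwoArm Pool.Agent.Q1 Pool.Agent.H33.Q1 Pool.Agent.H13.Q1
open Pool.Agent.H49.W (Leaf Ec_ties)
open Pool.Agent.H42.W (VF)
open Pool.Agent.H15.W (TotV Tot0V)
open Pool.Agent.Q1.M6e (Ec_det)
open Pool.Agent.H13.W (up)

section ties

variable {ι κ : Type*} [DecidableEq ι] [DecidableEq κ] {Bb B W : Finset (ℤ × ℤ)} {K : Finset κ}
  {o : κ → Bool} {v e1 e2 : κ → ℤ × ℤ} {fm : ℤ × ℤ → ι} {co : ι → Bool} {s q : ℤ × ℤ → ℂ}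
  {F : Finset (ℤ × ℤ) → ℂ}

/-- the removed tiles in the state which ties -/
def RO (K : Finset κ) (o : κ → Bool) (e2 : κ → ℤ × ℤ) : Finset (ℤ × ℤ) :=
  (K.filter (fun k => o k = true)).image e2

/-- **Totals with ties, arbitrary weights.** -/
theorem tot_ties (hB : B ⊆ Bb) (hP : ∀ k ∈ K, Cap (Bb ∪ (K.image e1 ∪ K.image e2)) W (o k) (v k) (e1 k) (e2 k))
    (hF : ∀ k ∈ K, Leaf F (o k) (v k)) (hd : Disjoint (Bb ∪ (K.image e1 ∪ K.image e2)) W)
    (hdis : ∀ k ∈ K, ∀ l ∈ K, k ≠ l → e1 k ≠ e1 l ∧ e1 k ≠ e2 l ∧ e2 k ≠ e2 l)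
    (h1 : ∀ k ∈ K, e1 k ∉ Bb) (h2 : ∀ k ∈ K, e2 k ∉ Bb) (hq : ∀ e ∈ Bb, q e = 1 / 2)
    (hs : ∀ k ∈ K, mg (o k) (q (e1 k)) (q (e2 k)) =
      if co (fm (e1 k)) = true then 1 - s (e1 k) else s (e1 k)) :
    TotV (VF (fun w => F (w ∪ (W ∪ RO K o e2))) Bb B (K.image e1) fm co) B (K.image e1) s =
      Ec q (Bb ∪ (K.image e1 ∪ K.image e2)) (fun ω => F (ω ∪ W)) := by
  classical
  have hne : ∀ k ∈ K, ∀ l ∈ K, e1 k ≠ e2 l := by
    intro k hk l hl
    by_cases h : k = l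
    · subst h; exact (hP k hk).ne
    · exact (hdis k hk l hl h).2.1
  set q' : ℤ × ℤ → ℂ := fun e => if e ∈ K.image e1 then (if co (fm e) = true then 1 - s e else s e)
    else q e with hq'
  have hdB : Disjoint Bb (K.image e1) := by
    rw [disjoint_left]
    intro e he h
    obtain ⟨k, hk, rfl⟩ := mem_image.1 h
    exact h1 k hk he
  have a1 : ∀ e ∈ Bb, q' e = q e := by
    intro e he
    rw [hq']
    simp only
    rw [if_neg fun h => disjoint_left.1 hdB he h]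
  rw [TotV_VF (q := q') hB hdB (fun e he => by rw [a1 e he, hq e he]) (fun e he => by
    rw [hq']; simp only; rw [if_pos he])]
  have key := Ec_ties (q := q) (q' := q') K o v e1 e2 hP hF hd hdis (fun k hk => ?_) (fun e he hn => ?_)
  · rw [← key]
    have e3 : (Bb ∪ (K.image e1 ∪ K.image e2)) \ K.image e2 = Bb ∪ K.image e1 := by
      ext e
      rw [mem_sdiff, mem_union, mem_union, mem_union]
      constructor
      · rintro ⟨h | h | h, h'⟩
        · exact Or.inl h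
        · exact Or.inr h
        · exact absurd h h'
      · rintro (h | h)
        · refine ⟨Or.inl h, fun h' => ?_⟩
          obtain ⟨k, hk, rfl⟩ := mem_image.1 h'
          exact h2 k hk h
        · refine ⟨Or.inr (Or.inl h), fun h' => ?_⟩
          obtain ⟨k, hk, rfl⟩ := mem_image.1 h
          obtain ⟨l, hl, h3⟩ := mem_image.1 h'
          exact hne k hk l hl h3.symm
    rw [e3]
    rfl
  · rw [hs k hk, hq']
    simp only
    rw [if_pos (mem_image_of_mem e1 hk)]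
  · rw [hq']
    simp only
    rw [if_neg]
    intro h
    obtain ⟨k, hk, rfl⟩ := mem_image.1 h
    exact (hn k hk).1 rfl

end ties

section removed

variable {ι κ : Type*} [DecidableEq ι] [DecidableEq κ] {Bb B W Z E0 V : Finset (ℤ × ℤ)} {K : Finset κ}
  {o : κ → Bool} {v e1 e2 : κ → ℤ × ℤ} {fm : ℤ × ℤ → ι} {co : ι → Bool} {s q0 q1 q : ℤ × ℤ → ℂ}
  {r : ℤ} {Φ : Finset (ℤ × ℤ) → ℂ}

/-- **Totals of the removed picture**: means over the labels of the plane. -/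
theorem tot_removed (hB : B ⊆ Bb) (hZ : ∀ e ∈ Z, (e.1 + e.2) % 2 = 1)
    (hP : ∀ k ∈ K, Cap (Bb ∪ (K.image e1 ∪ K.image e2)) W (o k) (v k) (e1 k) (e2 k))
    (hF : ∀ k ∈ K, Leaf (RemZ.FR r Z q0 E0 V Φ) (o k) (v k))
    (hd : Disjoint (Bb ∪ (K.image e1 ∪ K.image e2)) W)
    (hdis : ∀ k ∈ K, ∀ l ∈ K, k ≠ l → e1 k ≠ e1 l ∧ e1 k ≠ e2 l ∧ e2 k ≠ e2 l)
    (h1 : ∀ k ∈ K, e1 k ∉ Bb) (h2 : ∀ k ∈ K, e2 k ∉ Bb) (hq : ∀ e ∈ Bb, q1 e = 1 / 2)
    (hs : ∀ k ∈ K, mg (o k) (q1 (e1 k)) (q1 (e2 k)) =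
      if co (fm (e1 k)) = true then 1 - s (e1 k) else s (e1 k))
    (hE : Bb ∪ (K.image e1 ∪ K.image e2) ⊆ Z) (hE0 : Disjoint E0 (Z.image (pl r)))
    (k1 : ∀ e ∈ Bb ∪ (K.image e1 ∪ K.image e2), ht e < 2 * r + 1 → q e = q1 e)
    (k2 : ∀ e ∈ Bb ∪ (K.image e1 ∪ K.image e2), 2 * r + 1 ≤ ht e → q (up e) = 1 - q1 e)
    (k0 : ∀ e ∈ E0, q e = q0 e) :
    TotV (VF (fun w => RemZ.FR r Z q0 E0 V Φ (w ∪ (W ∪ RO K o e2))) Bb B (K.image e1) fm co) B (K.image e1) s =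
      Ec q (E0 ∪ (Bb ∪ (K.image e1 ∪ K.image e2)).image (pl r))
        (fun ω => Φ (ω ∪ (V ∪ rmF r (Z \ (Bb ∪ (K.image e1 ∪ K.image e2))) W))) := by
  rw [tot_ties hB hP hF hd hdis h1 h2 hq hs]
  exact Ec_rm hZ hE hd k1 k2 k0 hE0 Φ

end removed

/-- labels which are not read -/
lemma Ec_irr {q : ℤ × ℤ → ℂ} {E I : Finset (ℤ × ℤ)} {Φ : Finset (ℤ × ℤ) → ℂ} (hd : Disjoint E I)
    (h : ∀ w, ∀ A ⊆ I, Φ (w ∪ A) = Φ w) : Ec q (E ∪ I) Φ = Ec q E Φ := by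
  rw [Ec_union q hd]
  refine Ec_congr fun ω _ => ?_
  rw [Ec_congr (G := fun _ => Φ ω) fun A hA => h ω A hA, Ec_const]

end Pool.Agent.H62.W
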