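import Mathlib
import Pool.Agent.H62.W.TotR

set_option autoImplicit false
open Finset

/-! # The crossed wall: the functional in removed labels

The line of the world `true` is on the right wall (column `w - 1`), the row `r` is deleted. `KII` : the tie points of
the column in removed labels (wall of one colour `c0`), `BII` : fair labels of the zone, `EII` : with both tiles of
every tie, `E0II` : random labels of the plane off the zone, `WpII` : fixed open labels of the plane (fill, turn tiles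
of the line, frozen tiles `S`), `WrII` : the same in removed labels, `FII` : the functional of chapter C.
`tot_plane`, `totII` : its totals are means over the labels of the plane, arbitrary weights on the column. -/

namespace Pool.Agent.H62.W

open Pool.Agent.H75.Perc Pool.Agent.H75.TwoArm Pool.Agent.Q1 Pool.Agent.H33.Q1 Pool.Agent.H13.Q1
open Pool.Agent.H49.W (Leaf Ec_ties corner_v corner_f)
open Pool.Agent.H42.W (VF)
open Pool.Agent.H15.W (TotV Tot0V)
open Pool.Agent.Q1.M6e (Ec_det)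
open Pool.Agent.H13.W (up dn)
open Pool.Agent.H54.W (Win Pos Zb mem_Zb CD NE)
open Pool.Agent.H21.W (DR mem_DR)
open Pool.Agent.H42.Sp (Sd Ix kt rt kt_odd rt_even kt_Tg rt_Tg cap_of)
open Pool.Agent.H13.R45 (ev gp ev_true ev_false Tg exists_at lab_at Ag)
open Pool.Agent.H74.R45 (exists_lt)

/-! ### Fixed labels in both pictures -/

section inv

variable {r : ℤ} {Z Z' E Wp W : Finset (ℤ × ℤ)} {e : ℤ × ℤ}

open Classical in
/-- the removed labels which are open if the open labels of the plane are `Wp` -/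
noncomputable def rmI (r : ℤ) (Z Wp : Finset (ℤ × ℤ)) : Finset (ℤ × ℤ) :=
  Z.filter fun e => (ht e < 2 * r + 1 ∧ e ∈ Wp) ∨ (2 * r + 1 ≤ ht e ∧ up e ∉ Wp)

lemma mem_rmI : e ∈ rmI r Z Wp ↔ e ∈ Z ∧ ((ht e < 2 * r + 1 ∧ e ∈ Wp) ∨ (2 * r + 1 ≤ ht e ∧ up e ∉ Wp)) := by
  classical
  unfold rmI
  rw [mem_filter]

lemma rmI_sub : rmI r Z Wp ⊆ Z := fun _ h => (mem_rmI.1 h).1

lemma rmF_rmI : rmF r Z (rmI r Z Wp) = Wp ∩ Z.image (pl r) := by
  ext x
  rw [mem_rmF, mem_inter, mem_image]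
  constructor
  · rintro ⟨a, h1, h2, rfl⟩
    refine ⟨?_, a, h1, rfl⟩
    by_cases h : ht a < 2 * r + 1
    · rw [sto_lo h, mem_rmI] at h2
      rw [pl_lo h]
      rcases h2.2 with k | k
      · exact k.2
      · omega
    · have h' : 2 * r + 1 ≤ ht a := by omega
      rw [sto_hi h', mem_rmI] at h2
      rw [pl_hi h']
      by_contra hc
      exact h2 ⟨h1, Or.inr ⟨h', hc⟩⟩
  · rintro ⟨h1, a, h2, rfl⟩
    refine ⟨a, h2, ?_, rfl⟩
    by_cases h : ht a < 2 * r + 1
    · rw [sto_lo h, mem_rmI]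
      rw [pl_lo h] at h1
      exact ⟨h2, Or.inl ⟨h, h1⟩⟩
    · have h' : 2 * r + 1 ≤ ht a := by omega
      rw [sto_hi h', mem_rmI]
      rw [pl_hi h'] at h1
      rintro ⟨-, k | k⟩
      · omega
      · exact k.2 h1

/-- the fixed labels of the plane -/
lemma fixed_eq (hd : Disjoint (E.image (pl r)) Wp) :
    (Wp \ Z.image (pl r)) ∪ rmF r (Z \ E) (rmI r (Z \ E) Wp) = Wp := by
  rw [rmF_rmI]
  ext x
  rw [mem_union, mem_sdiff, mem_inter]
  constructor
  · rintro (h | h)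
    · exact h.1
    · exact h.1
  · intro h
    by_cases h1 : x ∈ Z.image (pl r)
    · right
      refine ⟨h, ?_⟩
      obtain ⟨a, h2, rfl⟩ := mem_image.1 h1
      refine mem_image_of_mem _ (mem_sdiff.2 ⟨h2, fun h3 => ?_⟩)
      exact disjoint_left.1 hd (mem_image_of_mem _ h3) h
    · exact Or.inl ⟨h, h1⟩

end inv

section plane

variable {ι κ : Type*} [DecidableEq ι] [DecidableEq κ] {Bb B Wp Z E0 : Finset (ℤ × ℤ)} {K : Finset κ}
  {o : κ → Bool} {v e1 e2 : κ → ℤ × ℤ} {fm : ℤ × ℤ → ι} {co : ι → Bool} {s q0 q1 q : ℤ × ℤ → ℂ}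
  {r : ℤ} {Φ : Finset (ℤ × ℤ) → ℂ}

/-- the functional of the removed picture with the ties `K`, from the fixed labels `Wp` of the plane -/
noncomputable def Fpl (r : ℤ) (Z : Finset (ℤ × ℤ)) (q0 : ℤ × ℤ → ℂ) (E0 E Wp RO : Finset (ℤ × ℤ))
    (Φ : Finset (ℤ × ℤ) → ℂ) : Finset (ℤ × ℤ) → ℂ :=
  fun w => RemZ.FR r Z q0 E0 (Wp \ Z.image (pl r)) Φ (w ∪ (rmI r (Z \ E) Wp ∪ RO))

/-- **Totals of the removed picture** from the fixed labels of the plane. -/
theorem tot_plane (hB : B ⊆ Bb) (hZ : ∀ e ∈ Z, (e.1 + e.2) % 2 = 1)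
    (hP : ∀ k ∈ K, Cap (Bb ∪ (K.image e1 ∪ K.image e2))
      (rmI r (Z \ (Bb ∪ (K.image e1 ∪ K.image e2))) Wp) (o k) (v k) (e1 k) (e2 k))
    (hF : ∀ k ∈ K, Leaf (RemZ.FR r Z q0 E0 (Wp \ Z.image (pl r)) Φ) (o k) (v k))
    (hdis : ∀ k ∈ K, ∀ l ∈ K, k ≠ l → e1 k ≠ e1 l ∧ e1 k ≠ e2 l ∧ e2 k ≠ e2 l)
    (h1 : ∀ k ∈ K, e1 k ∉ Bb) (h2 : ∀ k ∈ K, e2 k ∉ Bb) (hq : ∀ e ∈ Bb, q1 e = 1 / 2)
    (hs : ∀ k ∈ K, mg (o k) (q1 (e1 k)) (q1 (e2 k)) =
      if co (fm (e1 k)) = true then 1 - s (e1 k) else s (e1 k))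
    (hE : Bb ∪ (K.image e1 ∪ K.image e2) ⊆ Z) (hE0 : Disjoint E0 (Z.image (pl r)))
    (hWp : Disjoint ((Bb ∪ (K.image e1 ∪ K.image e2)).image (pl r)) Wp)
    (k1 : ∀ e ∈ Bb ∪ (K.image e1 ∪ K.image e2), ht e < 2 * r + 1 → q e = q1 e)
    (k2 : ∀ e ∈ Bb ∪ (K.image e1 ∪ K.image e2), 2 * r + 1 ≤ ht e → q (up e) = 1 - q1 e)
    (k0 : ∀ e ∈ E0, q e = q0 e) :
    TotV (VF (Fpl r Z q0 E0 (Bb ∪ (K.image e1 ∪ K.image e2)) Wp (RO K o e2) Φ) Bb B (K.image e1) fm co) B
      (K.image e1) s =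
      Ec q (E0 ∪ (Bb ∪ (K.image e1 ∪ K.image e2)).image (pl r)) (fun ω => Φ (ω ∪ Wp)) := by
  have hd : Disjoint (Bb ∪ (K.image e1 ∪ K.image e2)) (rmI r (Z \ (Bb ∪ (K.image e1 ∪ K.image e2))) Wp) := by
    rw [disjoint_right]
    intro e he
    exact (mem_sdiff.1 (rmI_sub he)).2
  have key := tot_removed (V := Wp \ Z.image (pl r)) (Φ := Φ) (E0 := E0) (r := r) (q := q) (q0 := q0)
    (fm := fm) hB hZ hP hF hd hdis h1 h2 hq hs hE hE0 k1 k2 k0
  rw [fixed_eq hWp] at key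
  exact key

end plane

/-- a grid point all of whose tiles are in the zone -/
lemma grid_V {Z : Finset (ℤ × ℤ)} {g : ℤ × ℤ} (h : ∀ e, Tg g e → e ∈ Z) :
    (ev g = true → ∀ y, IsUnit4 (y - gp g) → gp g + y ∈ Z) ∧
    (ev g = false → ∀ y, IsUnit4 (y - gp g) → gp g + y - (1, 1) ∈ Z) := by
  constructor
  · intro he y hy
    obtain ⟨c, h1, h2⟩ := corner_v hy
    rw [← h2]
    refine h _ (lab_at ?_)
    unfold Ag At
    rw [if_pos he]; exact h1
  · intro he y hy
    obtain ⟨c, h1, h2⟩ := corner_f hy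
    rw [← h2]
    refine h _ (lab_at ?_)
    unfold Ag At
    rw [if_neg (by rw [he]; simp)]; exact h1

/-! ### The column of the line -/

section defs

/-- the tie points of the right column in removed labels -/
noncomputable def KII (D : Win) (c0 : Bool) : Finset Ix :=
  ((Icc 1 (D.h - 2)).filter fun t => (D.w + t) % 2 = if c0 then 1 else 0).image fun t => (Sd.R, (D.w, t))

/-- the kept tiles -/
noncomputable def TII (D : Win) (c0 : Bool) : Finset (ℤ × ℤ) := (KII D c0).image fun k => lt (kt k)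

/-- fair labels of the zone, columns from `a` on -/
noncomputable def BII (D : Win) (a : ℤ) : Finset (ℤ × ℤ) := ZQ a (D.w - 1) 0 (D.h - 1)

/-- labels of the zone with both tiles of every tie -/
noncomputable def EII (D : Win) (a : ℤ) (c0 : Bool) : Finset (ℤ × ℤ) :=
  BII D a ∪ ((KII D c0).image (fun k => lt (kt k)) ∪ (KII D c0).image fun k => lt (rt k))

open Classical in
/-- random labels of the plane off the zone -/
noncomputable def E0II (D : Win) (r x0 : ℤ) (Z : Finset (ℤ × ℤ)) : Finset (ℤ × ℤ) :=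
  (D.EJ fun _ => D.w).filter fun e => e ∉ DR x0 r ∧ e ∉ Z.image (pl r)

/-- fixed open labels of the plane -/
noncomputable def WpII (D : Win) (Wo S : Finset (ℤ × ℤ)) : Finset (ℤ × ℤ) := (D.WJ (fun _ => D.w) Wo) ∪ S

/-- the fixed open labels of the zone, removed labels -/
noncomputable def WrII (D : Win) (r a : ℤ) (c0 : Bool) (Z Wo S : Finset (ℤ × ℤ)) : Finset (ℤ × ℤ) :=
  rmI r (Z \ EII D a c0) (WpII D Wo S)

/-- the removed tiles of the ties in the state which ties -/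
noncomputable def ROII (D : Win) (c0 : Bool) : Finset (ℤ × ℤ) := RO (KII D c0) (fun k => ev k.2) fun k => lt (rt k)

/-- **The functional of the chart of the crossed wall.** -/
noncomputable def FII (D : Win) (r x0 a : ℤ) (c0 : Bool) (Z Wo S : Finset (ℤ × ℤ)) (Φ : Finset (ℤ × ℤ) → ℂ) :
    Finset (ℤ × ℤ) → ℂ :=
  fun w => RemZ.FR r Z (fun _ => (1 / 2 : ℂ)) (E0II D r x0 Z) (WpII D Wo S \ Z.image (pl r)) Φ
    (w ∪ (WrII D r a c0 Z Wo S ∪ ROII D c0))

/-- **Geometry of the chart**: `a` is the left edge of the zone. -/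
structure GII (D : Win) (r x0 a b y0 y1 : ℤ) (c0 : Bool) : Prop where
  r0 : 0 < r
  r1 : r + 1 < D.h
  xa : x0 ≤ a
  ha : ∀ y, 0 ≤ y → y < D.h → D.a y ≤ a + 1
  aw : a + 2 ≤ D.w
  b1 : D.w + 1 ≤ b
  y0 : y0 ≤ -1
  y1 : D.h ≤ y1
  cr : ∀ y, 0 ≤ y → y < D.h → y ≠ r → D.cr y = if y < r then c0 else !c0

end defs

variable {D : Win} {r x0 a b y0 y1 x y t : ℤ} {c0 : Bool} {Wo S : Finset (ℤ × ℤ)} {k : Ix}

lemma posw (D : Win) : Pos D (fun _ => D.w) where
  lo := fun y h0 h1 => by have := D.aw y h0 h1; omega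
  hi := fun _ _ _ => le_rfl
  up := fun _ _ _ h => absurd h (lt_irrefl _)
  dn := fun _ _ _ h => absurd h (lt_irrefl _)

lemma mem_KII : k ∈ KII D c0 ↔ ∃ t, (1 ≤ t ∧ t ≤ D.h - 2) ∧ ((D.w + t) % 2 = if c0 then 1 else 0) ∧
    k = (Sd.R, (D.w, t)) := by
  unfold KII
  rw [mem_image]
  constructor
  · rintro ⟨t, h1, h2⟩
    rw [mem_filter, mem_Icc] at h1
    exact ⟨t, h1.1, h1.2, h2.symm⟩
  · rintro ⟨t, h1, h2, h3⟩
    exact ⟨t, mem_filter.2 ⟨mem_Icc.2 h1, h2⟩, h3.symm⟩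

/-- the two tiles at a tie point -/
lemma kt_R (x t : ℤ) : kt (Sd.R, (x, t)) = if (x + t) % 2 = 1 then (x - 1, t - 1) else (x - 1, t) := rfl
lemma rt_R (x t : ℤ) : rt (Sd.R, (x, t)) = if (x + t) % 2 = 1 then (x - 1, t) else (x - 1, t - 1) := rfl

/-- a tile is at a tie point of the column -/
def Pr (D : Win) (c0 : Bool) (x y : ℤ) : Prop := x = D.w - 1 ∧ ∃ t, (1 ≤ t ∧ t ≤ D.h - 2) ∧
  ((D.w + t) % 2 = if c0 then 1 else 0) ∧ (y = t - 1 ∨ y = t)

lemma mem_pairs : lt (x, y) ∈ (KII D c0).image (fun k => lt (kt k)) ∪ (KII D c0).image (fun k => lt (rt k)) ↔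
    Pr D c0 x y := by
  rw [mem_union, mem_image, mem_image]
  unfold Pr
  constructor
  · rintro (⟨k, h1, h2⟩ | ⟨k, h1, h2⟩)
    · obtain ⟨t, h3, h4, rfl⟩ := mem_KII.1 h1
      have h5 := lt_inj h2
      rw [kt_R] at h5
      split_ifs at h5 <;> simp only [Prod.mk.injEq] at h5
      · exact ⟨by omega, t, h3, h4, Or.inl (by omega)⟩
      · exact ⟨by omega, t, h3, h4, Or.inr (by omega)⟩
    · obtain ⟨t, h3, h4, rfl⟩ := mem_KII.1 h1
      have h5 := lt_inj h2
      rw [rt_R] at h5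
      split_ifs at h5 <;> simp only [Prod.mk.injEq] at h5
      · exact ⟨by omega, t, h3, h4, Or.inr (by omega)⟩
      · exact ⟨by omega, t, h3, h4, Or.inl (by omega)⟩
  · rintro ⟨rfl, t, h3, h4, h5⟩
    have hk : (Sd.R, (D.w, t)) ∈ KII D c0 := mem_KII.2 ⟨t, h3, h4, rfl⟩
    by_cases hp : (D.w + t) % 2 = 1
    · rcases h5 with rfl | rfl
      · exact Or.inl ⟨_, hk, by rw [kt_R, if_pos hp]⟩
      · exact Or.inr ⟨_, hk, by rw [rt_R, if_pos hp]⟩
    · rcases h5 with rfl | rfl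
      · exact Or.inr ⟨_, hk, by rw [rt_R, if_neg hp]⟩
      · exact Or.inl ⟨_, hk, by rw [kt_R, if_neg hp]⟩

/-- the labels of the zone which are not fixed -/
lemma mem_EII : lt (x, y) ∈ EII D a c0 ↔ (a ≤ x ∧ x < D.w - 1 ∧ 0 ≤ y ∧ y < D.h - 1) ∨ Pr D c0 x y := by
  unfold EII BII
  rw [mem_union, mem_pairs, mem_ZQ]

lemma Pr.box (h : Pr D c0 x y) : x = D.w - 1 ∧ 0 ≤ y ∧ y < D.h - 1 := by
  obtain ⟨h1, t, h2, h3, h4⟩ := h
  exact ⟨h1, by omega, by omega⟩

lemma odd_EII {e : ℤ × ℤ} (h : e ∈ EII D a c0) : (e.1 + e.2) % 2 = 1 := by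
  unfold EII at h
  rw [mem_union, mem_union, mem_image, mem_image] at h
  rcases h with h | ⟨k, -, rfl⟩ | ⟨k, -, rfl⟩
  · exact odd_ZQ e h
  · exact lt_odd _
  · exact lt_odd _

namespace GII

variable (G : GII D r x0 a b y0 y1 c0)
include G

lemma e_sub : EII D a c0 ⊆ ZQ a b y0 y1 := by
  have g1 := G.aw
  have g2 := G.b1
  have g3 := G.y0
  have g4 := G.y1
  intro e he
  obtain ⟨x, y, rfl⟩ := exists_lt (odd_EII he)
  rw [mem_EII] at he
  rw [mem_ZQ]
  rcases he with h | h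
  · omega
  · have := h.box
    omega

omit G in
/-- the labels of the plane of the labels of the zone which are not fixed -/
lemma mem_img : lt (x, y) ∈ (EII D a c0).image (pl r) ↔
    (y < r ∧ lt (x, y) ∈ EII D a c0) ∨ (r < y ∧ lt (x, y - 1) ∈ EII D a c0) := by
  rw [mem_image]
  constructor
  · rintro ⟨e, h1, h2⟩
    obtain ⟨x', y', rfl⟩ := exists_lt (odd_EII h1)
    rw [pl_lt] at h2
    split_ifs at h2 with h3
    · have := lt_inj h2
      simp only [Prod.mk.injEq] at this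
      obtain ⟨rfl, rfl⟩ := this
      exact Or.inl ⟨h3, h1⟩
    · have := lt_inj h2
      simp only [Prod.mk.injEq] at this
      obtain ⟨rfl, rfl⟩ := this
      right
      rw [add_sub_cancel_right]
      exact ⟨by omega, h1⟩
  · rintro (⟨h1, h2⟩ | ⟨h1, h2⟩)
    · exact ⟨_, h2, by rw [pl_lt, if_pos h1]⟩
    · refine ⟨_, h2, ?_⟩
      rw [pl_lt, if_neg (by omega), sub_add_cancel]

/-- the labels of the plane of the zone -/
lemma mem_zimg : lt (x, y) ∈ (ZQ a b y0 y1).image (pl r) ↔ a ≤ x ∧ x < b ∧ y0 ≤ y ∧ y < y1 + 1 ∧ y ≠ r := by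
  have g1 := G.r0
  have g2 := G.r1
  have g3 := G.y0
  have g4 := G.y1
  rw [mem_image]
  constructor
  · rintro ⟨e, h1, h2⟩
    obtain ⟨x', y', rfl⟩ := exists_lt (odd_ZQ e h1)
    rw [mem_ZQ] at h1
    rw [pl_lt] at h2
    split_ifs at h2 with h3
    · have := lt_inj h2
      simp only [Prod.mk.injEq] at this
      omega
    · have := lt_inj h2
      simp only [Prod.mk.injEq] at this
      omega
  · rintro ⟨h1, h2, h3, h4, h5⟩
    rcases lt_or_gt_of_ne h5 with h | h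
    · exact ⟨lt (x, y), mem_ZQ.2 (by omega), by rw [pl_lt, if_pos h]⟩
    · refine ⟨lt (x, y - 1), mem_ZQ.2 (by omega), ?_⟩
      rw [pl_lt, if_neg (by omega), sub_add_cancel]

/-- random labels of the plane off the zone -/
lemma mem_E0 : lt (x, y) ∈ E0II D r x0 (ZQ a b y0 y1) ↔
    0 ≤ y ∧ y < D.h ∧ D.a y - 1 ≤ x ∧ x < a ∧ ¬ (y = r ∧ x0 ≤ x) := by
  classical
  have g1 := G.r0
  have g2 := G.r1
  have g3 := G.y0
  have g4 := G.y1
  have g5 := G.b1
  have g6 := G.aw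
  have g7 := G.xa
  unfold E0II
  rw [mem_filter, Win.mem_EJ (posw D), mem_DR, G.mem_zimg]
  unfold Win.InE Win.InU Win.RE Win.RW Win.RB Win.RT
  beta_reduce
  constructor
  · rintro ⟨h1, h2, h3⟩
    rcases h1 with h1 | h1 | h1 | h1 | h1
    · refine ⟨h1.1, h1.2.1, h1.2.2.1, ?_, h2⟩
      by_contra hc
      exact h3 ⟨by omega, by omega, by omega, by omega, fun h => h2 ⟨h, by omega⟩⟩
    · omega
    · omega
    · omega
    · omega
  · rintro ⟨h1, h2, h3, h4, h5⟩
    exact ⟨Or.inl ⟨h1, h2, h3, by omega⟩, h5, by omega⟩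

omit G in
lemma disj_E0 : Disjoint (E0II D r x0 (ZQ a b y0 y1)) ((ZQ a b y0 y1).image (pl r)) := by
  classical
  rw [disjoint_left]
  intro e he
  unfold E0II at he
  exact (mem_filter.1 he).2.2

/-- the fixed labels are not random -/
lemma disj_W (hWo : ∀ x y, lt (x, y) ∈ Wo → ¬ D.InZ x y) (hS : Disjoint ((EII D a c0).image (pl r)) S) :
    Disjoint ((EII D a c0).image (pl r)) (WpII D Wo S) := by
  have g1 := G.r0
  have g2 := G.r1
  have g6 := G.aw
  unfold WpII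
  rw [disjoint_union_right]
  refine ⟨?_, hS⟩
  rw [disjoint_left]
  intro e he he'
  obtain ⟨x, y, rfl⟩ : ∃ x y, e = lt (x, y) := by
    obtain ⟨a', h1, rfl⟩ := mem_image.1 he
    obtain ⟨x', y', rfl⟩ := exists_lt (odd_EII h1)
    rw [pl_lt]
    split_ifs
    · exact ⟨_, _, rfl⟩
    · exact ⟨_, _, rfl⟩
  have hin : D.InU x y := by
    rw [mem_img] at he
    unfold Win.InU
    rcases he with ⟨h1, h2⟩ | ⟨h1, h2⟩
    · rw [mem_EII] at h2
      rcases h2 with h2 | h2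
      · have := G.ha y (by omega) (by omega)
        omega
      · have h3 := h2.box
        have := G.ha y (by omega) (by omega)
        omega
    · rw [mem_EII] at h2
      rcases h2 with h2 | h2
      · have := G.ha y (by omega) (by omega)
        omega
      · have h3 := h2.box
        have := G.ha y (by omega) (by omega)
        omega
  have hE : D.InE (fun _ => D.w) x y := Or.inl hin
  unfold Win.WJ at he'
  rcases mem_union.1 he' with h | h
  · rw [Win.mem_WR] at h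
    exact h.2.1 hE
  · exact hWo x y h (hE.inZ (posw D))

/-- the wall has one colour in removed labels -/
lemma wall_r (hWo : ∀ x y, lt (x, y) ∈ Wo → ¬ D.InZ x y) (hS : ∀ y, lt (D.w, y) ∉ S) (h0 : 0 ≤ t) (h1 : t < D.h - 1) :
    lt (D.w, t) ∈ WrII D r a c0 (ZQ a b y0 y1) Wo S ↔ c0 = true := by
  have g1 := G.r0
  have g2 := G.r1
  have g3 := G.y0
  have g4 := G.y1
  have g5 := G.b1
  have g6 := G.aw
  have hin : ∀ y, 0 ≤ y → y < D.h → D.InZ D.w y := by
    intro y h2 h3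
    have := D.hlo y h2 h3
    have := D.aw y h2 h3
    unfold Win.InZ; omega
  have hfill : ∀ y, 0 ≤ y → y < D.h → D.fill D.w y = D.cr y := by
    intro y h2 h3
    have := D.aw y h2 h3
    unfold Win.fill
    rw [if_neg (by omega), if_neg (by omega), if_neg (by omega)]
  have key : ∀ y, 0 ≤ y → y < D.h → (lt (D.w, y) ∈ WpII D Wo S ↔ D.cr y = true) := by
    intro y h2 h3
    unfold WpII Win.WJ
    rw [mem_union, mem_union, Win.mem_WR]
    have n1 : ¬ D.InE (fun _ => D.w) D.w y := by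
      unfold Win.InE Win.InU Win.RE Win.RW Win.RB Win.RT
      simp only
      omega
    have n2 : ¬ D.TA (fun _ => D.w) D.w y := by
      unfold Win.TA; simp only; omega
    have n3 : ¬ D.TB (fun _ => D.w) D.w y := by
      unfold Win.TB; simp only; omega
    have n4 : lt (D.w, y) ∉ Wo := fun h => hWo _ _ h (hin y h2 h3)
    have n5 := hS y
    unfold Win.InO
    rw [hfill y h2 h3]
    have := hin y h2 h3
    tauto
  unfold WrII
  rw [mem_rmI, mem_sdiff, mem_ZQ, mem_EII, ht_lt, up_lt]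
  have nP : ¬ Pr D c0 D.w t := fun h => by have := h.box; omega
  have hz : (a ≤ D.w ∧ D.w < b ∧ y0 ≤ t ∧ t < y1) ∧
      ¬ ((a ≤ D.w ∧ D.w < D.w - 1 ∧ 0 ≤ t ∧ t < D.h - 1) ∨ Pr D c0 D.w t) := by
    refine ⟨by omega, ?_⟩
    rintro (h | h)
    · omega
    · exact nP h
  by_cases ht' : t < r
  · have k1 := key t h0 (by omega)
    rw [G.cr t h0 (by omega) (by omega), if_pos ht'] at k1
    constructor
    · rintro ⟨-, h | h⟩
      · exact k1.1 h.2
      · omega
    · exact fun h => ⟨hz, Or.inl ⟨by omega, k1.2 h⟩⟩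
  · have k1 := key (t + 1) (by omega) (by omega)
    rw [G.cr (t + 1) (by omega) (by omega) (by omega), if_neg (by omega)] at k1
    constructor
    · rintro ⟨-, h | h⟩
      · omega
      · have h3 := h.2
        rw [k1] at h3
        revert h3; cases c0 <;> simp
    · intro h
      refine ⟨hz, Or.inr ⟨by omega, ?_⟩⟩
      rw [k1, h]
      simp

lemma tgZ (hk : k ∈ KII D c0) : ∀ e, Tg k.2 e → e ∈ ZQ a b y0 y1 := by
  have g3 := G.y0
  have g4 := G.y1
  have g5 := G.b1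
  have g6 := G.aw
  obtain ⟨t, h1, h2, rfl⟩ := mem_KII.1 hk
  intro e he
  unfold Tg at he
  simp only at he
  rcases he with rfl | rfl | rfl | rfl <;> rw [mem_ZQ] <;> omega

omit G in
lemma col_k (hk : k ∈ KII D c0) : ev k.2 = !c0 := by
  obtain ⟨t, h1, h2, rfl⟩ := mem_KII.1 hk
  cases c0
  · simp only [Bool.false_eq_true, if_false] at h2
    rw [Bool.not_false, ev_true]; exact h2
  · simp only [if_true] at h2
    rw [Bool.not_true, ev_false]; exact h2

/-- the caps of the column in removed labels -/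
lemma cap (hWo : ∀ x y, lt (x, y) ∈ Wo → ¬ D.InZ x y) (hS : ∀ y, lt (D.w, y) ∉ S) (hk : k ∈ KII D c0) :
    Cap (EII D a c0) (WrII D r a c0 (ZQ a b y0 y1) Wo S) (ev k.2) (gp k.2) (lt (kt k)) (lt (rt k)) := by
  obtain ⟨t, h1, h2, rfl⟩ := mem_KII.1 hk
  have w1 := G.wall_r (Wo := Wo) (S := S) hWo hS (t := t) (by omega) (by omega)
  have w2 := G.wall_r (Wo := Wo) (S := S) hWo hS (t := t - 1) (by omega) (by omega)
  have n1 : lt (D.w, t) ∉ EII D a c0 := by
    rw [mem_EII]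
    rintro (h | h)
    · omega
    · have := h.box; omega
  have n2 : lt (D.w, t - 1) ∉ EII D a c0 := by
    rw [mem_EII]
    rintro (h | h)
    · omega
    · have := h.box; omega
  refine cap_of (c := c0) (kt_Tg _) (rt_Tg _) (kt_ne_rt _ _) ?_ ?_ (u1 := (D.w, t)) (u2 := (D.w, t - 1)) ?_ n1 w1 n2
    w2 ?_
  · exact mem_union_right _ (mem_union_left _ (mem_image_of_mem _ hk))
  · exact mem_union_right _ (mem_union_right _ (mem_image_of_mem _ hk))
  · exact tg_all (Sd.R, (D.w, t))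
  · simp only
    rw [h2]
    cases c0 <;> simp

end GII

end Pool.Agent.H62.W
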