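import Mathlib
import Pool.Agent.H62.W.GeoII
import Pool.Agent.H42.W.RefD

set_option autoImplicit false
open Finset

/-! # The crossed wall: totals

`GII.rb` : helper42's box of the chart. `totII` : the totals over this box of the functional `FII` are means over the
labels of the plane, arbitrary weights on the column `w - 1`. `totII_four` : weight `1/4` on every tie, the column is
fair. `totII_zero` : everything tied, the column has the colour of the wall. -/

namespace Pool.Agent.H62.W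

open Pool.Agent.H75.Perc Pool.Agent.H75.TwoArm Pool.Agent.Q1 Pool.Agent.H33.Q1 Pool.Agent.H13.Q1
open Pool.Agent.H49.W (Leaf Ec_ties)
open Pool.Agent.H42.W (VF RB)
open Pool.Agent.H15.W (TotV Tot0V)
open Pool.Agent.Q1.M6e (Ec_det)
open Pool.Agent.H13.W (up dn)
open Pool.Agent.H54.W (Win Pos Zb mem_Zb CD NE)
open Pool.Agent.H21.W (DR mem_DR)
open Pool.Agent.H42.Sp (Sd Ix kt rt kt_odd rt_even kt_Tg rt_Tg cap_of)
open Pool.Agent.H13.R45 (ev gp ev_true ev_false Tg exists_at lab_at Ag)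
open Pool.Agent.H74.R45 (exists_lt)

variable {D : Win} {r x0 a b y0 y1 x y t : ℤ} {c0 : Bool} {Wo S : Finset (ℤ × ℤ)} {k : Ix}

namespace GII

/-- helper42's box of the chart (removed rows `0 ≤ y < h - 1`) -/
def rb (_G : GII D r x0 a b y0 y1 c0) (h1 : a + 8 ≤ D.w) (h2 : 9 ≤ D.h) (h3 : D.w + 2 ≤ b) : RB where
  w := D.w
  x0 := a
  H := D.h - 1
  L := b - D.w
  c := c0
  hx := h1
  hH := by omega
  hL := by omega

variable (G : GII D r x0 a b y0 y1 c0) (h1 : a + 8 ≤ D.w) (h2 : 9 ≤ D.h) (h3 : D.w + 2 ≤ b)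
include G

lemma bb_eq : (G.rb h1 h2 h3).Bb = BII D a := by
  ext e
  by_cases ho : (e.1 + e.2) % 2 = 1
  · obtain ⟨x, y, rfl⟩ := exists_lt ho
    rw [RB.mem_Bb]
    unfold BII
    rw [mem_ZQ]
    rfl
  · constructor
    · exact fun h => absurd (RB.odd_S h) ho
    · exact fun h => absurd (odd_ZQ e h) ho

lemma tt_eq : (G.rb h1 h2 h3).TT = TII D c0 := by
  ext e
  by_cases ho : (e.1 + e.2) % 2 = 1
  · obtain ⟨x, y, rfl⟩ := exists_lt ho
    rw [RB.mem_TT]
    unfold TII
    rw [mem_image]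
    constructor
    · rintro ⟨k1, k2, k3, k4, k5⟩
      change x = D.w - 1 at k1
      change y < D.h - 1 at k3
      change (if c0 = true then y + 1 < D.h - 1 else 0 < y) at k5
      subst k1
      cases c0
      · simp only [Bool.false_eq_true, if_false] at k5
        refine ⟨(Sd.R, (D.w, y)), mem_KII.2 ⟨y, by omega, by simp only [Bool.false_eq_true, if_false]; omega,
          rfl⟩, ?_⟩
        rw [kt_R, if_neg (by omega)]
      · simp only [if_true] at k5
        refine ⟨(Sd.R, (D.w, y + 1)), mem_KII.2 ⟨y + 1, by omega, by simp only [if_true]; omega, rfl⟩, ?_⟩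
        rw [kt_R, if_pos (by omega), add_sub_cancel_right]
    · rintro ⟨k, hk, he⟩
      obtain ⟨t, k1, k2, rfl⟩ := mem_KII.1 hk
      have h5 := lt_inj he
      rw [kt_R] at h5
      show x = D.w - 1 ∧ 0 ≤ y ∧ y < D.h - 1 ∧ (x + y) % 2 = 1 ∧
        (if c0 = true then y + 1 < D.h - 1 else 0 < y)
      cases c0
      · simp only [Bool.false_eq_true, if_false] at k2 ⊢
        rw [if_neg (by omega)] at h5
        simp only [Prod.mk.injEq] at h5
        omega
      · simp only [if_true] at k2 ⊢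
        rw [if_pos (by omega)] at h5
        simp only [Prod.mk.injEq] at h5
        omega
  · constructor
    · exact fun h => absurd (RB.odd_S h) ho
    · intro h
      obtain ⟨k, -, rfl⟩ := mem_image.1 h
      exact absurd (lt_odd _) ho

end GII

lemma KII_inj {l : Ix} (hk : k ∈ KII D c0) (hl : l ∈ KII D c0) (hne : k ≠ l) :
    lt (kt k) ≠ lt (kt l) ∧ lt (kt k) ≠ lt (rt l) ∧ lt (rt k) ≠ lt (rt l) := by
  obtain ⟨t, h1, h2, rfl⟩ := mem_KII.1 hk
  obtain ⟨t', h3, h4, rfl⟩ := mem_KII.1 hl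
  have hp : (D.w + t) % 2 = (D.w + t') % 2 := h2.trans h4.symm
  have hn : t ≠ t' := fun h => hne (by rw [h])
  refine ⟨fun h => ?_, fun h => kt_ne_rt _ _ (lt_inj h), fun h => ?_⟩
  · have h5 := lt_inj h
    rw [kt_R, kt_R] at h5
    split_ifs at h5 <;> simp only [Prod.mk.injEq] at h5 <;> omega
  · have h5 := lt_inj h
    rw [rt_R, rt_R] at h5
    split_ifs at h5 <;> simp only [Prod.mk.injEq] at h5 <;> omega

/-- the rows of the two tiles -/
lemma KII_rows (hk : k ∈ KII D c0) : ∃ t, (1 ≤ t ∧ t ≤ D.h - 2) ∧ ((D.w + t) % 2 = if c0 then 1 else 0) ∧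
    kt k = (D.w - 1, if c0 then t - 1 else t) ∧ rt k = (D.w - 1, if c0 then t else t - 1) := by
  obtain ⟨t, h1, h2, rfl⟩ := mem_KII.1 hk
  refine ⟨t, h1, h2, ?_, ?_⟩
  · rw [kt_R]
    cases c0
    · simp only [Bool.false_eq_true, if_false] at h2 ⊢
      rw [if_neg (by omega)]
    · simp only [if_true] at h2 ⊢
      rw [if_pos h2]
  · rw [rt_R]
    cases c0
    · simp only [Bool.false_eq_true, if_false] at h2 ⊢
      rw [if_neg (by omega)]
    · simp only [if_true] at h2 ⊢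
      rw [if_pos h2]

section tot

variable {ι : Type*} {Λ Dl : Set (ℤ × ℤ)} {X : ι → ℤ × ℤ} {Ψ : (ι → ι → Prop) → ℂ}

/-- **Totals over the column of the line, arbitrary weights.** `q` : open weights of the plane, `σ` : open weights
of the column in removed labels. -/
theorem totII (G : GII D r x0 a b y0 y1 c0) (hR : RemZ r Λ Dl (ZQ a b y0 y1))
    (hX : RemZ.Out r (ZQ a b y0 y1) X) (h1 : a + 8 ≤ D.w) (h2 : 9 ≤ D.h) (h3 : D.w + 2 ≤ b)
    (hWo : ∀ x y, lt (x, y) ∈ Wo → ¬ D.InZ x y) (hS : ∀ y, lt (D.w, y) ∉ S)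
    (hS' : Disjoint ((EII D a c0).image (pl r)) S) {q s : ℤ × ℤ → ℂ} {σ : ℤ → ℂ}
    (q0 : ∀ x y, x < D.w - 1 → q (lt (x, y)) = 1 / 2) (q1 : ∀ y, 0 ≤ y → y < r → q (lt (D.w - 1, y)) = σ y)
    (q2 : ∀ y, r < y → y < D.h → q (lt (D.w - 1, y)) = 1 - σ (y - 1))
    (hs : ∀ k ∈ KII D c0, mg (!c0) (σ (kt k).2) (σ (rt k).2) =
      if c0 = true then 1 - s (lt (kt k)) else s (lt (kt k))) :
    TotV (VF (FII D r x0 a c0 (ZQ a b y0 y1) Wo S (PhiG Λ Dl X Ψ)) (G.rb h1 h2 h3).Bb (G.rb h1 h2 h3).Bb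
      (G.rb h1 h2 h3).TT RB.fm (G.rb h1 h2 h3).co) (G.rb h1 h2 h3).Bb (G.rb h1 h2 h3).TT s =
      Ec q (E0II D r x0 (ZQ a b y0 y1) ∪ (EII D a c0).image (pl r))
        (fun ω => PhiG Λ Dl X Ψ (ω ∪ WpII D Wo S)) := by
  have g1 := G.r0
  have g2 := G.r1
  rw [G.bb_eq, G.tt_eq]
  -- weights in removed labels
  set w1 : ℤ × ℤ → ℂ := fun e => if (tt e).1 < D.w - 1 then 1 / 2 else σ (tt e).2 with hw1
  have hlt : ∀ x y, w1 (lt (x, y)) = if x < D.w - 1 then 1 / 2 else σ y := by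
    intro x y; rw [hw1]; simp only [tt_lt]
  have hdW := G.disj_W (Wo := Wo) (S := S) hWo hS'
  have hdV : Disjoint (WpII D Wo S \ (ZQ a b y0 y1).image (pl r)) ((ZQ a b y0 y1).image (pl r)) :=
    sdiff_disjoint
  have key := tot_plane (B := BII D a) (Bb := BII D a) (K := KII D c0) (Wp := WpII D Wo S)
    (Z := ZQ a b y0 y1) (E0 := E0II D r x0 (ZQ a b y0 y1)) (r := r) (Φ := PhiG Λ Dl X Ψ)
    (q0 := fun _ => (1 / 2 : ℂ)) (q1 := w1) (q := q) (s := s)
    (o := fun k => ev k.2) (v := fun k => gp k.2) (e1 := fun k => lt (kt k)) (e2 := fun k => lt (rt k))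
    (fm := RB.fm) (co := (G.rb h1 h2 h3).co) (Finset.Subset.refl _) odd_ZQ (fun k hk => G.cap hWo hS hk)
    (fun k hk => hR.leaf hX Ψ GII.disj_E0 hdV (grid_V (G.tgZ hk)).1 (grid_V (G.tgZ hk)).2)
    (fun k hk l hl hne => KII_inj hk hl hne) ?_ ?_ ?_ ?_ G.e_sub GII.disj_E0 hdW ?_ ?_ ?_
  · exact key
  · intro k hk h
    obtain ⟨t, -, -, h4, -⟩ := KII_rows hk
    simp only [h4] at h
    unfold BII at h
    rw [mem_ZQ] at h
    omega
  · intro k hk h
    obtain ⟨t, -, -, -, h4⟩ := KII_rows hk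
    simp only [h4] at h
    unfold BII at h
    rw [mem_ZQ] at h
    omega
  · intro e he
    unfold BII at he
    obtain ⟨x, y, rfl⟩ := exists_lt (odd_ZQ e he)
    rw [mem_ZQ] at he
    rw [hlt, if_pos he.2.1]
  · intro k hk
    have h4 := hs k hk
    obtain ⟨t, -, -, h5, h6⟩ := KII_rows hk
    have e1 : w1 (lt (kt k)) = σ (kt k).2 := by rw [h5, hlt, if_neg (lt_irrefl _)]
    have e2 : w1 (lt (rt k)) = σ (rt k).2 := by rw [h6, hlt, if_neg (lt_irrefl _)]
    rw [e1, e2, GII.col_k hk, h4]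
    rfl
  · intro e he hr
    obtain ⟨x, y, rfl⟩ := exists_lt (odd_EII he)
    change lt (x, y) ∈ EII D a c0 at he
    rw [ht_lt] at hr
    rw [mem_EII] at he
    rw [hlt]
    rcases he with h | h
    · rw [if_pos h.2.1, q0 _ _ h.2.1]
    · have hb := h.box
      rw [hb.1, if_neg (lt_irrefl _), q1 _ hb.2.1 (by omega)]
  · intro e he hr
    obtain ⟨x, y, rfl⟩ := exists_lt (odd_EII he)
    change lt (x, y) ∈ EII D a c0 at he
    rw [ht_lt] at hr
    rw [mem_EII] at he
    rw [up_lt, hlt]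
    rcases he with h | h
    · rw [if_pos h.2.1, q0 _ _ h.2.1]; norm_num
    · have hb := h.box
      rw [hb.1, if_neg (lt_irrefl _), q2 _ (by omega) (by omega), add_sub_cancel_right]
  · intro e he
    classical
    have ho : (e.1 + e.2) % 2 = 1 := by
      unfold E0II at he
      exact Win.odd_EJ (mem_filter.1 he).1
    obtain ⟨x, y, rfl⟩ := exists_lt ho
    rw [G.mem_E0] at he
    have := G.aw
    exact q0 x y (by omega)

/-- **The column is fair.** -/
theorem totII_four (G : GII D r x0 a b y0 y1 c0) (hR : RemZ r Λ Dl (ZQ a b y0 y1))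
    (hX : RemZ.Out r (ZQ a b y0 y1) X) (h1 : a + 8 ≤ D.w) (h2 : 9 ≤ D.h) (h3 : D.w + 2 ≤ b)
    (hWo : ∀ x y, lt (x, y) ∈ Wo → ¬ D.InZ x y) (hS : ∀ y, lt (D.w, y) ∉ S)
    (hS' : Disjoint ((EII D a c0).image (pl r)) S) :
    TotV (VF (FII D r x0 a c0 (ZQ a b y0 y1) Wo S (PhiG Λ Dl X Ψ)) (G.rb h1 h2 h3).Bb (G.rb h1 h2 h3).Bb
      (G.rb h1 h2 h3).TT RB.fm (G.rb h1 h2 h3).co) (G.rb h1 h2 h3).Bb (G.rb h1 h2 h3).TT (fun _ => 1 / 4) =
      Ec (fun _ => (1 / 2 : ℂ)) (E0II D r x0 (ZQ a b y0 y1) ∪ (EII D a c0).image (pl r))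
        (fun ω => PhiG Λ Dl X Ψ (ω ∪ WpII D Wo S)) := by
  refine totII (q := fun _ => (1 / 2 : ℂ)) (σ := fun _ => 1 / 2) G hR hX h1 h2 h3 hWo hS hS'
    (fun _ _ _ => rfl) (fun _ _ _ => rfl) (fun _ _ _ => by norm_num) (fun k hk => ?_)
  cases c0
  · simp [mg]; norm_num
  · simp [mg]; norm_num

open Classical in
/-- the naturally open tiles of the pairs of the column -/
noncomputable def CoII (D : Win) (r a : ℤ) (c0 : Bool) : Finset (ℤ × ℤ) :=
  ((EII D a c0).image (pl r)).filter fun e => (tt e).1 = D.w - 1 ∧ D.cr (tt e).2 = true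

/-- the fair labels of the band in the plane -/
noncomputable def BpII (D : Win) (r a : ℤ) : Finset (ℤ × ℤ) := (BII D a).image (pl r)

lemma mem_CoII : lt (x, y) ∈ CoII D r a c0 ↔ lt (x, y) ∈ (EII D a c0).image (pl r) ∧ x = D.w - 1 ∧
    D.cr y = true := by
  classical
  unfold CoII
  rw [mem_filter, tt_lt]

lemma mem_BpII : lt (x, y) ∈ BpII D r a ↔ a ≤ x ∧ x < D.w - 1 ∧
    ((y < r ∧ 0 ≤ y ∧ y < D.h - 1) ∨ (r < y ∧ 0 ≤ y - 1 ∧ y < D.h)) := by
  unfold BpII BII
  rw [mem_image]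
  constructor
  · rintro ⟨e, h1, h2⟩
    obtain ⟨x', y', rfl⟩ := exists_lt (odd_ZQ e h1)
    rw [mem_ZQ] at h1
    rw [pl_lt] at h2
    split_ifs at h2 with h3
    · have := lt_inj h2
      simp only [Prod.mk.injEq] at this
      omega
    · have := lt_inj h2
      simp only [Prod.mk.injEq] at this
      omega
  · rintro ⟨h1, h2, h3 | h3⟩
    · exact ⟨lt (x, y), mem_ZQ.2 (by omega), by rw [pl_lt, if_pos h3.1]⟩
    · refine ⟨lt (x, y - 1), mem_ZQ.2 (by omega), ?_⟩
      rw [pl_lt, if_neg (by omega), sub_add_cancel]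

/-- **Everything tied**: the column has the colour of the wall. -/
theorem totII_zero (G : GII D r x0 a b y0 y1 c0) (hR : RemZ r Λ Dl (ZQ a b y0 y1))
    (hX : RemZ.Out r (ZQ a b y0 y1) X) (h1 : a + 8 ≤ D.w) (h2 : 9 ≤ D.h) (h3 : D.w + 2 ≤ b)
    (hWo : ∀ x y, lt (x, y) ∈ Wo → ¬ D.InZ x y) (hS : ∀ y, lt (D.w, y) ∉ S)
    (hS' : Disjoint ((EII D a c0).image (pl r)) S) :
    TotV (VF (FII D r x0 a c0 (ZQ a b y0 y1) Wo S (PhiG Λ Dl X Ψ)) (G.rb h1 h2 h3).Bb (G.rb h1 h2 h3).Bb
      (G.rb h1 h2 h3).TT RB.fm (G.rb h1 h2 h3).co) (G.rb h1 h2 h3).Bb (G.rb h1 h2 h3).TT (fun _ => 0) =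
      Ec (fun _ => (1 / 2 : ℂ)) (E0II D r x0 (ZQ a b y0 y1) ∪ BpII D r a)
        (fun ω => PhiG Λ Dl X Ψ (ω ∪ (CoII D r a c0 ∪ WpII D Wo S))) := by
  classical
  have g1 := G.r0
  have g2 := G.r1
  have g6 := G.aw
  set q : ℤ × ℤ → ℂ := fun e => if (tt e).1 < D.w - 1 then 1 / 2 else if D.cr (tt e).2 = true then 1 else 0
    with hq
  have hlt : ∀ x y, q (lt (x, y)) = if x < D.w - 1 then 1 / 2 else if D.cr y = true then 1 else 0 := by
    intro x y; rw [hq]; simp only [tt_lt]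
  have hcol : ∀ y, q (lt (D.w - 1, y)) = if D.cr y = true then 1 else 0 := by
    intro y; rw [hlt, if_neg (lt_irrefl _)]
  rw [totII (q := q) (σ := fun _ => if c0 = true then 1 else 0) (Ψ := Ψ) G hR hX h1 h2 h3 hWo hS hS'
    (fun x y h => by rw [hlt, if_pos h]) (fun y hy0 hy => ?_) (fun y hy hyh => ?_) (fun k hk => ?_)]
  · -- the labels of the column are fixed
    have e1 : E0II D r x0 (ZQ a b y0 y1) ∪ (EII D a c0).image (pl r) =
        (E0II D r x0 (ZQ a b y0 y1) ∪ BpII D r a) ∪ ((EII D a c0).image (pl r)).filter fun e =>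
          (tt e).1 = D.w - 1 := by
      ext e
      rw [mem_union, mem_union, mem_union, mem_filter]
      constructor
      · rintro (h | h)
        · exact Or.inl (Or.inl h)
        · obtain ⟨e', h4, h5⟩ := mem_image.1 h
          unfold EII at h4
          rcases mem_union.1 h4 with h6 | h6
          · exact Or.inl (Or.inr (mem_image.2 ⟨e', h6, h5⟩))
          · right
            refine ⟨h, ?_⟩
            obtain ⟨x, y, rfl⟩ := exists_lt (odd_EII h4)
            rw [mem_pairs] at h6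
            have h7 := h6.box
            rw [← h5, pl_lt]
            split_ifs <;> rw [tt_lt] <;> exact h7.1
      · rintro ((h | h) | h)
        · exact Or.inl h
        · right
          unfold BpII at h
          obtain ⟨e', h4, h5⟩ := mem_image.1 h
          exact mem_image.2 ⟨e', mem_union_left _ h4, h5⟩
        · exact Or.inr h.1
    have hd : Disjoint (E0II D r x0 (ZQ a b y0 y1) ∪ BpII D r a)
        (((EII D a c0).image (pl r)).filter fun e => (tt e).1 = D.w - 1) := by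
      rw [disjoint_right]
      intro e he he'
      obtain ⟨h4, h5⟩ := mem_filter.1 he
      rcases mem_union.1 he' with h | h
      · exact disjoint_left.1 GII.disj_E0 h (image_subset_image G.e_sub h4)
      · unfold BpII BII at h
        obtain ⟨e', h6, h7⟩ := mem_image.1 h
        obtain ⟨x, y, rfl⟩ := exists_lt (odd_ZQ e' h6)
        rw [mem_ZQ] at h6
        rw [pl_lt] at h7
        split_ifs at h7
        · rw [← h7, tt_lt] at h5
          simp only at h5
          omega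
        · rw [← h7, tt_lt] at h5
          simp only at h5
          omega
    rw [e1, Ec_union q hd]
    have e2 : ∀ ω, Ec q (((EII D a c0).image (pl r)).filter fun e => (tt e).1 = D.w - 1)
        (fun ω2 => PhiG Λ Dl X Ψ (ω ∪ ω2 ∪ WpII D Wo S)) =
        PhiG Λ Dl X Ψ (ω ∪ (CoII D r a c0 ∪ WpII D Wo S)) := by
      intro ω
      rw [Ec_det (O := CoII D r a c0)]
      · rw [union_assoc]
      · intro e he
        unfold CoII at he
        obtain ⟨h4, h5⟩ := mem_filter.1 he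
        exact mem_filter.2 ⟨h4, h5.1⟩
      · intro e he
        unfold CoII at he
        obtain ⟨h4, h5⟩ := mem_filter.1 he
        rw [hq]
        simp only
        rw [if_neg (by omega), if_pos h5.2]
      · intro e he hn
        obtain ⟨h4, h5⟩ := mem_filter.1 he
        rw [hq]
        simp only
        rw [if_neg (by omega), if_neg]
        intro h6
        exact hn (mem_filter.2 ⟨h4, h5, h6⟩)
    rw [Ec_congr fun ω _ => e2 ω]
    refine Ec_congr_q (fun e he => ?_) _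
    rcases mem_union.1 he with h | h
    · have ho : (e.1 + e.2) % 2 = 1 := by
        unfold E0II at h
        exact Win.odd_EJ (mem_filter.1 h).1
      obtain ⟨x, y, rfl⟩ := exists_lt ho
      rw [G.mem_E0] at h
      rw [hlt, if_pos (by omega)]
    · have ho : (e.1 + e.2) % 2 = 1 := by
        unfold BpII BII at h
        obtain ⟨e', h6, rfl⟩ := mem_image.1 h
        obtain ⟨x, y, rfl⟩ := exists_lt (odd_ZQ e' h6)
        rw [pl_lt]
        split_ifs <;> exact lt_odd _
      obtain ⟨x, y, rfl⟩ := exists_lt ho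
      rw [mem_BpII] at h
      rw [hlt, if_pos (by omega)]
  · rw [hcol, G.cr y hy0 (by omega) (by omega), if_pos hy]
  · rw [hcol, G.cr y (by omega) hyh (by omega), if_neg (show ¬ y < r by omega)]
    cases c0 <;> simp
  · cases c0 <;> simp [mg]

end tot

end Pool.Agent.H62.W
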