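import Mathlib
import Pool.Agent.H62.W.TotII

set_option autoImplicit false
open Finset

/-! # The crossed wall: the true fixed labels of the zone

`WtII` = `WrII ∪ ROII` : the fixed open removed labels of the functional `FII`. `NWo` : the fixed labels of the plane
are natural in the zone off the row `r`. Then: band tiles and ties are not in `WtII` (`wt_band`, `wt_kt`), the removed tiles of the
pairs have the colour `!c0` (`wt_rt`), the wall has the colour `c0` (`wt_wall`), the rows below have the colour `cb`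
(`wt_bot`), the rows above the colour `!ct` (`wt_top`), the turn tiles have the fixed states `wt_tb`, `wt_ta`, the
unpaired tiles the states of `S` (`wt_lo`, `wt_hi`), nothing off the zone (`wt_out`). -/

namespace Pool.Agent.H62.W

open Pool.Agent.H75.Perc Pool.Agent.H75.TwoArm Pool.Agent.Q1 Pool.Agent.H33.Q1 Pool.Agent.H13.Q1
open Pool.Agent.H13.W (up dn)
open Pool.Agent.H54.W (Win Pos)
open Pool.Agent.H42.Sp (Sd Ix kt rt kt_odd rt_even)
open Pool.Agent.H13.R45 (ev gp ev_true ev_false Tg)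
open Pool.Agent.H74.R45 (exists_lt)

/-- the fixed open labels of the zone, removed labels -/
noncomputable def WtII (D : Win) (r a : ℤ) (c0 : Bool) (Z Wo S : Finset (ℤ × ℤ)) : Finset (ℤ × ℤ) :=
  WrII D r a c0 Z Wo S ∪ ROII D c0

/-- **The fixed labels of the plane are natural in the zone** off the row `r`, `S` : frozen tiles of the column
`w - 1`. -/
structure NWo (D : Win) (r a b y0 y1 : ℤ) (c0 : Bool) (Wo S : Finset (ℤ × ℤ)) : Prop where
  o : ∀ x y, lt (x, y) ∈ Wo → ¬ D.InZ x y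
  f : ∀ x y, ¬ D.InZ x y → a ≤ x → x < b → y0 ≤ y → y ≤ y1 → y ≠ r → (lt (x, y) ∈ Wo ↔ D.fill x y = true)
  s : ∀ x y, lt (x, y) ∈ S → x = D.w - 1 ∧ 0 ≤ y ∧ y < D.h
  d : Disjoint ((EII D a c0).image (pl r)) S

variable {D : Win} {r x0 a b y0 y1 x y t : ℤ} {c0 : Bool} {Wo S : Finset (ℤ × ℤ)} {k : Ix}

lemma mem_ROII : lt (x, y) ∈ ROII D c0 ↔ c0 = false ∧ ∃ k ∈ KII D c0, rt k = (x, y) := by
  unfold ROII RO
  rw [mem_image]
  constructor
  · rintro ⟨k, h1, h2⟩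
    obtain ⟨h3, h4⟩ := mem_filter.1 h1
    simp only at h4
    rw [GII.col_k h3] at h4
    exact ⟨by simpa using h4, k, h3, lt_inj h2⟩
  · rintro ⟨h1, k, h2, h3⟩
    refine ⟨k, mem_filter.2 ⟨h2, ?_⟩, by rw [h3]⟩
    simp only
    rw [GII.col_k h2, h1]; rfl

lemma odd_ROII {e : ℤ × ℤ} (h : e ∈ ROII D c0) : (e.1 + e.2) % 2 = 1 := by
  unfold ROII RO at h
  obtain ⟨k, -, rfl⟩ := mem_image.1 h
  exact lt_odd _

lemma odd_WtII {e : ℤ × ℤ} (h : e ∈ WtII D r a c0 (ZQ a b y0 y1) Wo S) : (e.1 + e.2) % 2 = 1 := by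
  unfold WtII at h
  rcases mem_union.1 h with h | h
  · unfold WrII at h
    exact odd_ZQ e (mem_sdiff.1 (rmI_sub h)).1
  · exact odd_ROII h

namespace NWo

variable (N : NWo D r a b y0 y1 c0 Wo S)
include N

lemma hS : ∀ y, lt (D.w, y) ∉ S := fun y h => by have := N.s _ _ h; omega

/-- a fixed tile of the plane off the turn tiles and off the column `w - 1` -/
lemma mem_Wp (h1 : a ≤ x) (h2 : x < b) (h3 : y0 ≤ y) (h4 : y ≤ y1) (h5 : ¬ D.InE (fun _ => D.w) x y)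
    (h6 : ¬ D.TA (fun _ => D.w) x y) (h7 : ¬ D.TB (fun _ => D.w) x y)
    (h8 : ¬ (x = D.w - 1 ∧ 0 ≤ y ∧ y < D.h)) (h9 : y ≠ r) :
    lt (x, y) ∈ WpII D Wo S ↔ D.fill x y = true := by
  unfold WpII Win.WJ
  rw [mem_union, mem_union, Win.mem_WR]
  have n5 : lt (x, y) ∉ S := fun h => h8 (N.s _ _ h)
  by_cases hz : D.InZ x y
  · have n4 : lt (x, y) ∉ Wo := fun h => N.o _ _ h hz
    unfold Win.InO
    constructor
    · rintro ((⟨-, -, h | h | h⟩ | h) | h)
      · exact absurd h.1 h6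
      · exact absurd h.1 h7
      · exact h.2.2
      · exact absurd h n4
      · exact absurd h n5
    · exact fun h => Or.inl (Or.inl ⟨hz, h5, Or.inr (Or.inr ⟨h6, h7, h⟩)⟩)
  · have := N.f x y hz h1 h2 h3 h4
    unfold Win.InO
    tauto

/-- the turn tiles of the plane -/
lemma mem_TB : lt (D.w - 1, -1) ∈ WpII D Wo S ↔ D.w % 2 = 1 := by
  have hh := D.hh
  have hT : D.TB (fun _ => D.w) (D.w - 1) (-1) := Or.inr ⟨rfl, rfl⟩
  have hz := Win.TB.not_InE (posw D) hT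
  have hlo := D.hlo 0 le_rfl (by omega)
  have haw := D.aw 0 le_rfl (by omega)
  have hZ : D.InZ (D.w - 1) (-1) := by unfold Win.InZ; omega
  have n1 : lt (D.w - 1, -1) ∉ Wo := fun h => N.o _ _ h hZ
  have n2 : lt (D.w - 1, -1) ∉ S := fun h => by have := N.s _ _ h; omega
  have n3 : ¬ D.TA (fun _ => D.w) (D.w - 1) (-1) := fun h => by
    unfold Win.TA at h; omega
  unfold WpII Win.WJ
  rw [mem_union, mem_union, Win.mem_WR]
  unfold Win.InO
  constructor
  · rintro ((⟨-, -, h | h | h⟩ | h) | h)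
    · exact absurd h.1 n3
    · omega
    · exact absurd hT h.2.1
    · exact absurd h n1
    · exact absurd h n2
  · intro h
    exact Or.inl (Or.inl ⟨hZ, hz, Or.inr (Or.inl ⟨hT, by omega⟩)⟩)

lemma mem_TA : lt (D.w - 1, D.h) ∈ WpII D Wo S ↔ (D.w + D.h) % 2 = 1 := by
  have hh := D.hh
  have hT : D.TA (fun _ => D.w) (D.w - 1) D.h := Or.inr ⟨rfl, rfl⟩
  have hz := Win.TA.not_InE (posw D) hT
  have hlo := D.hlo 0 le_rfl (by omega)
  have haw := D.aw 0 le_rfl (by omega)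
  have hZ : D.InZ (D.w - 1) D.h := by unfold Win.InZ; omega
  have n1 : lt (D.w - 1, D.h) ∉ Wo := fun h => N.o _ _ h hZ
  have n2 : lt (D.w - 1, D.h) ∉ S := fun h => by have := N.s _ _ h; omega
  have n3 : ¬ D.TB (fun _ => D.w) (D.w - 1) D.h := fun h => by
    unfold Win.TB at h; omega
  unfold WpII Win.WJ
  rw [mem_union, mem_union, Win.mem_WR]
  unfold Win.InO
  constructor
  · rintro ((⟨-, -, h | h | h⟩ | h) | h)
    · omega
    · exact absurd h.1 n3
    · exact absurd hT h.1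
    · exact absurd h n1
    · exact absurd h n2
  · intro h
    exact Or.inl (Or.inl ⟨hZ, hz, Or.inl ⟨hT, by omega⟩⟩)

/-- tiles of the column `w - 1` -/
lemma mem_col (h0 : 0 ≤ y) (h1 : y < D.h) : lt (D.w - 1, y) ∈ WpII D Wo S ↔ lt (D.w - 1, y) ∈ S := by
  have hh := D.hh
  have haw := D.aw y h0 h1
  have hlo := D.hlo y h0 h1
  have hE : D.InE (fun _ => D.w) (D.w - 1) y := Or.inl ⟨h0, h1, by omega, by omega⟩
  have n1 : lt (D.w - 1, y) ∉ Wo := fun h => N.o _ _ h (hE.inZ (posw D))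
  unfold WpII Win.WJ
  rw [mem_union, mem_union, Win.mem_WR]
  constructor
  · rintro ((h | h) | h)
    · exact absurd hE h.2.1
    · exact absurd h n1
    · exact h
  · exact fun h => Or.inr h

end NWo

section main

variable (G : GII D r x0 a b y0 y1 c0) (N : NWo D r a b y0 y1 c0 Wo S)

/-- the true fixed labels in terms of the labels of the plane -/
lemma mem_WtII : lt (x, y) ∈ WtII D r a c0 (ZQ a b y0 y1) Wo S ↔
    ((a ≤ x ∧ x < b ∧ y0 ≤ y ∧ y < y1) ∧ lt (x, y) ∉ EII D a c0 ∧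
      ((y < r ∧ lt (x, y) ∈ WpII D Wo S) ∨ (r ≤ y ∧ lt (x, y + 1) ∉ WpII D Wo S))) ∨
    (c0 = false ∧ ∃ k ∈ KII D c0, rt k = (x, y)) := by
  unfold WtII
  rw [mem_union, mem_ROII]
  unfold WrII
  rw [mem_rmI, mem_sdiff, mem_ZQ, ht_lt, up_lt]
  have e1 : 2 * y + 1 < 2 * r + 1 ↔ y < r := by omega
  have e2 : 2 * r + 1 ≤ 2 * y + 1 ↔ r ≤ y := by omega
  rw [e1, e2]
  constructor
  · rintro (⟨⟨h1, h2⟩, h3⟩ | h)
    · exact Or.inl ⟨h1, h2, h3⟩
    · exact Or.inr h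
  · rintro (⟨h1, h2, h3⟩ | h)
    · exact Or.inl ⟨⟨h1, h2⟩, h3⟩
    · exact Or.inr h

lemma rt_E (hk : k ∈ KII D c0) : lt (rt k) ∈ EII D a c0 :=
  mem_union_right _ (mem_union_right _ (mem_image_of_mem _ hk))

lemma kt_E (hk : k ∈ KII D c0) : lt (kt k) ∈ EII D a c0 :=
  mem_union_right _ (mem_union_left _ (mem_image_of_mem _ hk))

/-- a label which is not fixed is in `WtII` only if it is a removed tile of a pair -/
lemma wt_E {e : ℤ × ℤ} (he : e ∈ EII D a c0) (hn : ∀ k ∈ KII D c0, lt (rt k) ≠ e) :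
    e ∉ WtII D r a c0 (ZQ a b y0 y1) Wo S := by
  obtain ⟨x, y, rfl⟩ := exists_lt (odd_EII he)
  rw [mem_WtII]
  rintro (⟨-, h, -⟩ | ⟨-, k, h, h'⟩)
  · exact h he
  · exact hn k h (by rw [h'])

/-- (a) band tiles -/
lemma wt_band (h1 : a ≤ x) (h2 : x < D.w - 1) (h3 : 0 ≤ y) (h4 : y < D.h - 1) :
    lt (x, y) ∉ WtII D r a c0 (ZQ a b y0 y1) Wo S := by
  refine wt_E (mem_EII.2 (Or.inl ⟨h1, h2, h3, h4⟩)) fun k hk h => ?_
  obtain ⟨t, -, -, -, h5⟩ := KII_rows hk
  have h6 := lt_inj h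
  rw [h5] at h6
  simp only [Prod.mk.injEq] at h6
  omega

/-- (a) ties -/
lemma wt_kt (hk : k ∈ KII D c0) : lt (kt k) ∉ WtII D r a c0 (ZQ a b y0 y1) Wo S :=
  wt_E (kt_E hk) fun l _ h => kt_ne_rt k l (lt_inj h).symm

lemma wt_TII {e : ℤ × ℤ} (he : e ∈ TII D c0) : e ∉ WtII D r a c0 (ZQ a b y0 y1) Wo S := by
  unfold TII at he
  obtain ⟨k, hk, rfl⟩ := mem_image.1 he
  exact wt_kt hk

/-- (b) the removed tiles of the pairs -/
lemma wt_rt (hk : k ∈ KII D c0) : lt (rt k) ∈ WtII D r a c0 (ZQ a b y0 y1) Wo S ↔ c0 = false := by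
  rw [mem_WtII (x := (rt k).1) (y := (rt k).2)]
  constructor
  · rintro (⟨-, h, -⟩ | ⟨h, -⟩)
    · exact absurd (rt_E hk) h
    · exact h
  · exact fun h => Or.inr ⟨h, k, hk, rfl⟩

/-- nothing off the zone -/
lemma wt_out {e : ℤ × ℤ} (G : GII D r x0 a b y0 y1 c0) (he : e ∈ WtII D r a c0 (ZQ a b y0 y1) Wo S) :
    e ∈ ZQ a b y0 y1 := by
  unfold WtII at he
  rcases mem_union.1 he with h | h
  · unfold WrII at h
    exact (mem_sdiff.1 (rmI_sub h)).1
  · unfold ROII RO at h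
    obtain ⟨k, hk, rfl⟩ := mem_image.1 h
    exact G.e_sub (rt_E (mem_filter.1 hk).1)

include G N

/-- tiles of the zone off the window and off the turn tiles -/
lemma wt_nat (h1 : a ≤ x) (h2 : x < b) (h3 : y0 ≤ y) (h4 : y < y1)
    (h5 : D.w ≤ x ∨ ((y < 0 ∨ D.h - 1 ≤ y) ∧ x ≠ D.w - 1) ∨ ((y < -1 ∨ D.h ≤ y) ∧ x = D.w - 1)) :
    lt (x, y) ∈ WtII D r a c0 (ZQ a b y0 y1) Wo S ↔
      (if y < r then D.fill x y = true else D.fill x (y + 1) = false) := by
  have g1 := G.r0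
  have g2 := G.r1
  have g3 := G.y0
  have g4 := G.y1
  have g5 := G.b1
  have g6 := G.aw
  have nK : ¬ ∃ k ∈ KII D c0, rt k = (x, y) := by
    rintro ⟨k, hk, h⟩
    obtain ⟨t, h6, -, -, h7⟩ := KII_rows hk
    rw [h7] at h
    simp only [Prod.mk.injEq] at h
    obtain ⟨h8, h9⟩ := h
    split_ifs at h9 <;> omega
  have nE : lt (x, y) ∉ EII D a c0 := by
    rw [mem_EII]
    rintro (h | h)
    · omega
    · have := h.box; omega
  rw [mem_WtII]
  have key : ∀ y', y0 ≤ y' → y' ≤ y1 → (y' = y ∧ y < r ∨ y' = y + 1 ∧ r ≤ y) →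
      (lt (x, y') ∈ WpII D Wo S ↔ D.fill x y' = true) := by
    intro y' k1 k2 k3
    refine N.mem_Wp h1 h2 k1 k2 (fun h => ?_) (fun h => ?_) (fun h => ?_) (by omega) (by omega)
    · have := h.z (posw D)
      unfold Win.InE Win.InU Win.RE Win.RW Win.RB Win.RT at h
      simp only at h
      omega
    · unfold Win.TA at h
      simp only at h
      omega
    · unfold Win.TB at h
      simp only at h
      omega
  by_cases hr : y < r
  · rw [if_pos hr, ← key y h3 h4.le (Or.inl ⟨rfl, hr⟩)]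
    constructor
    · rintro (⟨-, -, h | h⟩ | ⟨-, h⟩)
      · exact h.2
      · omega
      · exact absurd h nK
    · exact fun h => Or.inl ⟨⟨h1, h2, h3, h4⟩, nE, Or.inl ⟨hr, h⟩⟩
  · rw [if_neg hr]
    have k1 := key (y + 1) (by omega) (by omega) (Or.inr ⟨rfl, by omega⟩)
    have k2 : D.fill x (y + 1) = false ↔ lt (x, y + 1) ∉ WpII D Wo S := by
      rw [k1]; simp
    rw [k2]
    constructor
    · rintro (⟨-, -, h | h⟩ | ⟨-, h⟩)
      · omega
      · exact h.2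
      · exact absurd h nK
    · exact fun h => Or.inl ⟨⟨h1, h2, h3, h4⟩, nE, Or.inr ⟨by omega, h⟩⟩

/-- (c) the wall -/
lemma wt_wall (h1 : D.w ≤ x) (h2 : x < b) (h3 : 0 ≤ y) (h4 : y < D.h - 1) :
    lt (x, y) ∈ WtII D r a c0 (ZQ a b y0 y1) Wo S ↔ c0 = true := by
  have g1 := G.r0
  have g2 := G.r1
  have g3 := G.y0
  have g4 := G.y1
  have g6 := G.aw
  rw [wt_nat G N (by omega) h2 (by omega) (by omega) (Or.inl h1)]
  unfold Win.fill
  by_cases hr : y < r
  · have := D.aw y h3 (by omega)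
    rw [if_pos hr, if_neg (by omega), if_neg (by omega), if_neg (by omega), G.cr y h3 (by omega) (by omega),
      if_pos hr]
  · have := D.aw (y + 1) (by omega) (by omega)
    rw [if_neg hr, if_neg (by omega), if_neg (by omega), if_neg (by omega),
      G.cr (y + 1) (by omega) (by omega) (by omega), if_neg (by omega)]
    simp

/-- (d) the rows below -/
lemma wt_bot (h1 : a ≤ x) (h2 : x < b) (h3 : y0 ≤ y) (h4 : y < 0) (h5 : ¬ (x = D.w - 1 ∧ y = -1)) :
    lt (x, y) ∈ WtII D r a c0 (ZQ a b y0 y1) Wo S ↔ D.cb = true := by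
  have g1 := G.r0
  have g2 := G.r1
  have g4 := G.y1
  rw [wt_nat G N h1 h2 h3 (by omega) (by omega)]
  unfold Win.fill
  rw [if_pos (by omega), if_pos h4]

/-- (d) the rows above -/
lemma wt_top (h1 : a ≤ x) (h2 : x < b) (h3 : D.h - 1 ≤ y) (h4 : y < y1) (h5 : ¬ (x = D.w - 1 ∧ y = D.h - 1)) :
    lt (x, y) ∈ WtII D r a c0 (ZQ a b y0 y1) Wo S ↔ D.ct = false := by
  have g1 := G.r0
  have g2 := G.r1
  have g3 := G.y0
  rw [wt_nat G N h1 h2 (by omega) h4 (by omega)]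
  unfold Win.fill
  rw [if_neg (by omega), if_neg (by omega), if_pos (by omega)]

/-- the lower turn tile -/
lemma wt_tb : lt (D.w - 1, -1) ∈ WtII D r a c0 (ZQ a b y0 y1) Wo S ↔ D.w % 2 = 1 := by
  have g1 := G.r0
  have g2 := G.r1
  have g3 := G.y0
  have g4 := G.y1
  have g5 := G.b1
  have g6 := G.aw
  rw [mem_WtII, ← N.mem_TB]
  have nE : lt (D.w - 1, -1) ∉ EII D a c0 := by
    rw [mem_EII]
    rintro (h | h)
    · omega
    · have := h.box; omega
  constructor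
  · rintro (⟨-, -, h | h⟩ | ⟨-, k, hk, h⟩)
    · exact h.2
    · omega
    · obtain ⟨t, h6, -, -, h7⟩ := KII_rows hk
      rw [h7] at h
      simp only [Prod.mk.injEq] at h
      obtain ⟨h8, h9⟩ := h
      split_ifs at h9 <;> omega
  · exact fun h => Or.inl ⟨by omega, nE, Or.inl ⟨by omega, h⟩⟩

/-- the upper turn tile -/
lemma wt_ta (h : D.h - 1 < y1) : lt (D.w - 1, D.h - 1) ∈ WtII D r a c0 (ZQ a b y0 y1) Wo S ↔
    (D.w + D.h) % 2 = 0 := by
  have g1 := G.r0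
  have g2 := G.r1
  have g3 := G.y0
  have g4 := G.y1
  have g5 := G.b1
  have g6 := G.aw
  rw [mem_WtII, sub_add_cancel]
  have hT := N.mem_TA
  have nE : lt (D.w - 1, D.h - 1) ∉ EII D a c0 := by
    rw [mem_EII]
    rintro (h | h)
    · omega
    · have := h.box; omega
  constructor
  · rintro (⟨-, -, h | h⟩ | ⟨-, k, hk, h⟩)
    · omega
    · have h2 := h.2
      rw [hT] at h2
      omega
    · obtain ⟨t, h6, -, -, h7⟩ := KII_rows hk
      rw [h7] at h
      simp only [Prod.mk.injEq] at h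
      obtain ⟨h8, h9⟩ := h
      split_ifs at h9 <;> omega
  · intro h
    refine Or.inl ⟨by omega, nE, Or.inr ⟨by omega, ?_⟩⟩
    rw [hT]
    omega

/-- the unpaired tiles of the column below the row `r` -/
lemma wt_lo (h1 : 0 ≤ y) (h2 : y < r) (h3 : ¬ Pr D c0 (D.w - 1) y) :
    lt (D.w - 1, y) ∈ WtII D r a c0 (ZQ a b y0 y1) Wo S ↔ lt (D.w - 1, y) ∈ S := by
  have g1 := G.r0
  have g2 := G.r1
  have g3 := G.y0
  have g4 := G.y1
  have g5 := G.b1
  have g6 := G.aw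
  rw [mem_WtII, ← N.mem_col h1 (by omega)]
  have nE : lt (D.w - 1, y) ∉ EII D a c0 := by
    rw [mem_EII]
    rintro (h | h)
    · omega
    · exact h3 h
  constructor
  · rintro (⟨-, -, h | h⟩ | ⟨-, k, hk, h⟩)
    · exact h.2
    · omega
    · exact absurd (h ▸ rt_E hk) nE
  · exact fun h => Or.inl ⟨by omega, nE, Or.inl ⟨h2, h⟩⟩

/-- the unpaired tiles of the column above the row `r` -/
lemma wt_hi (h1 : r ≤ y) (h2 : y < D.h - 1) (h3 : ¬ Pr D c0 (D.w - 1) y) :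
    lt (D.w - 1, y) ∈ WtII D r a c0 (ZQ a b y0 y1) Wo S ↔ lt (D.w - 1, y + 1) ∉ S := by
  have g1 := G.r0
  have g2 := G.r1
  have g3 := G.y0
  have g4 := G.y1
  have g5 := G.b1
  have g6 := G.aw
  rw [mem_WtII, ← N.mem_col (y := y + 1) (by omega) (by omega)]
  have nE : lt (D.w - 1, y) ∉ EII D a c0 := by
    rw [mem_EII]
    rintro (h | h)
    · omega
    · exact h3 h
  constructor
  · rintro (⟨-, -, h | h⟩ | ⟨-, k, hk, h⟩)
    · omega
    · exact h.2
    · exact absurd (h ▸ rt_E hk) nE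
  · exact fun h => Or.inl ⟨by omega, nE, Or.inr ⟨h1, h⟩⟩

end main

end Pool.Agent.H62.W
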