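import Mathlib
import Pool.Agent.H62.W.WtII
import Pool.Agent.H31.W.NatZ

set_option autoImplicit false
open Finset

/-! # The crossed wall: totals and natural values

`natII_four` : the total with the weight `1/4` on every tie is close to helper31's natural value of the world `true` with
the right wall pushed out, `natII_zero` : everything tied, the natural value of the world `true`. `tog_II` : toggles of
the functional `FII`. -/

namespace Pool.Agent.H62.W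

open Pool.Agent.H75.Perc Pool.Agent.H75.TwoArm Pool.Agent.Q1 Pool.Agent.H33.Q1 Pool.Agent.H13.Q1
open Pool.Agent.H13.W (up dn)
open Pool.Agent.H54.W (Win Pos)
open Pool.Agent.H95.W (CoarseR CoarseRC)
open Pool.Agent.H72.W.N
open Pool.Agent.H14.W (SQ SL mem_SL EPn cns mem_cns CorL BX BX_four BoxF ZnC NatC CrE)
open Pool.Agent.H42.Sp (Sd Ix kt rt kt_odd rt_even)
open Pool.Agent.H42.W (Tog VF RB)
open Pool.Agent.H15.W (TotV)
open Pool.Agent.H31.W (FarC ZnD FunZ Nz nz_cmp)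
open Pool.Agent.H74.R45 (exists_lt)

variable {D : Win} {r x0 a b y0 y1 x y t n H W M : ℤ} {A : ℤ → ℤ} {c0 : Bool} {Wo S Z' : Finset (ℤ × ℤ)}

/-! ### Toggles -/

section tog

variable {ι : Type*} {Λ Dl : Set (ℤ × ℤ)} {X : ι → ℤ × ℤ} {Ψ : (ι → ι → Prop) → ℂ}

/-- **Toggles of the functional of the chart.** -/
theorem tog_II (hR : RemZ r Λ Dl (ZQ a b y0 y1)) (hX : RemZ.Out r (ZQ a b y0 y1) X) (E : Finset (ℤ × ℤ)) :
    Tog E (WtII D r a c0 (ZQ a b y0 y1) Wo S) (ZQ a b y0 y1)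
      (FII D r x0 a c0 (ZQ a b y0 y1) Wo S (PhiG Λ Dl X Ψ)) := by
  have hV : Disjoint (WpII D Wo S \ (ZQ a b y0 y1).image (pl r)) ((ZQ a b y0 y1).image (pl r)) :=
    sdiff_disjoint
  have key := hR.patF hX zf_ZQ zv_ZQ Ψ (q := fun _ => (1 / 2 : ℂ)) (GII.disj_E0 (D := D) (x0 := x0)) hV
  refine (Pool.Agent.H42.W.Tog.ofPatF key).congr fun w _ => ?_
  unfold FII WtII RemZ.FR
  refine Ec_congr fun ω _ => ?_
  rw [rmF_inter]

end tog

/-! ### Geometry off the corners -/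

/-- off the corners the column of the line is far from its ends -/
lemma far_col (hlo : D.lo ≤ D.w) (h : FarC D n H A (D.w - 1) y) (h3 : -1 ≤ y) (h4 : y ≤ D.h) :
    12 < y ∧ y < D.h - 12 := by
  have h1 := h (D.w, 0) (mem_cns.2 (Or.inl rfl))
  have h2 := h (D.w, D.h) (mem_cns.2 (Or.inr (Or.inl rfl)))
  unfold SQ Pool.Agent.H14.W.BX at h1 h2
  simp only at h1 h2
  constructor
  · by_contra hc
    push Not at hc
    apply h1
    refine ⟨⟨by omega, by omega, by omega, by omega⟩, by omega, by omega, by omega, by omega⟩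
  · by_contra hc
    push Not at hc
    apply h2
    refine ⟨⟨by omega, by omega, by omega, by omega⟩, by omega, by omega, by omega, by omega⟩

lemma epn_R : EPn D {Sd.R} (x + 1) y ↔ 0 ≤ y ∧ y < D.h ∧ D.a y ≤ x + 1 ∧ x + 1 ≤ D.w := by
  unfold EPn PT
  constructor
  · rintro (h | ⟨k, hk, h⟩)
    · omega
    · rw [mem_singleton] at hk
      subst hk
      obtain ⟨h1, h2, h3⟩ : 0 ≤ y ∧ y < D.h ∧ x + 1 = D.w := h
      have := D.aw y h1 h2
      omega
  · rintro ⟨h1, h2, h3, h4⟩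
    by_cases h5 : x + 1 = D.w
    · exact Or.inr ⟨Sd.R, mem_singleton_self _, h1, h2, h5⟩
    · exact Or.inl ⟨h1, h2, h3, by omega⟩

lemma epn_0 : EPn D ∅ (x + 1) y ↔ 0 ≤ y ∧ y < D.h ∧ D.a y ≤ x + 1 ∧ x + 1 < D.w := by
  unfold EPn PT
  constructor
  · rintro (h | ⟨k, hk, h⟩)
    · exact h
    · exact absurd hk (notMem_empty _)
  · exact fun h => Or.inl h

/-- the tiles at the pairs -/
lemma pr_of (h1 : 1 ≤ y) (h2 : y + 2 < D.h) : Pr D c0 (D.w - 1) y := by
  refine ⟨rfl, ?_⟩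
  by_cases h : (D.w + y) % 2 = if c0 then 1 else 0
  · exact ⟨y, ⟨by omega, by omega⟩, h, Or.inr rfl⟩
  · refine ⟨y + 1, ⟨by omega, by omega⟩, ?_, Or.inl (by ring)⟩
    cases c0
    · simp only [Bool.false_eq_true, if_false] at h ⊢; omega
    · simp only [if_true] at h ⊢; omega

/-- the natural labels of the zone which are far from the window -/
def WNat (D : Win) (Wo Z : Finset (ℤ × ℤ)) : Prop :=
  ∀ x y, lt (x, y) ∈ Z → ¬ D.InZ x y → (lt (x, y) ∈ Wo ↔ D.fill x y = true)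

section

variable (G : GII D r x0 a b y0 y1 c0)
include G

/-- tiles of the band and the column in the plane, off the corners and off the string -/
lemma img_iff (hn : ¬ (y = r ∧ x0 ≤ x)) (hf : FarC D n H A x y) (hax : a ≤ x) :
    lt (x, y) ∈ (EII D a c0).image (pl r) ↔ 0 ≤ y ∧ y < D.h ∧ x < D.w := by
  have g1 := G.r0
  have g2 := G.r1
  have g6 := G.aw
  have g7 := G.xa
  have hlo : D.lo ≤ D.w := by
    have := D.hlo 0 le_rfl (by omega)
    have := D.aw 0 le_rfl (by omega)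
    omega
  have hr : y ≠ r := fun h => hn ⟨h, by omega⟩
  rw [GII.mem_img]
  constructor
  · rintro (⟨h1, h2⟩ | ⟨h1, h2⟩)
    · rw [mem_EII] at h2
      rcases h2 with h2 | h2
      · omega
      · have := h2.box; omega
    · rw [mem_EII] at h2
      rcases h2 with h2 | h2
      · omega
      · have := h2.box; omega
  · rintro ⟨h1, h2, h3⟩
    by_cases hx : x = D.w - 1
    · subst hx
      have hc := far_col hlo hf (by omega) (by omega)
      rcases lt_or_gt_of_ne hr with h | h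
      · exact Or.inl ⟨h, mem_EII.2 (Or.inr (pr_of (by omega) (by omega)))⟩
      · exact Or.inr ⟨h, mem_EII.2 (Or.inr (pr_of (by omega) (by omega)))⟩
    · rcases lt_or_gt_of_ne hr with h | h
      · exact Or.inl ⟨h, mem_EII.2 (Or.inl ⟨hax, by omega, h1, by omega⟩)⟩
      · exact Or.inr ⟨h, mem_EII.2 (Or.inl ⟨hax, by omega, by omega, by omega⟩)⟩

/-- random labels, the column is fair -/
lemma e_four (hn : ¬ (y = r ∧ x0 ≤ x)) (hf : FarC D n H A x y) :
    lt (x, y) ∈ E0II D r x0 (ZQ a b y0 y1) ∪ (EII D a c0).image (pl r) ↔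
      EPn D {Sd.R} (x + 1) y := by
  have g6 := G.aw
  rw [mem_union, G.mem_E0, epn_R]
  by_cases hax : a ≤ x
  · rw [img_iff G hn hf hax]
    constructor
    · rintro (h | ⟨h1, h2, h3⟩)
      · omega
      · have := G.ha y h1 h2
        omega
    · intro h; right; omega
  · constructor
    · rintro (h | h)
      · omega
      · exfalso
        rw [GII.mem_img] at h
        rcases h with ⟨-, h⟩ | ⟨-, h⟩ <;> rw [mem_EII] at h <;> rcases h with h | h
        · omega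
        · have := h.box; omega
        · omega
        · have := h.box; omega
    · intro h; left; exact ⟨h.1, h.2.1, by omega, by omega, hn⟩

/-- random labels, the column is fixed -/
lemma e_zero (hn : ¬ (y = r ∧ x0 ≤ x)) :
    lt (x, y) ∈ E0II D r x0 (ZQ a b y0 y1) ∪ BpII D r a ↔ EPn D ∅ (x + 1) y := by
  have g1 := G.r0
  have g2 := G.r1
  have g6 := G.aw
  have g7 := G.xa
  rw [mem_union, G.mem_E0, epn_0, mem_BpII]
  constructor
  · rintro (h | ⟨h1, h2, h3⟩)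
    · omega
    · have := G.ha y (by omega) (by omega)
      omega
  · intro h
    by_cases hax : a ≤ x
    · right
      have hr : y ≠ r := fun h => hn ⟨h, by omega⟩
      omega
    · left; exact ⟨h.1, h.2.1, by omega, by omega, hn⟩

end

section

variable (G : GII D r x0 a b y0 y1 c0)

/-- fixed open labels, tiles which are not random -/
lemma w_out (hWo : ∀ x y, lt (x, y) ∈ Wo → ¬ D.InZ x y) (hS : ∀ x y, lt (x, y) ∈ S → x = D.w - 1 ∧ 0 ≤ y ∧ y < D.h)
    (hN : WNat D Wo Z') (hZ : lt (x, y) ∈ Z') (hf : FarC D n H A x y)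
    (h : ¬ (0 ≤ y ∧ y < D.h ∧ D.a y ≤ x + 1 ∧ x + 1 ≤ D.w)) :
    lt (x, y) ∈ WpII D Wo S ↔ D.fill x y = true := by
  have hh := D.hh
  have hlo : D.lo ≤ D.w := by
    have := D.hlo 0 le_rfl (by omega)
    have := D.aw 0 le_rfl (by omega)
    omega
  have n1 : ¬ D.InE (fun _ => D.w) x y := by
    unfold Win.InE Win.InU Win.RE Win.RW Win.RB Win.RT
    simp only
    rintro (h' | h' | h' | h' | h') <;> omega
  have n2 : ¬ D.TA (fun _ => D.w) x y := by
    rintro (h' | ⟨h1, h2⟩)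
    · exact absurd h'.2.2.1 (lt_irrefl _)
    · simp only at h2
      subst h2
      have := far_col hlo hf (by omega) (by omega)
      omega
  have n3 : ¬ D.TB (fun _ => D.w) x y := by
    rintro (h' | ⟨h1, h2⟩)
    · exact absurd h'.2.2.1 (lt_irrefl _)
    · simp only at h2
      subst h2
      have := far_col hlo hf (by omega) (by omega)
      omega
  have n5 : lt (x, y) ∉ S := by
    intro h'
    obtain ⟨h1, h2, h3⟩ := hS x y h'
    have := D.aw y h2 h3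
    omega
  unfold WpII Win.WJ
  rw [mem_union, mem_union, Win.mem_WR]
  unfold Win.InO
  by_cases hz : D.InZ x y
  · have n4 : lt (x, y) ∉ Wo := fun h => hWo _ _ h hz
    constructor
    · rintro ((⟨-, -, h | h | h⟩ | h) | h)
      · exact absurd h.1 n2
      · exact absurd h.1 n3
      · exact h.2.2
      · exact absurd h n4
      · exact absurd h n5
    · exact fun h => Or.inl (Or.inl ⟨hz, n1, Or.inr (Or.inr ⟨n2, n3, h⟩)⟩)
  · have n4 := hN x y hZ hz
    rw [n4]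
    exact ⟨fun h => by
      rcases h with (h | h) | h
      · exact absurd h.1 hz
      · exact h
      · exact absurd h n5, fun h => Or.inl (Or.inr h)⟩

/-- random tiles are not fixed -/
lemma w_in (hWo : ∀ x y, lt (x, y) ∈ Wo → ¬ D.InZ x y)
    (h : 0 ≤ y ∧ y < D.h ∧ D.a y ≤ x + 1 ∧ x + 1 ≤ D.w) : lt (x, y) ∈ WpII D Wo S ↔ lt (x, y) ∈ S := by
  have hE : D.InE (fun _ => D.w) x y := Or.inl ⟨h.1, h.2.1, by omega, by omega⟩
  have n1 : lt (x, y) ∉ Wo := fun h' => hWo _ _ h' (hE.inZ (posw D))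
  unfold WpII Win.WJ
  rw [mem_union, mem_union, Win.mem_WR]
  constructor
  · rintro ((h | h) | h)
    · exact absurd hE h.2.1
    · exact absurd h n1
    · exact h
  · exact fun h => Or.inr h

include G

/-- frozen tiles are near the corners -/
lemma s_far (hS : ∀ x y, lt (x, y) ∈ S → x = D.w - 1 ∧ 0 ≤ y ∧ y < D.h)
    (hS' : Disjoint ((EII D a c0).image (pl r)) S) (hn : ¬ (y = r ∧ x0 ≤ x)) (hf : FarC D n H A x y) :
    lt (x, y) ∉ S := by
  intro h
  obtain ⟨h1, h2, h3⟩ := hS x y h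
  have g6 := G.aw
  exact disjoint_left.1 hS' ((img_iff G hn hf (by omega)).2 ⟨h2, h3, by omega⟩) h

/-- fixed open labels, the column is fair -/
lemma wp_four (hWo : ∀ x y, lt (x, y) ∈ Wo → ¬ D.InZ x y) (hS : ∀ x y, lt (x, y) ∈ S → x = D.w - 1 ∧ 0 ≤ y ∧ y < D.h)
    (hS' : Disjoint ((EII D a c0).image (pl r)) S) (hN : WNat D Wo Z') (hZ : lt (x, y) ∈ Z')
    (hn : ¬ (y = r ∧ x0 ≤ x)) (hf : FarC D n H A x y) :
    lt (x, y) ∈ WpII D Wo S ↔ ¬ EPn D {Sd.R} (x + 1) y ∧ natc D true x y = true := by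
  rw [epn_R]
  unfold natc
  by_cases h : 0 ≤ y ∧ y < D.h ∧ D.a y ≤ x + 1 ∧ x + 1 ≤ D.w
  · rw [w_in hWo h]
    exact ⟨fun h' => absurd h' (s_far G hS hS' hn hf), fun h' => absurd h h'.1⟩
  · rw [w_out hWo hS hN hZ hf h]
    exact ⟨fun h' => ⟨h, h'⟩, fun h' => h'.2⟩

/-- fixed open labels, the column is fixed -/
lemma wp_zero (hWo : ∀ x y, lt (x, y) ∈ Wo → ¬ D.InZ x y) (hS : ∀ x y, lt (x, y) ∈ S → x = D.w - 1 ∧ 0 ≤ y ∧ y < D.h)
    (hS' : Disjoint ((EII D a c0).image (pl r)) S) (hN : WNat D Wo Z') (hZ : lt (x, y) ∈ Z')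
    (hn : ¬ (y = r ∧ x0 ≤ x)) (hf : FarC D n H A x y) :
    lt (x, y) ∈ CoII D r a c0 ∪ WpII D Wo S ↔ ¬ EPn D ∅ (x + 1) y ∧ natc D true x y = true := by
  have g6 := G.aw
  rw [epn_0, mem_union, mem_CoII]
  unfold natc
  by_cases h : 0 ≤ y ∧ y < D.h ∧ D.a y ≤ x + 1 ∧ x + 1 ≤ D.w
  · rw [w_in hWo h]
    have hs := s_far G hS hS' hn hf
    by_cases hx : x = D.w - 1
    · have hi := (img_iff G hn hf (by omega)).2 ⟨h.1, h.2.1, by omega⟩
      have hfill : D.fill x y = D.cr y := by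
        have := D.aw y h.1 h.2.1
        unfold Win.fill
        rw [if_neg (by omega), if_neg (by omega), if_neg (by omega)]
      rw [hfill]
      constructor
      · rintro (⟨-, -, h3⟩ | h3)
        · exact ⟨by omega, h3⟩
        · exact absurd h3 hs
      · exact fun h3 => Or.inl ⟨hi, hx, h3.2⟩
    · constructor
      · rintro (⟨-, h3, -⟩ | h3)
        · exact absurd h3 hx
        · exact absurd h3 hs
      · exact fun h3 => absurd (by omega) h3.1
  · rw [w_out hWo hS hN hZ hf h]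
    constructor
    · rintro (⟨h3, h4, -⟩ | h3)
      · exfalso
        have hi := (img_iff G hn hf (by omega)).1 h3
        have := D.aw y hi.1 hi.2.1
        omega
      · exact ⟨by omega, h3⟩
    · exact fun h3 => Or.inr h3.2

end

lemma disj_four (G : GII D r x0 a b y0 y1 c0) (hWo : ∀ x y, lt (x, y) ∈ Wo → ¬ D.InZ x y)
    (hS : ∀ x y, lt (x, y) ∈ S → x = D.w - 1 ∧ 0 ≤ y ∧ y < D.h)
    (hS' : Disjoint ((EII D a c0).image (pl r)) S) :
    Disjoint (E0II D r x0 (ZQ a b y0 y1) ∪ (EII D a c0).image (pl r)) (WpII D Wo S) := by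
  have g6 := G.aw
  rw [disjoint_union_left]
  refine ⟨?_, G.disj_W hWo hS'⟩
  rw [disjoint_left]
  intro e he he'
  have ho : (e.1 + e.2) % 2 = 1 := by
    classical
    unfold E0II at he
    exact Win.odd_EJ (mem_filter.1 he).1
  obtain ⟨x, y, rfl⟩ := exists_lt ho
  rw [G.mem_E0] at he
  rw [w_in hWo ⟨he.1, he.2.1, by omega, by omega⟩] at he'
  have := hS x y he'
  omega

lemma disj_zero (G : GII D r x0 a b y0 y1 c0) (hWo : ∀ x y, lt (x, y) ∈ Wo → ¬ D.InZ x y)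
    (hS : ∀ x y, lt (x, y) ∈ S → x = D.w - 1 ∧ 0 ≤ y ∧ y < D.h)
    (hS' : Disjoint ((EII D a c0).image (pl r)) S) :
    Disjoint (E0II D r x0 (ZQ a b y0 y1) ∪ BpII D r a) (CoII D r a c0 ∪ WpII D Wo S) := by
  have g6 := G.aw
  have g1 := G.r0
  have g2 := G.r1
  have hsub : E0II D r x0 (ZQ a b y0 y1) ∪ BpII D r a ⊆
      E0II D r x0 (ZQ a b y0 y1) ∪ (EII D a c0).image (pl r) := by
    refine union_subset_union_right ?_
    unfold BpII EII
    exact image_subset_image subset_union_left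
  rw [disjoint_union_right]
  refine ⟨?_, (disj_four G hWo hS hS').mono_left hsub⟩
  rw [disjoint_left]
  intro e he he'
  have ho : (e.1 + e.2) % 2 = 1 := by
    classical
    unfold CoII at he'
    obtain ⟨e', h6, h7⟩ := mem_image.1 (mem_filter.1 he').1
    obtain ⟨x, y, rfl⟩ := exists_lt (odd_EII h6)
    rw [← h7, pl_lt]
    split_ifs <;> exact lt_odd _
  obtain ⟨x, y, rfl⟩ := exists_lt ho
  rw [mem_CoII] at he'
  rw [mem_union, G.mem_E0, mem_BpII] at he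
  omega

/-- **The column is fair: the right wall is pushed out.** -/
theorem natII_four : ∃ C α : ℝ, 0 < C ∧ 0 < α ∧ ∀ (D : Win) (n H W : ℤ) (A : ℤ → ℤ) (CL : ℤ → Bool),
    CoarseRC D n H W A CL → ∀ M : ℤ, 400 ≤ M → 2 * M ≤ n → CrE D M →
    ∀ (Z' : Finset (ℤ × ℤ)), ZnD D n H A M Z' → ∀ (Φ : Finset (ℤ × ℤ) → ℂ) (K : ℝ), FunZ Z' Φ K →
    ∀ (r x0 a b y0 y1 : ℤ) (c0 : Bool), GII D r x0 a b y0 y1 c0 →
    (∀ x y, lt (x, y) ∈ Z' → ¬ (y = r ∧ x0 ≤ x)) → ∀ Wo S : Finset (ℤ × ℤ),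
    (∀ x y, lt (x, y) ∈ Wo → ¬ D.InZ x y) → WNat D Wo Z' →
    (∀ x y, lt (x, y) ∈ S → x = D.w - 1 ∧ 0 ≤ y ∧ y < D.h) → Disjoint ((EII D a c0).image (pl r)) S →
    ‖Ec (fun _ => (1 / 2 : ℂ)) (E0II D r x0 (ZQ a b y0 y1) ∪ (EII D a c0).image (pl r))
      (fun ω => Φ (ω ∪ WpII D Wo S)) - Nz Φ D true {Sd.R} Z'‖ ≤
      (2 * H + 4) * (C * K * ((1 : ℝ) / M) ^ (1 + α)) := by
  obtain ⟨C, α, hC, hα, key⟩ := nz_cmp
  refine ⟨C, α, hC, hα, ?_⟩
  intro D n H W A CL hc M hM hMn hcr Z' hZ Φ K hΦ r x0 a b y0 y1 c0 G hn Wo S hWo hN hS hS'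
  rw [norm_sub_rev]
  refine key D n H W A CL hc M hM hMn hcr Z' hZ Φ K hΦ true {Sd.R} _ _ (disj_four G hWo hS hS') ?_
  intro x y hl hf
  rw [sh_true]
  exact ⟨e_four G (hn x y hl) hf, wp_four G hWo hS hS' hN hl (hn x y hl) hf⟩

/-- **Everything tied.** -/
theorem natII_zero : ∃ C α : ℝ, 0 < C ∧ 0 < α ∧ ∀ (D : Win) (n H W : ℤ) (A : ℤ → ℤ) (CL : ℤ → Bool),
    CoarseRC D n H W A CL → ∀ M : ℤ, 400 ≤ M → 2 * M ≤ n → CrE D M →
    ∀ (Z' : Finset (ℤ × ℤ)), ZnD D n H A M Z' → ∀ (Φ : Finset (ℤ × ℤ) → ℂ) (K : ℝ), FunZ Z' Φ K →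
    ∀ (r x0 a b y0 y1 : ℤ) (c0 : Bool), GII D r x0 a b y0 y1 c0 →
    (∀ x y, lt (x, y) ∈ Z' → ¬ (y = r ∧ x0 ≤ x)) → ∀ Wo S : Finset (ℤ × ℤ),
    (∀ x y, lt (x, y) ∈ Wo → ¬ D.InZ x y) → WNat D Wo Z' →
    (∀ x y, lt (x, y) ∈ S → x = D.w - 1 ∧ 0 ≤ y ∧ y < D.h) → Disjoint ((EII D a c0).image (pl r)) S →
    ‖Ec (fun _ => (1 / 2 : ℂ)) (E0II D r x0 (ZQ a b y0 y1) ∪ BpII D r a)
      (fun ω => Φ (ω ∪ (CoII D r a c0 ∪ WpII D Wo S))) - Nz Φ D true ∅ Z'‖ ≤
      (2 * H + 4) * (C * K * ((1 : ℝ) / M) ^ (1 + α)) := by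
  obtain ⟨C, α, hC, hα, key⟩ := nz_cmp
  refine ⟨C, α, hC, hα, ?_⟩
  intro D n H W A CL hc M hM hMn hcr Z' hZ Φ K hΦ r x0 a b y0 y1 c0 G hn Wo S hWo hN hS hS'
  rw [norm_sub_rev]
  refine key D n H W A CL hc M hM hMn hcr Z' hZ Φ K hΦ true ∅ _ _ (disj_zero G hWo hS hS') ?_
  intro x y hl hf
  rw [sh_true]
  exact ⟨e_zero G (hn x y hl), wp_zero G hWo hS hS' hN hl (hn x y hl) hf⟩

end Pool.Agent.H62.W
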