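import Mathlib
import Pool.Agent.H62.W.NatII
import Pool.Agent.H60.W.InpD
import Pool.Agent.H20.W.InstD
import Pool.Agent.H95.W.SeqB
import Pool.Agent.H95.W.SeqA

set_option autoImplicit false
open Finset

/-! # Chart II: natural totals at the positions of a compact set

`csII` : the functional of the chart as a case over helper60's single wall. `toM_II` : its totals. `ptNatII` : the
field `nat` of `PtD` : the totals of the case are close to helper20's natural values `nS` of the world `true`, for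
every zone in the canonical box and all frozen tiles `S` of the column. -/

namespace Pool.Agent.H62.W

open Pool.Agent.H75.Perc Pool.Agent.H75.TwoArm Pool.Agent.Q1 Pool.Agent.H33.Q1
open Pool.Agent.Q1.M4 (lat)
open Pool.Agent.H54.W (Win CD NE Zb)
open Pool.Agent.H21.W (DR)
open Pool.Agent.H20.W (OmC crz Zz Ph Dz nS Wz gSd bX1 bX2 bY1 bY2)
open Pool.Agent.H15.W (CaseV TotV)
open Pool.Agent.H49.W (toM)
open Pool.Agent.H42.W (VF RB)
open Pool.Agent.H42.Sp (Sd)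
open Pool.Agent.H60.W.II (caseD datII)
open Pool.Agent.H95.W (gd_K rpow_floor Gd)
open Pool.Agent.H95.W.BrS
open Pool.Agent.H31.W (znD_ZS funZ_Phi BoxD Nz)
open Pool.Agent.Q1.M6e.Wn (wS sz swn)
open Pool.Agent.H44.W
open Pool.Agent.H74.R45 (exists_lt)
open G4

section case

variable {D : Win} {r x0 a b y0 y1 : ℤ} {c0 : Bool}

/-- **The case of the chart.** -/
noncomputable def csII (G : GII D r x0 a b y0 y1 c0) (h1 : a + 8 ≤ D.w) (h2 : 9 ≤ D.h) (h3 : D.w + 2 ≤ b)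
    (Wo S : Finset (ℤ × ℤ)) (Φ : Finset (ℤ × ℤ) → ℂ) (Sg : Finset (ℤ × ℤ)) : CaseV :=
  caseD (G.rb h1 h2 h3) (VF (FII D r x0 a c0 (ZQ a b y0 y1) Wo S Φ) (G.rb h1 h2 h3).Bb (G.rb h1 h2 h3).Bb
    (G.rb h1 h2 h3).TT RB.fm (G.rb h1 h2 h3).co) Sg

/-- all walls are in the group `ce` -/
noncomputable def gII (x : CaseV) : x.κ → G4 := fun _ => ce

variable {G : GII D r x0 a b y0 y1 c0} {h1 : a + 8 ≤ D.w} {h2 : 9 ≤ D.h} {h3 : D.w + 2 ≤ b}
  {Wo S : Finset (ℤ × ℤ)} {Φ : Finset (ℤ × ℤ) → ℂ} {Sg : Finset (ℤ × ℤ)}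

/-- the total of the case -/
lemma toM_II (f : (toM (csII G h1 h2 h3 Wo S Φ Sg) (gII _)).κ → ℂ) :
    (toM (csII G h1 h2 h3 Wo S Φ Sg) (gII _)).T f =
      TotV (VF (FII D r x0 a c0 (ZQ a b y0 y1) Wo S Φ) (G.rb h1 h2 h3).Bb (G.rb h1 h2 h3).Bb
        (G.rb h1 h2 h3).TT RB.fm (G.rb h1 h2 h3).co) (G.rb h1 h2 h3).Bb (G.rb h1 h2 h3).TT
        (fun e => f (RB.wl e)) := rfl

/-- natural totals -/
theorem wS_II (s : Finset G4) :
    (toM (csII G h1 h2 h3 Wo S Φ Sg) (gII _)).T (wS ((toM (csII G h1 h2 h3 Wo S Φ Sg) (gII _)).ws s)) =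
      TotV (VF (FII D r x0 a c0 (ZQ a b y0 y1) Wo S Φ) (G.rb h1 h2 h3).Bb (G.rb h1 h2 h3).Bb
        (G.rb h1 h2 h3).TT RB.fm (G.rb h1 h2 h3).co) (G.rb h1 h2 h3).Bb (G.rb h1 h2 h3).TT
        (fun _ => if ce ∈ s then 1 / 4 else 0) := by
  rw [toM_II]
  congr 1
  funext e
  unfold wS
  by_cases hs : ce ∈ s
  · rw [if_pos hs, if_pos]
    rw [ModG.mem_ws]
    exact hs
  · rw [if_neg hs, if_neg]
    rw [ModG.mem_ws]
    exact hs

/-- **totals with the line weights** -/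
theorem sz_II (hd : G4 → ℂ) (N : ℕ) :
    (toM (csII G h1 h2 h3 Wo S Φ Sg) (gII _)).T (sz ((toM (csII G h1 h2 h3 Wo S Φ Sg) (gII _)).ws (arc4 true)) N
      fun w => hd ((toM (csII G h1 h2 h3 Wo S Φ Sg) (gII _)).gr w)) =
      TotV (VF (FII D r x0 a c0 (ZQ a b y0 y1) Wo S Φ) (G.rb h1 h2 h3).Bb (G.rb h1 h2 h3).Bb
        (G.rb h1 h2 h3).TT RB.fm (G.rb h1 h2 h3).co) (G.rb h1 h2 h3).Bb (G.rb h1 h2 h3).TT
        (fun _ => swn N (hd ce)) := by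
  rw [toM_II]
  congr 1

end case

section inst

variable {C : CD} {n : ℤ} {c0 : Bool} {v : ℤ × ℤ} {he : n % 2 = 0} {h8 : 8 ≤ n} {Ψ : (NE → NE → Prop) → ℂ}
  {a b y0 y1 x y : ℤ}

/-- the zone is in the canonical box -/
structure ZcII (C : CD) (n : ℤ) (c0 : Bool) (r a b y0 y1 : ℤ) : Prop where
  xa : bX1 C n ≤ a
  xb : b ≤ bX2 C n c0 r
  ya : bY1 n ≤ y0
  yb : y1 + 1 ≤ bY2 C n

lemma Ph_eq : Ph C n c0 v Ψ = PhiG (Zb (bX1 C n) (bX2 C n c0 v.2) (bY1 n) (bY2 C n)) (DR v.1 v.2)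
    (C.be n c0 v.1 v.2 (bX1 C n) (bX2 C n c0 v.2)) Ψ := rfl

lemma ZcII.rem {D : Win} (Zc : ZcII C n c0 v.2 a b y0 y1) (G : GII D v.2 v.1 a b y0 y1 c0) :
    RemZ v.2 (Zb (bX1 C n) (bX2 C n c0 v.2) (bY1 n) (bY2 C n)) (DR v.1 v.2) (ZQ a b y0 y1) := by
  have g1 := G.r0
  have g2 := G.r1
  have g3 := G.y0
  have g4 := G.y1
  exact remZ_box (by omega) (by omega) G.xa Zc.xa Zc.xb Zc.ya Zc.yb

lemma ZcII.out {D : Win} (Zc : ZcII C n c0 v.2 a b y0 y1) (G : GII D v.2 v.1 a b y0 y1 c0) :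
    RemZ.Out v.2 (ZQ a b y0 y1) (C.be n c0 v.1 v.2 (bX1 C n) (bX2 C n c0 v.2)) := by
  have g1 := G.r0
  have g2 := G.r1
  have g3 := G.y0
  have g4 := G.y1
  exact out_be C n c0 (by omega) (by omega) G.xa Zc.xa Zc.xb

lemma mem_Wz {D : Win} {Z : Finset (ℤ × ℤ)} : lt (x, y) ∈ Wz D Z ↔
    lt (x, y) ∈ Z ∧ ¬ D.InZ x y ∧ D.fill x y = true := by
  classical
  unfold Wz
  rw [mem_filter, tt_lt]

lemma Wz_out {D : Win} {Z : Finset (ℤ × ℤ)} (x y : ℤ) (h : lt (x, y) ∈ Wz D Z) : ¬ D.InZ x y := (mem_Wz.1 h).2.1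

lemma Wz_nat {D : Win} {Z : Finset (ℤ × ℤ)} : WNat D (Wz D Z) Z := by
  intro x y h1 h2
  rw [mem_Wz]
  exact ⟨fun h => h.2.2, fun h => ⟨h1, h2, h⟩⟩

lemma Zz_off (x y : ℤ) (h : lt (x, y) ∈ Zz C n c0 v) : ¬ (y = v.2 ∧ v.1 ≤ x) := (mem_ZS.1 h).2

/-- the canonical box has the margins -/
lemma boxD_z (r : ℤ) : BoxD (Dz C n c0 he h8 r) (bX1 C n) (bX2 C n c0 r) (bY1 n) (bY2 C n) := by
  unfold bX1 bX2 bY1 bY2 Dz
  refine ⟨?_, ?_, by omega, ?_⟩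
  · change n * C.LO - n + 4 ≤ n * C.LO - 1
    omega
  · change n * C.W + 4 ≤ _
    have : 0 ≤ (if c0 then r % 2 else (r + 1) % 2) := by split_ifs <;> omega
    omega
  · change n * C.H + 4 ≤ _
    omega

variable (C c0) in
/-- **The natural totals of chart II**, at all positions over a compact set. -/
theorem ptNatII {K : Set ℂ} (hK : K ⊆ OmC C) (hKc : IsCompact K) : ∃ L α : ℝ, 0 ≤ L ∧ 0 < α ∧ ∃ n0 : ℕ,
    ∀ n : ℤ, (n0 : ℤ) ≤ n → ∀ (he : n % 2 = 0) (h8 : 8 ≤ n) (v : ℤ × ℤ), lat v / ((n : ℝ) : ℂ) ∈ K →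
    ∀ Ψ : (NE → NE → Prop) → ℂ, (∀ R, ‖Ψ R‖ ≤ 1) → ∀ (a b y0 y1 : ℤ), ZcII C n c0 v.2 a b y0 y1 →
    ∀ (G : GII (Dz C n c0 he h8 v.2) v.2 v.1 a b y0 y1 c0) (h1 : a + 8 ≤ (Dz C n c0 he h8 v.2).w)
      (h2 : 9 ≤ (Dz C n c0 he h8 v.2).h) (h3 : (Dz C n c0 he h8 v.2).w + 2 ≤ b) (S : Finset (ℤ × ℤ)),
    (∀ x y, lt (x, y) ∈ S → x = (Dz C n c0 he h8 v.2).w - 1 ∧ 0 ≤ y ∧ y < (Dz C n c0 he h8 v.2).h) →
    Disjoint ((EII (Dz C n c0 he h8 v.2) a c0).image (pl v.2)) S → ∀ Sg : Finset (ℤ × ℤ), ∀ s ⊆ arc4 true,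
    ‖(toM (csII G h1 h2 h3 (Wz (Dz C n c0 he h8 v.2) (Zz C n c0 v)) S (Ph C n c0 v Ψ) Sg) (gII _)).T
      (wS ((toM (csII G h1 h2 h3 (Wz (Dz C n c0 he h8 v.2) (Zz C n c0 v)) S (Ph C n c0 v Ψ) Sg) (gII _)).ws s)) -
      nS C n c0 v he h8 Ψ true s‖ ≤ L * ((1 : ℝ) / n) ^ (1 + α) := by
  obtain ⟨C4, α4, hC4, hα4, key4⟩ := natII_four
  obtain ⟨C5, α5, hC5, hα5, key5⟩ := natII_zero
  obtain ⟨δ, hδ, n0, hg⟩ := gd_K C c0 hK hKc
  have hH : (0 : ℝ) < C.H := by exact_mod_cast C.H0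
  set L4 : ℝ := (2 * C.H + 4) * C4 * (2 / δ) ^ (1 + α4) with hL4
  set L5 : ℝ := (2 * C.H + 4) * C5 * (2 / δ) ^ (1 + α5) with hL5
  have l4 : 0 ≤ L4 := by positivity
  have l5 : 0 ≤ L5 := by positivity
  refine ⟨max L4 L5, min α4 α5, le_max_of_le_left l4, lt_min hα4 hα5, n0, ?_⟩
  intro n hn he h8 v hv Ψ hΨ a b y0 y1 Zc G h1 h2 h3 S hS hS' Sg s hs
  obtain ⟨g, hM⟩ := hg n hn he h8 v hv
  have hn8 : (8 : ℝ) ≤ n := by exact_mod_cast h8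
  have hnp : (0 : ℝ) < n := by linarith
  have hc := C.coarseC he h8 (cr := crz c0 v.2)
  have hSw : ∀ y, lt ((Dz C n c0 he h8 v.2).w, y) ∉ S := fun y h => by have := hS _ _ h; omega
  have hpow : ∀ β : ℝ, min α4 α5 ≤ β → ((1 : ℝ) / n) ^ (1 + β) ≤ ((1 : ℝ) / n) ^ (1 + min α4 α5) := by
    intro β hβ
    refine Real.rpow_le_rpow_of_exponent_ge (by positivity) ?_ (by linarith)
    rw [div_le_one hnp]
    linarith
  have hr := Zc.rem G
  have ho := Zc.out G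
  rw [wS_II]
  by_cases hce : ce ∈ s
  · have hs1 : s = {ce} := by
      refine subset_antisymm hs ?_
      rw [singleton_subset_iff]
      exact hce
    have e1 : (fun _ : ℤ × ℤ => if ce ∈ s then (1 / 4 : ℂ) else 0) = fun _ => 1 / 4 := by
      funext e; rw [if_pos hce]
    rw [e1, Ph_eq, totII_four G hr ho h1 h2 h3 Wz_out hSw hS']
    have k := key4 _ n C.H C.W C.A C.CL hc _ g.m4 g.m2 g.crE _
      (znD_ZS hc (by have := g.m4; omega) (boxD_z (he := he) (h8 := h8) v.2) g.deepZ) _ 1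
      (funZ_Phi C n c0 zero_le_one hΨ) v.2 v.1 a b y0 y1 c0 G (fun x y h => (mem_ZS.1 h).2)
      (Wz (Dz C n c0 he h8 v.2) (Zz C n c0 v)) S Wz_out Wz_nat hS hS'
    unfold nS
    rw [hs1, image_singleton]
    refine k.trans ?_
    refine le_trans (le_of_eq ?_) ((rpow_floor hδ hα4 (x := (2 * C.H + 4) * C4) (by positivity) hnp hM).trans ?_)
    · ring
    · exact mul_le_mul (le_max_left _ _) (hpow _ (min_le_left _ _)) (by positivity) (le_max_of_le_left l4)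
  · have hs0 : s = ∅ := by
      rcases subset_singleton_iff.1 hs with h | h
      · exact h
      · rw [h] at hce
        exact absurd (mem_singleton_self _) hce
    have e1 : (fun _ : ℤ × ℤ => if ce ∈ s then (1 / 4 : ℂ) else 0) = fun _ => 0 := by
      funext e; rw [if_neg hce]
    rw [e1, Ph_eq, totII_zero G hr ho h1 h2 h3 Wz_out hSw hS']
    have k := key5 _ n C.H C.W C.A C.CL hc _ g.m4 g.m2 g.crE _
      (znD_ZS hc (by have := g.m4; omega) (boxD_z (he := he) (h8 := h8) v.2) g.deepZ) _ 1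
      (funZ_Phi C n c0 zero_le_one hΨ) v.2 v.1 a b y0 y1 c0 G (fun x y h => (mem_ZS.1 h).2)
      (Wz (Dz C n c0 he h8 v.2) (Zz C n c0 v)) S Wz_out Wz_nat hS hS'
    unfold nS
    rw [hs0, image_empty]
    refine k.trans ?_
    refine le_trans (le_of_eq ?_) ((rpow_floor hδ hα5 (x := (2 * C.H + 4) * C5) (by positivity) hnp hM).trans ?_)
    · ring
    · exact mul_le_mul (le_max_right _ _) (hpow _ (min_le_right _ _)) (by positivity) (le_max_of_le_left l4)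

end inst

end Pool.Agent.H62.W
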