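import Mathlib
import Pool.Agent.H62.W.PtNatII
import Pool.Agent.H20.W.TopS
import Pool.Agent.Q1.M6e.Comb

set_option autoImplicit false
open Finset

/-! # Chart II: bound of the functional, the weight of the line

`hv_II` : the functional of the chart is bounded by one. `a1_swn` : the weight `a (1 - a)` of a pair of the column at
the rapidity `π - u_N`. -/

namespace Pool.Agent.H62.W

open Pool.Agent.Q1 (Ec)
open Pool.Agent.H54.W (Win CD NE Zb)
open Pool.Agent.H20.W (OmC crz Zz Ph Dz nS Wz gSd bX1 bX2 bY1 bY2)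
open Pool.Agent.H42.W (VF RB)
open Pool.Agent.H95.W.BrS (hd4)
open Pool.Agent.Q1.M6e.Wn (swn)
open Pool.Agent.H64.Q1 (wa)
open Pool.Agent.H32.W.Ab (uN)
open Pool.Agent.H44.W
open G4

section hv

variable {D : Win} {r x0 a b y0 y1 : ℤ} {c0 : Bool} {G : GII D r x0 a b y0 y1 c0} {h1 : a + 8 ≤ D.w}
  {h2 : 9 ≤ D.h} {h3 : D.w + 2 ≤ b} {Wo S Sg : Finset (ℤ × ℤ)} {Φ : Finset (ℤ × ℤ) → ℂ}

/-- **The functional of the chart is bounded by one.** -/
theorem hv_II (hΦ : ∀ w, ‖Φ w‖ ≤ 1) : (csII G h1 h2 h3 Wo S Φ Sg).HV 1 := by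
  intro ω _ P _
  have key : ∀ w, ‖FII D r x0 a c0 (ZQ a b y0 y1) Wo S Φ w‖ ≤ 1 := by
    intro w
    unfold FII RemZ.FR
    refine (Pool.Agent.Q1.M6e.Ec_norm_le (C := 1 / 2) (M := 1) (fun _ _ => by norm_num)
      (fun _ _ => by norm_num) (by norm_num) fun w _ => ?_).trans (by norm_num)
    exact hΦ _
  change ‖VF _ _ _ _ _ _ ω P‖ ≤ 1
  unfold VF
  rw [Finset.sdiff_self]
  simpa using key _

end hv

section weight

/-- **The weight of a pair of the column at the rapidity `π - u_N`.** -/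
theorem a1_swn (N : ℕ) : wa (Real.pi - uN N) * (1 - wa (Real.pi - uN N)) = swn N (hd4 ce) := by
  have hp := Real.pi_pos
  have hre : (uN N).re = Real.pi / 2 := by
    unfold uN
    rw [Complex.add_re, Complex.mul_re, Complex.ofReal_re, Complex.ofReal_im, Complex.I_re, Complex.I_im]
    have : ((Real.pi : ℂ) / 2).re = Real.pi / 2 := by
      rw [show ((Real.pi : ℂ) / 2) = ((Real.pi / 2 : ℝ) : ℂ) by push_cast; rfl, Complex.ofReal_re]
    rw [this]
    ring
  have h0 : 0 ≤ (uN N).re := by rw [hre]; positivity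
  have h1 : (uN N).re ≤ Real.pi := by rw [hre]; linarith
  have hs : Complex.sin (uN N) ≠ 0 := by
    intro h
    rw [Complex.sin_eq_zero_iff] at h
    obtain ⟨k, hk⟩ := h
    have h2 := congrArg Complex.re hk
    rw [hre, Complex.mul_re, Complex.intCast_re, Complex.intCast_im, Complex.ofReal_re, zero_mul, sub_zero] at h2
    have h3 : (k : ℝ) = 1 / 2 := by
      field_simp at h2
      linarith
    have h4 : (2 * k : ℤ) = 1 := by
      have : (2 * (k : ℝ)) = 1 := by rw [h3]; norm_num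
      exact_mod_cast this
    omega
  have e2 := Pool.Agent.H25.W.wa_pi_sub (uN N) (Pool.Agent.H25.W.sin3_ne hs)
  have e1 : 1 - wa (Real.pi - uN N) = wa (uN N) := by
    rw [← e2]; ring
  rw [e1, ← e2, mul_comm, Pool.Agent.Q1.M6e.sw_wa h0 h1]
  unfold swn uN hd4
  congr 1
  push_cast
  ring

end weight

end Pool.Agent.H62.W
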