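import Mathlib
import Pool.Agent.H44.W.CloseLA

set_option autoImplicit false
open Filter Topology Set

/-! # The natural inputs from a canonical functional

`h q p s` : natural functional of the window of parity `q` in the world `p`, the walls of the groups of `s`
pushed out, both worlds in the same absolute coordinates (frame of the rows: `fo` left walls, `ce` right wall,
`ri` floors, `le` ceilings). `Canon R F Ω Φ h` : up to `o (1 / R)` it is the canonical functional `Φ q s` of the
shape at parity `q`, in the world `true` (shape moved by `(-1, 0)`) the one of the other parity. `Canon.s1`,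
`Canon.pp`, `Canon.s2` : the relations between the natural functionals, from the exact relations `E1`, `E2` of
the canonical functional. -/

namespace Pool.Agent.H62.W

open Pool.Agent.Q1.M4 (lat)
open Pool.Agent.Q1.M6f.Glue (uu rr)
open Pool.Agent.H44.FM.WG (Sh)
open Pool.Agent.H44.W
open G4

/-- **The natural functionals are given by a canonical functional.** -/
structure Canon (R : ℕ → ℝ) (F : Filter ℕ) (Ω : Set ℂ) (Φ : Bool → Finset G4 → ℕ → ℤ × ℤ → ℂ)
    (h : Bool → Bool → Finset G4 → ℕ → ℤ × ℤ → ℂ) : Prop where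
  /-- left walls of the parity `q` against right wall of the parity `!q` -/
  e1 : ∀ q, LA R F Ω (Sh rr (Φ q {fo})) (Φ (!q) {ce})
  /-- floors of the parity `q` against ceilings of the parity `!q` -/
  e2 : ∀ q, LA R F Ω (Sh uu (Φ q {ri})) (Φ (!q) {le})
  /-- world `false`, nothing pushed -/
  f0 : ∀ q, LA R F Ω (h q false ∅) (Φ q ∅)
  /-- world `false`, one group pushed -/
  f1 : ∀ q, ∀ g ∈ ({fo, le, ri} : Finset G4), LA R F Ω (h q false {g}) (Φ q {g})
  /-- world `true`, nothing pushed -/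
  t0 : ∀ q, LA R F Ω (h q true ∅) (Sh (-rr) (Φ (!q) ∅))
  /-- world `true`, the right wall pushed -/
  t1 : ∀ q, LA R F Ω (h q true {ce}) (Sh (-rr) (Φ (!q) {ce}))

variable {R : ℕ → ℝ} {F : Filter ℕ} {Ω : Set ℂ} {Φ : Bool → Finset G4 → ℕ → ℤ × ℤ → ℂ}
  {h : Bool → Bool → Finset G4 → ℕ → ℤ × ℤ → ℂ}

lemma sh_neg_sh (d : ℤ × ℤ) (A : ℕ → ℤ × ℤ → ℂ) : Sh (-d) (Sh d A) = A := by
  funext j v
  unfold Sh
  congr 1
  simp

lemma sh_sh_neg (d : ℤ × ℤ) (A : ℕ → ℤ × ℤ → ℂ) : Sh d (Sh (-d) A) = A := by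
  funext j v
  unfold Sh
  congr 1
  simp

/-- **The same region at the same place.** -/
theorem Canon.s1 (H : Canon R F Ω Φ h) (hR : Tendsto R F atTop) (hΩ : IsOpen Ω) (q : Bool) :
    LA R F Ω (h q false {fo}) (h q true {ce}) := by
  have k1 := (H.e1 q).sh hR hΩ (-rr)
  rw [sh_neg_sh] at k1
  exact ((H.f1 q fo (by decide)).trans k1).trans (H.t1 q).symm

/-- **The shape moved by one column has the other parity.** -/
theorem Canon.pp (H : Canon R F Ω Φ h) (hR : Tendsto R F atTop) (hΩ : IsOpen Ω) (q : Bool) :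
    LA R F Ω (Sh rr (h q true ∅)) (h (!q) false ∅) := by
  have k1 := (H.t0 q).sh hR hΩ rr
  rw [sh_sh_neg] at k1
  exact k1.trans (H.f0 (!q)).symm

/-- **Floors and ceilings.** -/
theorem Canon.s2 (H : Canon R F Ω Φ h) (hR : Tendsto R F atTop) (hΩ : IsOpen Ω) (q : Bool) :
    LA R F Ω (Sh uu (h q false {ri})) (h (!q) false {le}) :=
  (((H.f1 q ri (by decide)).sh hR hΩ uu).trans (H.e2 q)).trans (H.f1 (!q) le (by decide)).symm

/-- the relation holds if it holds exactly on compact sets -/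
lemma LA.of_eq (hR : Tendsto R F atTop) {A B : ℕ → ℤ × ℤ → ℂ}
    (hAB : ∀ K ⊆ Ω, IsCompact K → ∀ᶠ j in F, ∀ v : ℤ × ℤ, lat v / (R j : ℂ) ∈ K → A j v = B j v) :
    LA R F Ω A B := by
  intro K hK hKc ε hε
  filter_upwards [hAB K hK hKc, hR.eventually_ge_atTop 0] with j h1 h2 S hS
  have : ∑ v ∈ S, ‖B j v - A j v‖ = 0 := Finset.sum_eq_zero fun v hv => by
    rw [h1 v (hS v hv), sub_self, norm_zero]
  rw [this]
  positivity

end Pool.Agent.H62.W
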