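import Mathlib
import Pool.Agent.H44.W.Close6
import Pool.Agent.H44.W.CloseOff
import Pool.Agent.H62.W.Fields

set_option autoImplicit false
open Filter Topology Set

/-! # The natural inputs from pointwise bounds

`LA_of_pow` : pointwise bound `C R ^ (-1 - α)` on compact sets. `NatPt` : the pointwise form of the natural inputs;
`NatPt.natA` : the inputs `NatA` of the closing. -/

namespace Pool.Agent.H62.W

open Pool.Agent.Q1.M4 (lat)
open Pool.Agent.Q1.M6f.Glue (uu rr)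
open Pool.Agent.H44.FM.WG (Sh)
open Pool.Agent.H44.W
open G4

variable {R : ℕ → ℝ} {F : Filter ℕ} {Ω : Set ℂ} {M : ℝ}
  {h : Bool → Bool → Finset G4 → ℕ → ℤ × ℤ → ℂ}

/-- `B = A + O (R ^ (-1 - α))` pointwise on compact sets -/
def PtB (R : ℕ → ℝ) (F : Filter ℕ) (Ω : Set ℂ) (A B : ℕ → ℤ × ℤ → ℂ) : Prop :=
  ∀ K ⊆ Ω, IsCompact K → ∃ C α : ℝ, 0 < α ∧ ∀ᶠ j in F, ∀ v : ℤ × ℤ, lat v / (R j : ℂ) ∈ K →
    ‖B j v - A j v‖ ≤ C * (R j) ^ (-(1 + α))

lemma thin_empty : Thin R F Ω fun _ _ => ∅ := by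
  intro K _ _
  refine ⟨0, fun η _ => Eventually.of_forall fun j S hS => ?_⟩
  have : S = ∅ := Finset.eq_empty_of_forall_notMem fun v hv => (hS v hv).2
  rw [this]; simp

theorem LA_of_pow (hR : Tendsto R F atTop) {A B : ℕ → ℤ × ℤ → ℂ} (hAB : PtB R F Ω A B) :
    LA R F Ω A B := by
  have key : ∀ K ⊆ Ω, IsCompact K → ∀ ε > 0, ∀ᶠ j in F, ∀ v : ℤ × ℤ, lat v / (R j : ℂ) ∈ K →
      ‖B j v - A j v‖ ≤ ε / R j := by
    intro K hK hKc ε hε
    obtain ⟨C, α, hα, hj⟩ := hAB K hK hKc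
    have ht : Tendsto (fun j => |C| * (R j) ^ (-α)) F (𝓝 0) := by
      have := (tendsto_rpow_neg_atTop hα).comp hR
      have h2 := this.const_mul |C|
      rw [mul_zero] at h2
      exact h2
    filter_upwards [hj, ht.eventually (gt_mem_nhds hε), hR.eventually_ge_atTop 1] with j h1 h2 h3 v hv
    have hr : 0 < R j := by linarith
    refine (h1 v hv).trans ?_
    rw [le_div_iff₀ hr]
    have e1 : (R j) ^ (-(1 + α)) * R j = (R j) ^ (-α) := by
      conv_lhs => rw [show R j = R j ^ (1 : ℝ) from (Real.rpow_one _).symm]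
      rw [← Real.rpow_mul hr.le, ← Real.rpow_add hr]
      congr 1; ring
    have e2 : C * (R j) ^ (-(1 + α)) * R j ≤ |C| * (R j) ^ (-α) := by
      rw [mul_assoc, e1]
      exact mul_le_mul_of_nonneg_right (le_abs_self C) (by positivity)
    exact e2.trans h2.le
  refine LA_of_off hR thin_empty (fun K hK hKc => ⟨1, ?_⟩) (fun K hK hKc η _ ε hε => ?_)
  · exact key K hK hKc 1 one_pos
  · filter_upwards [key K hK hKc ε hε] with j hj v hv _
    exact hj v hv

/-- **The pointwise form of the natural inputs.** -/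
structure NatPt (R : ℕ → ℝ) (F : Filter ℕ) (Ω : Set ℂ)
    (h : Bool → Bool → Finset G4 → ℕ → ℤ × ℤ → ℂ) : Prop where
  s1 : ∀ q, PtB R F Ω (h q false {fo}) (h q true {ce})
  pp : ∀ q, PtB R F Ω (Sh rr (h q true ∅)) (h (!q) false ∅)
  s2 : ∀ q, PtB R F Ω (Sh uu (h q false {ri})) (h (!q) false {le})

theorem NatPt.natA (H : NatPt R F Ω h) (hR : Tendsto R F atTop)
    (hb : ∀ q, Bdd R F Ω M (h q false ∅))
    (xl : ∀ q, ∀ g ∈ ({fo, le, ri} : Finset G4), LO R F Ω (X4 (h q) false g))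
    (xr : ∀ q, LO R F Ω (X4 (h q) true ce)) : NatA R F Ω M h where
  bdd := hb
  s1 := fun q => LA_of_pow hR (H.s1 q)
  pp := fun q => LA_of_pow hR (H.pp q)
  s2 := fun q => LA_of_pow hR (H.s2 q)
  xl := xl
  xr := xr

end Pool.Agent.H62.W
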