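import Pool.Agent.H62.W.TotA

set_option autoImplicit false
open Finset

/-! # Natural totals: the theorem

`nat_ties` : the tied form of the natural window with all layer tiles at the tie points, arbitrary weights.
`totA` : everything tied off the ties of `T`. -/

namespace Pool.Agent.H62.W

open Pool.Agent.H75.Perc Pool.Agent.H75.TwoArm Pool.Agent.Q1 Pool.Agent.H33.Q1
open Pool.Agent.H69.Q1 Pool.Agent.H13.Q1
open Pool.Agent.H54.W (Win Out)
open Pool.Agent.H42.Sp (Sd Ix kt rt kt_odd rt_even kt_Tg rt_Tg cap_of)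
open Pool.Agent.H13.R45 (ev gp ev_true ev_false Tg)
open Pool.Agent.H74.R45 (exists_lt)
open Pool.Agent.H72.W.N
open Pool.Agent.H49.W (Leaf Ec_ties)

variable {D : Win} {p : Bool} {x y : ℤ} {O : OutB D} {T : Finset Ix} {S : Finset (ℤ × ℤ)}

/-- a fill tile -/
lemma fill_WT (hT : ∀ k ∈ T, CA D p k) (hS : S ⊆ FR D p) (hB : InB D x y) (hf : Fill D p x y) :
    lt (x, y) ∉ ET D p T ∧ (lt (x, y) ∈ WT O p T S ↔ natc D p x y = true) := by
  have h1 : ¬ InP D p x y := hf.not_inP
  have h2 : ¬ InT T x y := fun h => by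
    obtain ⟨s, h⟩ := h.ly hT
    exact hf h.near
  have h3 : ¬ FRt D p x y := fun h => hf h.1.1
  constructor
  · rw [mem_ET]; tauto
  · rw [mem_WT]
    constructor
    · rintro (h | h | h)
      · exact h.2.2.2.2
      · exact absurd (mem_FR.1 (hS h)) h3
      · exact absurd hB (O.far x y h)
    · intro h
      exact Or.inl ⟨hB, h1, h3, h2, h⟩

/-- the caps of the natural window -/
theorem cap_CA (O : OutB D) (hS : S ⊆ FR D p) {k : Ix} (hk : CA D p k) :
    Cap (ET D p (CAs D p)) (WT O p (CAs D p) S) (ev k.2) (gp k.2) (lt (kt k)) (lt (rt k)) := by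
  have hT : ∀ k ∈ CAs D p, CA D p k := fun k h => mem_CAs.1 h
  obtain ⟨⟨f1, c1⟩, f2, c2⟩ := CA.ut hk
  obtain ⟨b1, b2⟩ := CA.ut_inB hk
  obtain ⟨n1, w1⟩ := fill_WT (O := O) hT hS b1 f1
  obtain ⟨n2, w2⟩ := fill_WT (O := O) hT hS b2 f2
  refine cap_of (c := natc D p (ut1 k).1 (ut1 k).2) (kt_Tg k) (rt_Tg k) (kt_ne_rt k k) ?_ ?_
    (tg_all k) n1 w1 n2 ?_ c1
  · exact mem_ET.2 (Or.inr ⟨k, mem_CAs.2 hk, Or.inl rfl⟩)
  · exact mem_ET.2 (Or.inr ⟨k, mem_CAs.2 hk, Or.inr rfl⟩)
  · exact w2.trans (c2.symm.trans c1)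

lemma ET_sdiff : ET D p (CAs D p) \ (CAs D p).image (fun k => lt (rt k)) = EA D p := by
  ext e
  constructor
  · intro he
    obtain ⟨h1, h2⟩ := mem_sdiff.1 he
    obtain ⟨x, y, rfl⟩ := exists_lt (odd_ET h1)
    rw [mem_ET] at h1
    rw [mem_EA]
    rcases h1 with h | ⟨k, k1, k2 | k2⟩
    · exact Or.inl h
    · exact Or.inr (KA_iff.1 ⟨k, mem_CAs.1 k1, k2⟩)
    · exact absurd (mem_image.2 ⟨k, k1, by rw [k2]⟩) h2
  · intro he
    obtain ⟨x, y, rfl⟩ := exists_lt (odd_EA he)
    rw [mem_EA] at he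
    rw [mem_sdiff, mem_ET, mem_image]
    constructor
    · rcases he with h | h
      · exact Or.inl h
      · obtain ⟨k, k1, k2⟩ := KA_iff.2 h
        exact Or.inr ⟨k, mem_CAs.2 k1, Or.inl k2⟩
    · rintro ⟨k, k1, k2⟩
      have hk := mem_CAs.1 k1
      have h3 := lt_inj k2
      rcases he with h | h
      · have h4 := (CA.rt_ly hk).out
        rw [h3] at h4
        exact h4 h
      · obtain ⟨l, l1, l2⟩ := KA_iff.2 h
        exact kt_ne_rt l k (l2.trans h3.symm)

lemma WT_union (hS : S ⊆ FR D p) : WT O p (CAs D p) S ∪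
    ((CAs D p).filter (fun k => ev k.2 = true)).image (fun k => lt (rt k)) = WA O p S := by
  have hT : ∀ k ∈ CAs D p, CA D p k := fun k h => mem_CAs.1 h
  ext e
  constructor
  · intro he
    rcases mem_union.1 he with h | h
    · unfold WT at h
      unfold WA
      rw [mem_union, mem_union] at h ⊢
      rcases h with (h | h) | h
      · obtain ⟨x, y, rfl⟩ := exists_lt (odd_TB h)
        obtain ⟨b, h1, h2, h3, h4⟩ := mem_TB.1 h
        refine Or.inl (Or.inl (mem_WAb.2 (Or.inl ⟨b, ?_, h4⟩)))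
        intro hn
        exact h3 (inT_of_ring ⟨hn, h1⟩ h2)
      · exact Or.inl (Or.inr h)
      · exact Or.inr h
    · obtain ⟨k, h1, rfl⟩ := mem_image.1 h
      obtain ⟨h1, h2⟩ := mem_filter.1 h1
      exact mem_WA.2 (Or.inr (Or.inl ⟨k, mem_CAs.1 h1, rfl, h2⟩))
  · intro he
    unfold WA at he
    rw [mem_union, mem_union] at he
    rcases he with (h | h) | h
    · obtain ⟨x, y, rfl⟩ := exists_lt (odd_WAb h)
      rcases mem_WAb.1 h with ⟨b, h1, h2⟩ | ⟨k, k1, k2, k3⟩
      · exact mem_union_left _ ((fill_WT hT hS b h1).2.2 h2)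
      · exact mem_union_right _ (mem_image.2 ⟨k, mem_filter.2 ⟨mem_CAs.2 k1, k3⟩, by rw [k2]⟩)
    · refine mem_union_left _ ?_
      unfold WT
      rw [mem_union, mem_union]
      exact Or.inl (Or.inr h)
    · refine mem_union_left _ ?_
      unfold WT
      rw [mem_union, mem_union]
      exact Or.inr h

/-- **The tied form of the natural window**, arbitrary weights. -/
theorem nat_ties {F : Finset (ℤ × ℤ) → ℂ} {q q' : ℤ × ℤ → ℂ} (hS : S ⊆ FR D p)
    (hF : ∀ k, CA D p k → Leaf F (ev k.2) (gp k.2))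
    (h1 : ∀ e ∈ EN D p, q' e = q e)
    (h2 : ∀ k, CA D p k → q' (lt (kt k)) = mg (ev k.2) (q (lt (kt k))) (q (lt (rt k)))) :
    Ec q' (EA D p) (fun ω => F (ω ∪ WA O p S)) =
      Ec q (ET D p (CAs D p)) (fun ω => F (ω ∪ WT O p (CAs D p) S)) := by
  have hT : ∀ k ∈ CAs D p, CA D p k := fun k h => mem_CAs.1 h
  rw [← ET_sdiff, ← WT_union hS]
  refine Ec_ties (CAs D p) (fun k => ev k.2) (fun k => gp k.2) (fun k => lt (kt k))
    (fun k => lt (rt k)) (fun k hk => cap_CA O hS (hT k hk)) (fun k hk => hF k (hT k hk))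
    (disj_ETW hT hS) (fun k hk l hl hne => ⟨fun h => hne (CA.kt_inj (hT k hk) (hT l hl) (lt_inj h)),
      fun h => kt_ne_rt k l (lt_inj h), fun h => hne (CA.rt_inj (hT k hk) (hT l hl) (lt_inj h))⟩)
    (fun k hk => h2 k (hT k hk)) (fun e he hn => ?_)
  obtain ⟨x, y, rfl⟩ := exists_lt (odd_ET he)
  rcases mem_ET.1 he with h | ⟨k, k1, k2 | k2⟩
  · exact h1 _ (mem_EN.2 h)
  · exact absurd (by rw [k2]) (hn k k1).1
  · exact absurd (by rw [k2]) (hn k k1).2

/-- **Everything tied off the ties of `T`.** -/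
theorem totA {F : Finset (ℤ × ℤ) → ℂ} {q q' : ℤ × ℤ → ℂ} (hT : ∀ k ∈ T, CA D p k) (hS : S ⊆ FR D p)
    (hF : ∀ k, CA D p k → Leaf F (ev k.2) (gp k.2))
    (h1 : ∀ e ∈ EN D p, q' e = q e)
    (h2 : ∀ k ∈ T, q' (lt (kt k)) = mg (ev k.2) (q (lt (kt k))) (q (lt (rt k))))
    (h3 : ∀ k, CA D p k → k ∉ T → q' (lt (kt k)) = if ev k.2 = true then 0 else 1) :
    Ec q' (EA D p) (fun ω => F (ω ∪ WA O p S)) =
      Ec q (ET D p T) (fun ω => F (ω ∪ WT O p T S)) := by
  classical
  -- the deterministic tiles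
  set U := CAs D p \ T with hU
  have hUC : ∀ k ∈ U, CA D p k := fun k h => mem_CAs.1 (mem_sdiff.1 h).1
  set Dt : Finset (ℤ × ℤ) := (U.image (fun k => lt (kt k)) ∪ U.image fun k => lt (rt k)) with hDt
  have mDt : ∀ x y, lt (x, y) ∈ Dt ↔ InT U x y := by
    intro x y
    rw [hDt, mem_union, mem_image, mem_image]
    constructor
    · rintro (⟨k, k1, k2⟩ | ⟨k, k1, k2⟩)
      · exact ⟨k, k1, Or.inl (lt_inj k2)⟩
      · exact ⟨k, k1, Or.inr (lt_inj k2)⟩
    · rintro ⟨k, k1, k2 | k2⟩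
      · exact Or.inl ⟨k, k1, by rw [k2]⟩
      · exact Or.inr ⟨k, k1, by rw [k2]⟩
  have oDt : ∀ e ∈ Dt, (e.1 + e.2) % 2 = 1 := by
    intro e he
    rw [hDt, mem_union, mem_image, mem_image] at he
    rcases he with ⟨k, -, rfl⟩ | ⟨k, -, rfl⟩ <;> exact lt_odd _
  have sep : ∀ x y, InT U x y → ¬ InT T x y := by
    rintro x y ⟨k, k1, k2⟩ ⟨l, l1, l2⟩
    have hk := hUC k k1
    have hl := hT l l1
    have hne : k ≠ l := fun h => (mem_sdiff.1 k1).2 (h ▸ l1)
    rcases k2 with k2 | k2 <;> rcases l2 with l2 | l2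
    · exact hne (CA.kt_inj hk hl (k2.trans l2.symm))
    · exact kt_ne_rt k l (k2.trans l2.symm)
    · exact kt_ne_rt l k (l2.trans k2.symm)
    · exact hne (CA.rt_inj hk hl (k2.trans l2.symm))
  have spl : ∀ x y, InT (CAs D p) x y ↔ InT T x y ∨ InT U x y := by
    intro x y
    constructor
    · rintro ⟨k, k1, k2⟩
      by_cases hk : k ∈ T
      · exact Or.inl ⟨k, hk, k2⟩
      · exact Or.inr ⟨k, mem_sdiff.2 ⟨k1, hk⟩, k2⟩
    · rintro (⟨k, k1, k2⟩ | ⟨k, k1, k2⟩)
      · exact ⟨k, mem_CAs.2 (hT k k1), k2⟩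
      · exact ⟨k, (mem_sdiff.1 k1).1, k2⟩
  set q2 : ℤ × ℤ → ℂ := fun e => if e ∈ Dt then (if natc D p (tt e).1 (tt e).2 = true then 1 else 0)
    else q e with hq2
  have hdis : Disjoint (ET D p T) Dt := by
    rw [disjoint_left]
    intro e he he'
    obtain ⟨x, y, rfl⟩ := exists_lt (odd_ET he)
    rw [mDt] at he'
    rcases mem_ET.1 he with h | h
    · obtain ⟨s, h'⟩ := he'.ly hUC
      exact h'.out h
    · exact sep x y he' h
  have hunion : ET D p (CAs D p) = ET D p T ∪ Dt := by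
    ext e
    rw [mem_union]
    constructor
    · intro he
      obtain ⟨x, y, rfl⟩ := exists_lt (odd_ET he)
      rw [mem_ET, spl] at he
      rw [mem_ET, mDt]
      tauto
    · rintro (he | he)
      · obtain ⟨x, y, rfl⟩ := exists_lt (odd_ET he)
        rw [mem_ET] at he
        rw [mem_ET, spl]
        tauto
      · obtain ⟨x, y, rfl⟩ := exists_lt (oDt e he)
        rw [mDt] at he
        rw [mem_ET, spl]
        tauto
  have nin : ∀ k, CA D p k → k ∈ T → lt (kt k) ∉ Dt ∧ lt (rt k) ∉ Dt := by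
    intro k _ hk
    constructor
    · intro h
      have h' := (mDt (kt k).1 (kt k).2).1 h
      exact sep _ _ h' ⟨k, hk, Or.inl rfl⟩
    · intro h
      have h' := (mDt (rt k).1 (rt k).2).1 h
      exact sep _ _ h' ⟨k, hk, Or.inr rfl⟩
  have key := nat_ties (O := O) (q := q2) (q' := q') hS hF (fun e he => ?_) (fun k hk => ?_)
  · rw [key, hunion, Ec_union q2 hdis]
    have e1 : ∀ ω, ω ⊆ ET D p T → Ec q2 Dt (fun ω' => F (ω ∪ ω' ∪ WT O p (CAs D p) S)) =
        F (ω ∪ WT O p T S) := by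
      intro ω hω
      rw [Pool.Agent.Q1.M6e.Ec_det (O := Dt.filter fun e => natc D p (tt e).1 (tt e).2 = true) (filter_subset _ _)]
      · congr 1
        rw [union_assoc]
        congr 1
        ext e
        constructor
        · intro he
          rcases mem_union.1 he with h | h
          · obtain ⟨h4, h5⟩ := mem_filter.1 h
            obtain ⟨x, y, rfl⟩ := exists_lt (oDt e h4)
            rw [mDt] at h4
            rw [tt_lt] at h5
            obtain ⟨s, h'⟩ := h4.ly hUC
            exact mem_WT.2 (Or.inl ⟨h4.inB hUC, h'.out, h4.not_FRt hUC, sep x y h4, h5⟩)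
          · unfold WT at h ⊢
            rw [mem_union, mem_union] at h ⊢
            rcases h with (h | h) | h
            · obtain ⟨x, y, rfl⟩ := exists_lt (odd_TB h)
              obtain ⟨b, h4, h5, h6, h7⟩ := mem_TB.1 h
              refine Or.inl (Or.inl (mem_TB.2 ⟨b, h4, h5, fun h8 => h6 ((spl x y).2 (Or.inl h8)), h7⟩))
            · exact Or.inl (Or.inr h)
            · exact Or.inr h
        · intro he
          unfold WT at he
          rw [mem_union, mem_union] at he
          rw [mem_union]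
          unfold WT
          rw [mem_union, mem_union]
          rcases he with (h | h) | h
          · obtain ⟨x, y, rfl⟩ := exists_lt (odd_TB h)
            obtain ⟨b, h4, h5, h6, h7⟩ := mem_TB.1 h
            by_cases h8 : InT U x y
            · refine Or.inl (mem_filter.2 ⟨(mDt x y).2 h8, ?_⟩)
              rw [tt_lt]; exact h7
            · refine Or.inr (Or.inl (Or.inl (mem_TB.2 ⟨b, h4, h5, fun h9 => ?_, h7⟩)))
              rcases (spl x y).1 h9 with h9 | h9
              · exact h6 h9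
              · exact h8 h9
          · exact Or.inr (Or.inl (Or.inr h))
          · exact Or.inr (Or.inr h)
      · intro e he
        obtain ⟨h4, h5⟩ := mem_filter.1 he
        rw [hq2]
        simp only
        rw [if_pos h4, if_pos h5]
      · intro e he he'
        rw [hq2]
        simp only
        rw [if_pos he, if_neg fun h5 => he' (mem_filter.2 ⟨he, h5⟩)]
    rw [Ec_congr fun ω hω => e1 ω hω]
    exact Ec_congr_q (fun e he => by
      rw [hq2]
      simp only
      rw [if_neg fun h => disjoint_left.1 hdis he h]) _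
  · have h4 : e ∉ Dt := fun h => by
      obtain ⟨x, y, rfl⟩ := exists_lt (odd_EN he)
      rw [mDt] at h
      obtain ⟨s, h'⟩ := h.ly hUC
      exact h'.out (mem_EN.1 he)
    rw [hq2]
    simp only
    rw [if_neg h4]
    exact h1 e he
  · by_cases hkT : k ∈ T
    · obtain ⟨n1, n2⟩ := nin k hk hkT
      rw [hq2]
      simp only
      rw [if_neg n1, if_neg n2]
      exact h2 k hkT
    · have hkU : k ∈ U := mem_sdiff.2 ⟨mem_CAs.2 hk, hkT⟩
      have m1 : lt (kt k) ∈ Dt := (mDt _ _).2 ⟨k, hkU, Or.inl rfl⟩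
      have m2 : lt (rt k) ∈ Dt := (mDt _ _).2 ⟨k, hkU, Or.inr rfl⟩
      have c1 := CA.col_kt hk
      have c2 := CA.col_rt hk
      rw [h3 k hk hkT, hq2]
      simp only
      rw [if_pos m1, if_pos m2, tt_lt, tt_lt]
      obtain ⟨s, g1, g2⟩ := k
      simp only at c1 c2 ⊢
      by_cases he : ev (g1, g2) = true
      · have he' := ev_true.1 he
        rw [if_pos he, if_neg (fun h => by have := c1.2 h; omega),
          if_neg (fun h => by have := c2.2 h; omega)]
        unfold mg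
        rw [if_pos he]
        ring
      · have he' : (g1 + g2) % 2 = 1 := ev_false.1 (by simpa using he)
        rw [if_neg he, if_pos (c1.1 he'), if_pos (c2.1 he')]
        unfold mg
        rw [if_neg he]
        ring

end Pool.Agent.H62.W
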