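import Pool.Agent.H72.W.NXB
import Pool.Agent.H49.W.CapF
import Pool.Agent.Q1.M6e.PathP

set_option autoImplicit false
open Finset

/-! # Natural totals: ties with the weights of two natural tiles

`CAs D p` : the tie points of the natural window `P^p`. `ET D p T` : the tiles of `P^p` and the two layer tiles at
the tie points of `T`. `WT O p T S` : open labels, all the other tiles have their natural colour, the frozen
tiles are `S`. `totA` : for a functional `F` which does not see dangling labels at the tie points, the mean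
over the tied window with the merged weights at the ties of `T`, and everything else tied, is the mean over
`ET T`. The weights on `P^p` and on the layer tiles are arbitrary. -/

namespace Pool.Agent.H62.W

open Pool.Agent.H75.Perc Pool.Agent.H75.TwoArm Pool.Agent.Q1 Pool.Agent.H33.Q1
open Pool.Agent.H69.Q1 Pool.Agent.H13.Q1
open Pool.Agent.H54.W (Win Out)
open Pool.Agent.H42.Sp (Sd Ix kt rt kt_odd rt_even kt_Tg rt_Tg cap_of)
open Pool.Agent.H13.R45 (ev gp ev_true ev_false Tg)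
open Pool.Agent.H74.R45 (exists_lt)
open Pool.Agent.H72.W.N
open Pool.Agent.H49.W (Leaf Ec_ties)

variable {D : Win} {p : Bool} {x y : ℤ}

/-! ### The tiles at a tie point -/

/-- first outer tile at a tie point -/
def ut1 : Ix → ℤ × ℤ
  | (.L, (x, y)) => (x - 1, y)
  | (.R, (x, y)) => (x, y)
  | (.F, (x, y)) => (x, y - 1)
  | (.C, (x, y)) => (x, y)

/-- second outer tile at a tie point -/
def ut2 : Ix → ℤ × ℤ
  | (.L, (x, y)) => (x - 1, y - 1)
  | (.R, (x, y)) => (x, y - 1)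
  | (.F, (x, y)) => (x - 1, y - 1)
  | (.C, (x, y)) => (x - 1, y)

lemma tg_all (k : Ix) (e : ℤ × ℤ) (h : Tg k.2 e) :
    e = lt (kt k) ∨ e = lt (rt k) ∨ e = lt (ut1 k) ∨ e = lt (ut2 k) := by
  obtain ⟨s, x, y⟩ := k
  unfold Tg at h
  simp only at h
  cases s <;> (unfold kt rt ut1 ut2; simp only; split_ifs <;> tauto)

lemma kt_ne_rt (k l : Ix) : kt k ≠ rt l := by
  intro h
  have h1 := kt_odd k
  have h2 := rt_even l
  rw [h] at h1
  omega

/-- the four tiles at a tie point have its colour -/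
lemma CA.col4 {k : Ix} (h : CA D p k) : Col4 D p k.2.1 k.2.2 := by
  obtain ⟨s, x, y⟩ := k
  cases s <;> exact h.2.2

lemma CA.col_kt {k : Ix} (h : CA D p k) :
    (k.2.1 + k.2.2) % 2 = 1 ↔ natc D p (kt k).1 (kt k).2 = true := by
  obtain ⟨h1, h2, h3, h4⟩ := CA.col4 h
  obtain ⟨s, x, y⟩ := k
  simp only at h1 h2 h3 h4
  cases s <;> (unfold kt; simp only; split_ifs <;> (simp only; tauto))

lemma CA.col_rt {k : Ix} (h : CA D p k) :
    (k.2.1 + k.2.2) % 2 = 1 ↔ natc D p (rt k).1 (rt k).2 = true := by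
  obtain ⟨h1, h2, h3, h4⟩ := CA.col4 h
  obtain ⟨s, x, y⟩ := k
  simp only at h1 h2 h3 h4
  cases s <;> (unfold rt; simp only; split_ifs <;> (simp only; tauto))

/-- the outer tiles at a tie point are fill tiles of its colour -/
lemma CA.ut {k : Ix} (h : CA D p k) :
    (Fill D p (ut1 k).1 (ut1 k).2 ∧ ((k.2.1 + k.2.2) % 2 = 1 ↔
      natc D p (ut1 k).1 (ut1 k).2 = true)) ∧
    (Fill D p (ut2 k).1 (ut2 k).2 ∧ ((k.2.1 + k.2.2) % 2 = 1 ↔
      natc D p (ut2 k).1 (ut2 k).2 = true)) := by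
  obtain ⟨h1, h2, h3, h4⟩ := CA.col4 h
  obtain ⟨s, x, y⟩ := k
  simp only at h1 h2 h3 h4
  cases s
  · obtain ⟨k1, k2, -⟩ := h
    have a1 := k1.far
    have a2 := k2.far
    simp only [dr, sub_zero] at a1 a2
    unfold ut1 ut2
    simp only
    tauto
  · obtain ⟨k1, k2, -⟩ := h
    have a1 := k1.far
    have a2 := k2.far
    simp only [dr, sub_zero, sub_neg_eq_add, sub_add_cancel] at a1 a2
    unfold ut1 ut2
    simp only
    tauto
  · obtain ⟨k1, k2, -⟩ := h
    have a1 := k1.far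
    have a2 := k2.far
    simp only [dr, sub_zero] at a1 a2
    unfold ut1 ut2
    simp only
    tauto
  · obtain ⟨k1, k2, -⟩ := h
    have a1 := k1.far
    have a2 := k2.far
    simp only [dr, sub_zero, sub_neg_eq_add, sub_add_cancel] at a1 a2
    unfold ut1 ut2
    simp only
    tauto

/-- the tiles around a tie point are in the box -/
lemma CA.box {k : Ix} (h : CA D p k) : D.lo ≤ k.2.1 + 3 ∧ k.2.1 ≤ D.w + 1 ∧ -1 ≤ k.2.2 ∧
    k.2.2 ≤ D.h + 1 := by
  have h1 := (CA.kt_ly h).box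
  obtain ⟨s, x, y⟩ := k
  revert h1
  cases s <;> (unfold kt; simp only; split_ifs <;> (simp only; omega))

lemma CA.ut_inB {k : Ix} (h : CA D p k) : InB D (ut1 k).1 (ut1 k).2 ∧ InB D (ut2 k).1 (ut2 k).2 := by
  have h1 := CA.box h
  obtain ⟨s, x, y⟩ := k
  simp only at h1
  unfold InB
  cases s <;> (unfold ut1 ut2; simp only; omega)

lemma CA.kt_inB {k : Ix} (h : CA D p k) : InB D (kt k).1 (kt k).2 :=
  (CA.kt_ly h).inB (by omega) (by omega) (by omega) (by omega)

lemma CA.rt_inB {k : Ix} (h : CA D p k) : InB D (rt k).1 (rt k).2 :=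
  (CA.rt_ly h).inB (by omega) (by omega) (by omega) (by omega)

/-- the kept tiles of different tie points are different -/
lemma CA.kt_inj {k l : Ix} (hk : CA D p k) (hl : CA D p l) (h : kt k = kt l) : k = l := by
  have h1 := CA.kt_ly hk
  have h2 := CA.kt_ly hl
  rw [← h] at h2
  have hs := h1.unique h2
  have c1 := CA.col_kt hk
  have c2 := CA.col_kt hl
  rw [← h, ← c1] at c2
  obtain ⟨s, g⟩ := k
  obtain ⟨s', g'⟩ := l
  simp only at hs c2
  subst hs
  refine Prod.ext rfl ?_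
  simp only
  have e : decide ((g.1 + g.2) % 2 = 1) = decide ((g'.1 + g'.2) % 2 = 1) := by
    rw [decide_eq_decide]
    exact c2.symm
  have g1 := gt_kt (s, g)
  have g2 := gt_kt (s, g')
  simp only at g1 g2
  rw [← g1, ← g2, e, h]

/-- the removed tiles of different tie points are different -/
lemma CA.rt_inj {k l : Ix} (hk : CA D p k) (hl : CA D p l) (h : rt k = rt l) : k = l := by
  have h1 := CA.rt_ly hk
  have h2 := CA.rt_ly hl
  rw [← h] at h2
  have hs := h1.unique h2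
  have c1 := CA.col_rt hk
  have c2 := CA.col_rt hl
  rw [← h, ← c1] at c2
  obtain ⟨s, x, y⟩ := k
  obtain ⟨s', x', y'⟩ := l
  simp only at hs c2
  subst hs
  have e : x = x' ∧ y = y' := by
    revert h
    cases s <;> (unfold rt; simp only; split_ifs <;> (intro h; simp only [Prod.mk.injEq] at h; omega))
  rw [e.1, e.2]

/-! ### Finite sets -/

open Classical in
/-- the tie points -/
noncomputable def CAs (D : Win) (p : Bool) : Finset Ix :=
  ((univ : Finset Sd) ×ˢ (Icc (D.lo - 3) (D.w + 1) ×ˢ Icc (-1) (D.h + 1))).filter (CA D p)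

lemma mem_CAs {k : Ix} : k ∈ CAs D p ↔ CA D p k := by
  classical
  unfold CAs
  rw [mem_filter]
  refine ⟨fun h => h.2, fun h => ⟨?_, h⟩⟩
  have := CA.box h
  rw [mem_product, mem_product, mem_Icc, mem_Icc]
  exact ⟨mem_univ _, by omega, by omega⟩

/-- the tiles of `P^p` and the layer tiles at the tie points of `T` -/
noncomputable def ET (D : Win) (p : Bool) (T : Finset Ix) : Finset (ℤ × ℤ) :=
  EN D p ∪ (T.image (fun k => lt (kt k)) ∪ T.image fun k => lt (rt k))

/-- the tile is at a tie point of `T` -/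
def InT (T : Finset Ix) (x y : ℤ) : Prop := ∃ k ∈ T, kt k = (x, y) ∨ rt k = (x, y)

lemma mem_ET {T : Finset Ix} : lt (x, y) ∈ ET D p T ↔ InP D p x y ∨ InT T x y := by
  unfold ET InT
  rw [mem_union, mem_EN, mem_union, mem_image, mem_image]
  constructor
  · rintro (h | ⟨k, h1, h2⟩ | ⟨k, h1, h2⟩)
    · exact Or.inl h
    · exact Or.inr ⟨k, h1, Or.inl (lt_inj h2)⟩
    · exact Or.inr ⟨k, h1, Or.inr (lt_inj h2)⟩
  · rintro (h | ⟨k, h1, h2 | h2⟩)
    · exact Or.inl h
    · exact Or.inr (Or.inl ⟨k, h1, by rw [h2]⟩)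
    · exact Or.inr (Or.inr ⟨k, h1, by rw [h2]⟩)

lemma odd_ET {T : Finset Ix} {e : ℤ × ℤ} (he : e ∈ ET D p T) : (e.1 + e.2) % 2 = 1 := by
  unfold ET at he
  rw [mem_union, mem_union, mem_image, mem_image] at he
  rcases he with h | ⟨k, -, rfl⟩ | ⟨k, -, rfl⟩
  · exact odd_EN h
  · exact lt_odd _
  · exact lt_odd _

/-- open labels: natural colours, the frozen tiles are `S` -/
noncomputable def WT {D : Win} (O : OutB D) (p : Bool) (T : Finset Ix) (S : Finset (ℤ × ℤ)) :
    Finset (ℤ × ℤ) :=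
  TB D (fun x y => ¬ InP D p x y ∧ ¬ FRt D p x y ∧ ¬ InT T x y ∧ natc D p x y = true) ∪ S ∪ O.Wo

variable {O : OutB D} {T : Finset Ix} {S : Finset (ℤ × ℤ)}

lemma mem_WT : lt (x, y) ∈ WT O p T S ↔ (InB D x y ∧ ¬ InP D p x y ∧ ¬ FRt D p x y ∧ ¬ InT T x y ∧
    natc D p x y = true) ∨ lt (x, y) ∈ S ∨ lt (x, y) ∈ O.Wo := by
  unfold WT
  rw [mem_union, mem_union, mem_TB, or_assoc]

lemma InT.ly (hT : ∀ k ∈ T, CA D p k) (h : InT T x y) : ∃ s, LyA D p s x y := by
  obtain ⟨k, h1, h2 | h2⟩ := h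
  · have := CA.kt_ly (hT k h1)
    rw [h2] at this; exact ⟨_, this⟩
  · have := CA.rt_ly (hT k h1)
    rw [h2] at this; exact ⟨_, this⟩

lemma InT.not_FRt (hT : ∀ k ∈ T, CA D p k) (h : InT T x y) : ¬ FRt D p x y := by
  rintro ⟨-, h1, h2⟩
  obtain ⟨k, k1, k2 | k2⟩ := h
  · exact h1 ⟨k, hT k k1, k2⟩
  · exact h2 ⟨k, hT k k1, k2⟩

lemma InT.inB (hT : ∀ k ∈ T, CA D p k) (h : InT T x y) : InB D x y := by
  obtain ⟨s, h⟩ := h.ly hT
  exact h.inB (by omega) (by omega) (by omega) (by omega)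

/-- a ring tile which is not frozen is at a tie point -/
lemma inT_of_ring (h : Ring D p x y) (h' : ¬ FRt D p x y) : InT (CAs D p) x y := by
  by_contra hc
  refine h' ⟨h, ?_, ?_⟩
  · rintro ⟨k, h1, h2⟩
    exact hc ⟨k, mem_CAs.2 h1, Or.inl h2⟩
  · rintro ⟨k, h1, h2⟩
    exact hc ⟨k, mem_CAs.2 h1, Or.inr h2⟩

lemma disj_ETW (hT : ∀ k ∈ T, CA D p k) (hS : S ⊆ FR D p) : Disjoint (ET D p T) (WT O p T S) := by
  rw [disjoint_left]
  intro e he he'
  obtain ⟨x, y, rfl⟩ := exists_lt (odd_ET he)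
  rw [mem_ET] at he
  rw [mem_WT] at he'
  have hB : InB D x y := by
    rcases he with h | h
    · exact h.inB
    · exact h.inB hT
  rcases he' with ⟨-, h1, h2, h3, -⟩ | h | h
  · rcases he with h | h
    · exact h1 h
    · exact h3 h
  · have h2 := mem_FR.1 (hS h)
    rcases he with h | h
    · exact h2.1.2 h
    · exact h.not_FRt hT h2
  · exact O.far x y h hB

end Pool.Agent.H62.W
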